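import Mathlib

/-!
One-dimensional Wirtinger and Bessel inequalities for the first two sine modes.
-/

namespace Pool.Agent.Lib.MP_eb4995_an.Cv

open MeasureTheory Set Filter Topology Real

theorem neg_pi_lt : -π < π := by linarith [pi_pos]

theorem int_eq {F : Type} [NormedAddCommGroup F] [NormedSpace ℝ F] {h : ℝ → F}
    (h0 : ∀ t, π ≤ |t| → h t = 0) : ∫ t in (-π)..π, h t = ∫ t, h t := by
  refine intervalIntegral.integral_eq_integral_of_support_subset fun t ht => ?_
  have h1 : |t| < π := not_le.1 fun H => ht (h0 t H)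
  rw [abs_lt] at h1
  exact ⟨h1.1, h1.2.le⟩

theorem integrable_of_zero {F : Type} [NormedAddCommGroup F] {h : ℝ → F} (hc : Continuous h)
    {R : ℝ} (h0 : ∀ t, R ≤ |t| → h t = 0) : Integrable h := by
  refine hc.integrable_of_hasCompactSupport (HasCompactSupport.intro (isCompact_Icc (a := -R)
    (b := R)) fun t ht => h0 t ?_)
  by_contra H
  rw [not_le, abs_lt] at H
  exact ht ⟨H.1.le, H.2.le⟩

variable {f g : ℝ → ℝ}

theorem zero_abs (h0 : ∀ t, t ≤ 0 ∨ π ≤ t → f t = 0) (t : ℝ) (ht : π ≤ |t|) : f t = 0 := by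
  refine h0 t ?_
  rcases le_total t 0 with h | h
  · exact Or.inl h
  · exact Or.inr (by rwa [abs_of_nonneg h] at ht)

theorem coeff_odd (hf : Continuous f) (h0 : ∀ t, t ≤ 0 ∨ π ≤ t → f t = 0) (n : ℤ) :
    ‖fourierCoeffOn neg_pi_lt (fun t => ((f t - f (-t) : ℝ) : ℂ)) n‖ ^ 2 =
      (∫ t, f t * sin (n * t)) ^ 2 / π ^ 2 := by
  have hz := zero_abs h0
  have hz' : ∀ t, π ≤ |t| → f (-t) = 0 := fun t ht => hz _ (by rwa [abs_neg])
  rw [fourierCoeffOn_eq_integral]
  have e1 : ∀ t : ℝ, fourier (-n) (t : AddCircle (π - -π)) • ((f t - f (-t) : ℝ) : ℂ) =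
      Complex.exp (-(n * t) * Complex.I) * f t - Complex.exp (-(n * t) * Complex.I) * f (-t) := by
    intro t
    rw [fourier_coe_apply, smul_eq_mul]
    have : 2 * (π : ℂ) * Complex.I * ((-n : ℤ) : ℂ) * t / ((π - -π : ℝ) : ℂ) =
        -(n * t) * Complex.I := by
      have : (π : ℂ) ≠ 0 := by exact_mod_cast pi_ne_zero
      push_cast
      field_simp
      ring
    rw [this]
    push_cast
    ring
  simp_rw [e1]
  have i1 : Integrable fun t : ℝ => Complex.exp (-(n * t) * Complex.I) * f t :=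
    integrable_of_zero (by fun_prop) (R := π) fun t ht => by simp [hz t ht]
  have i2 : Integrable fun t : ℝ => Complex.exp (-(n * t) * Complex.I) * f (-t) :=
    integrable_of_zero (by fun_prop) (R := π) fun t ht => by simp [hz' t ht]
  have i3 : Integrable fun t : ℝ => Complex.exp ((n * t) * Complex.I) * f t :=
    integrable_of_zero (by fun_prop) (R := π) fun t ht => by simp [hz t ht]
  rw [int_eq (fun t ht => by simp [hz t ht, hz' t ht]), integral_sub i1 i2]
  have e2 : ∫ t : ℝ, Complex.exp (-(n * t) * Complex.I) * f (-t) =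
      ∫ t : ℝ, Complex.exp ((n * t) * Complex.I) * f t := by
    rw [← integral_neg_eq_self]
    simp
  rw [e2, ← integral_sub i1 i3]
  have e3 : ∀ t : ℝ, Complex.exp (-(n * t) * Complex.I) * f t -
      Complex.exp ((n * t) * Complex.I) * f t =
      (-2 * Complex.I) * ((f t * sin (n * t) : ℝ) : ℂ) := by
    intro t
    push_cast
    rw [Complex.exp_mul_I, Complex.exp_mul_I, Complex.cos_neg, Complex.sin_neg]
    ring
  simp_rw [e3]
  rw [integral_const_mul, integral_complex_ofReal, norm_smul, norm_mul, Complex.norm_real,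
    Real.norm_eq_abs, Real.norm_eq_abs, mul_pow, mul_pow, sq_abs, sq_abs]
  have : ‖(-2 * Complex.I)‖ = 2 := by simp
  rw [this]
  have := pi_ne_zero
  field_simp
  ring

theorem parseval_pm (hf : Continuous f) (h0 : ∀ t, t ≤ 0 ∨ π ≤ t → f t = 0) {s : ℝ}
    (hs : s ^ 2 = 1) :
    HasSum (fun n => ‖fourierCoeffOn neg_pi_lt (fun t => ((f t + s * f (-t) : ℝ) : ℂ)) n‖ ^ 2)
      ((∫ t, f t ^ 2) / π) := by
  have hz := zero_abs h0
  have hz' : ∀ t, π ≤ |t| → f (-t) = 0 := fun t ht => hz _ (by rwa [abs_neg])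
  have hc : Continuous fun t => ((f t + s * f (-t) : ℝ) : ℂ) := by fun_prop
  have hm : MemLp (fun t => ((f t + s * f (-t) : ℝ) : ℂ)) 2 (volume.restrict (Ioc (-π) π)) := by
    refine MemLp.restrict _ (hc.memLp_of_hasCompactSupport (HasCompactSupport.intro
      (isCompact_Icc (a := -π) (b := π)) fun t ht => ?_))
    have : π ≤ |t| := by
      by_contra H
      rw [not_le, abs_lt] at H
      exact ht ⟨H.1.le, H.2.le⟩
    simp [hz t this, hz' t this]
  have h := hasSum_sq_fourierCoeffOn neg_pi_lt hm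
  have e1 : ∀ t, ‖((f t + s * f (-t) : ℝ) : ℂ)‖ ^ 2 = f t ^ 2 + f (-t) ^ 2 := by
    intro t
    rw [Complex.norm_real, Real.norm_eq_abs, sq_abs]
    have : f t * f (-t) = 0 := by
      rcases le_total t 0 with h | h
      · rw [h0 t (Or.inl h), zero_mul]
      · rw [h0 (-t) (Or.inl (by linarith)), mul_zero]
    linear_combination 2 * s * this + f (-t) ^ 2 * hs
  simp_rw [e1] at h
  have i1 : Integrable fun t : ℝ => f t ^ 2 :=
    integrable_of_zero (by fun_prop) (R := π) fun t ht => by simp [hz t ht]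
  have i2 : Integrable fun t : ℝ => f (-t) ^ 2 :=
    integrable_of_zero (by fun_prop) (R := π) fun t ht => by simp [hz' t ht]
  rw [int_eq (fun t ht => by simp [hz t ht, hz' t ht]), integral_add i1 i2,
    integral_neg_eq_self (fun t => f t ^ 2)] at h
  have e2 : (π - -π)⁻¹ • ((∫ t, f t ^ 2) + ∫ t, f t ^ 2) = (∫ t, f t ^ 2) / π := by
    have := pi_ne_zero
    rw [smul_eq_mul]
    field_simp
    ring
  rwa [e2] at h

theorem parseval_sin (hf : Continuous f) (h0 : ∀ t, t ≤ 0 ∨ π ≤ t → f t = 0) :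
    HasSum (fun n : ℤ => (∫ t, f t * sin (n * t)) ^ 2 / π ^ 2) ((∫ t, f t ^ 2) / π) := by
  have h := parseval_pm hf h0 (s := -1) (by norm_num)
  simp only [neg_one_mul, ← sub_eq_add_neg] at h
  simpa only [coeff_odd hf h0] using h

theorem sin_neg_coeff (f : ℝ → ℝ) (a : ℝ) :
    (∫ t, f t * sin (-a * t)) ^ 2 = (∫ t, f t * sin (a * t)) ^ 2 := by
  simp only [neg_mul, sin_neg, mul_neg, integral_neg, neg_sq]

theorem bessel0 (hf : Continuous f) (h0 : ∀ t, t ≤ 0 ∨ π ≤ t → f t = 0) :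
    2 / π * ((∫ t, f t * sin t) ^ 2 + (∫ t, f t * sin (2 * t)) ^ 2) ≤ ∫ t, f t ^ 2 := by
  have h := sum_le_hasSum ({1, -1, 2, -2} : Finset ℤ) (fun n _ => by positivity)
    (parseval_sin hf h0)
  rw [Finset.sum_insert (by decide), Finset.sum_insert (by decide),
    Finset.sum_insert (by decide), Finset.sum_singleton] at h
  push_cast at h
  rw [sin_neg_coeff, sin_neg_coeff] at h
  simp only [one_mul] at h
  have hp := pi_pos
  rw [le_div_iff₀ hp] at h
  refine le_of_eq_of_le ?_ h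
  field_simp
  ring

theorem wirt0 (hd : ∀ t, HasDerivAt f (g t) t) (hg : Continuous g)
    (h0 : ∀ t, t ≤ 0 ∨ π ≤ t → f t = 0) (g0 : ∀ t, t ≤ 0 ∨ π ≤ t → g t = 0) :
    9 * (∫ t, f t ^ 2) - 2 / π * (8 * (∫ t, f t * sin t) ^ 2 + 5 * (∫ t, f t * sin (2 * t)) ^ 2) ≤
      ∫ t, g t ^ 2 := by
  have hf : Continuous f := continuous_iff_continuousAt.2 fun t => (hd t).continuousAt
  have hp := pi_pos
  set c : ℤ → ℝ := fun n => (∫ t, f t * sin (n * t)) ^ 2 / π ^ 2 with hc
  have h1 : HasSum c ((∫ t, f t ^ 2) / π) := parseval_sin hf h0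
  have h2 := parseval_pm hg g0 (s := 1) (by norm_num)
  simp only [one_mul] at h2
  have key : ∀ n : ℤ, (n : ℝ) ^ 2 * c n ≤
      ‖fourierCoeffOn neg_pi_lt (fun t => ((g t + g (-t) : ℝ) : ℂ)) n‖ ^ 2 := by
    intro n
    rcases eq_or_ne n 0 with rfl | hn
    · simp
    · have h3 := fourierCoeffOn_of_hasDerivAt neg_pi_lt
        (f := fun t => ((f t - f (-t) : ℝ) : ℂ)) (f' := fun t => ((g t + g (-t) : ℝ) : ℂ)) hn
        (fun t _ => by
          have := (hd t).sub ((hd (-t)).comp t (hasDerivAt_neg t))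
          exact (this.congr_deriv (by ring)).ofReal_comp)
        (Continuous.intervalIntegrable (by fun_prop) _ _)
      have h4 := coeff_odd hf h0 n
      rw [h3] at h4
      have z1 : f π = 0 := h0 _ (Or.inr le_rfl)
      have z2 : f (-π) = 0 := h0 _ (Or.inl (by linarith))
      simp only [neg_neg, z1, z2, sub_self, Complex.ofReal_zero, mul_zero, zero_sub] at h4
      simp only [hc]
      rw [← h4]
      generalize fourierCoeffOn neg_pi_lt (fun t => ((g t + g (-t) : ℝ) : ℂ)) n = d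
      have hn' : (n : ℂ) ≠ 0 := by exact_mod_cast hn
      have hπ : (π : ℂ) ≠ 0 := by exact_mod_cast pi_ne_zero
      have e : 1 / (-2 * (π : ℂ) * Complex.I * n) * -(((π : ℂ) - ((-π : ℝ) : ℂ)) * d) =
          d / (Complex.I * n) := by
        push_cast
        field_simp
        ring
      rw [e, norm_div, norm_mul, Complex.norm_I, one_mul, Complex.norm_intCast, div_pow, sq_abs]
      have : (n : ℝ) ^ 2 ≠ 0 := by positivity
      rw [mul_div_cancel₀ _ this]
  let w : ℤ → ℝ := fun n => if n ∈ ({0, 1, -1, 2, -2} : Finset ℤ) then (9 - (n : ℝ) ^ 2) * c n else 0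
  have h5 : HasSum w (∑ n ∈ ({0, 1, -1, 2, -2} : Finset ℤ), w n) :=
    hasSum_sum_of_ne_finset_zero fun n hn => if_neg hn
  have h6 := hasSum_le (fun n => ?_) ((h1.mul_left 9).sub h5) h2
  · rw [Finset.sum_congr rfl fun n hn => if_pos hn, Finset.sum_insert (by decide),
      Finset.sum_insert (by decide), Finset.sum_insert (by decide),
      Finset.sum_insert (by decide), Finset.sum_singleton] at h6
    simp only [hc] at h6
    push_cast at h6
    rw [sin_neg_coeff, sin_neg_coeff] at h6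
    simp only [one_mul, zero_mul, sin_zero, mul_zero, integral_zero] at h6
    rw [le_div_iff₀ hp] at h6
    refine le_of_eq_of_le ?_ h6
    field_simp
    ring
  · refine le_trans ?_ (key n)
    have c0 : 0 ≤ c n := by positivity
    simp only [w]
    split_ifs with hn
    · linarith
    · simp only [Finset.mem_insert, Finset.mem_singleton, not_or] at hn
      have : (9 : ℤ) ≤ n ^ 2 := by
        rcases le_total n 0 with h | h
        · have : n ≤ -3 := by omega
          nlinarith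
        · have : 3 ≤ n := by omega
          nlinarith
      have : (9 : ℝ) ≤ (n : ℝ) ^ 2 := by exact_mod_cast this
      nlinarith

theorem int_shift {k : ℝ} (hk : 0 < k) (h : ℝ → ℝ) :
    ∫ t, h ((t - π / 2) / k) = k * ∫ x, h x := by
  rw [integral_sub_right_eq_self (fun t => h (t / k)), Measure.integral_comp_div, abs_of_pos hk,
    smul_eq_mul]

theorem shift_zero {k : ℝ} (hk : 0 < k) (h0 : ∀ x, π / 2 ≤ |k * x| → f x = 0) (t : ℝ)
    (ht : t ≤ 0 ∨ π ≤ t) : f ((t - π / 2) / k) = 0 := by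
  refine h0 _ ?_
  rw [mul_div_cancel₀ _ hk.ne']
  rcases ht with h | h
  · linarith [neg_le_abs (t - π / 2)]
  · linarith [le_abs_self (t - π / 2)]

theorem shift_sin {k : ℝ} (hk : 0 < k) (f : ℝ → ℝ) :
    ∫ t, f ((t - π / 2) / k) * sin t = k * ∫ x, f x * cos (k * x) := by
  rw [← int_shift hk]
  refine integral_congr_ae (Eventually.of_forall fun t => ?_)
  simp only [mul_div_cancel₀ _ hk.ne', cos_sub_pi_div_two]

theorem shift_sin2 {k : ℝ} (hk : 0 < k) (f : ℝ → ℝ) :
    ∫ t, f ((t - π / 2) / k) * sin (2 * t) = -(k * ∫ x, f x * sin (2 * (k * x))) := by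
  rw [← int_shift hk, ← integral_neg]
  refine integral_congr_ae (Eventually.of_forall fun t => ?_)
  simp only [mul_div_cancel₀ _ hk.ne']
  rw [show 2 * (t - π / 2) = 2 * t - π by ring, sin_sub_pi]
  ring

theorem bessel {k : ℝ} (hk : 0 < k) (hf : Continuous f) (h0 : ∀ x, π / 2 ≤ |k * x| → f x = 0) :
    2 * k / π * ((∫ x, f x * cos (k * x)) ^ 2 + (∫ x, f x * sin (2 * (k * x))) ^ 2) ≤
      ∫ x, f x ^ 2 := by
  have h := bessel0 (f := fun t => f ((t - π / 2) / k)) (by fun_prop) (shift_zero hk h0)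
  rw [shift_sin hk, shift_sin2 hk, int_shift hk (fun x => f x ^ 2)] at h
  refine le_of_mul_le_mul_left (le_of_eq_of_le ?_ h) hk
  ring

theorem wirt {k : ℝ} (hk : 0 < k) (hd : ∀ x, HasDerivAt f (g x) x) (hg : Continuous g)
    (h0 : ∀ x, π / 2 ≤ |k * x| → f x = 0) (g0 : ∀ x, π / 2 ≤ |k * x| → g x = 0) :
    k ^ 2 * (9 * (∫ x, f x ^ 2) - 2 * k / π * (8 * (∫ x, f x * cos (k * x)) ^ 2 +
      5 * (∫ x, f x * sin (2 * (k * x))) ^ 2)) ≤ ∫ x, g x ^ 2 := by
  have h := wirt0 (f := fun t => f ((t - π / 2) / k)) (g := fun t => g ((t - π / 2) / k) / k)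
    (fun t => by
      have := (hd ((t - π / 2) / k)).comp t (((hasDerivAt_id t).sub_const (π / 2)).div_const k)
      exact this.congr_deriv (by ring))
    (by fun_prop) (shift_zero hk h0) (fun t ht => by rw [shift_zero hk g0 t ht, zero_div])
  rw [shift_sin hk, shift_sin2 hk, int_shift hk (fun x => f x ^ 2),
    int_shift hk (fun x => (g x / k) ^ 2)] at h
  simp only [div_pow, integral_div] at h
  have e : ∫ x, g x ^ 2 = k * (k * ((∫ x, g x ^ 2) / k ^ 2)) := by field_simp
  rw [e]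
  refine le_of_eq_of_le ?_ (mul_le_mul_of_nonneg_left h hk.le)
  ring

end Pool.Agent.Lib.MP_eb4995_an.Cv
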