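import Mathlib
import Pool.Agent.Lib.MP_eb4995_an.Cv.Wirt

/-!
The spectral inequality on a rectangle, for functions of two real variables.
-/

namespace Pool.Agent.Lib.MP_eb4995_an.Cv

open MeasureTheory Set Filter Topology Real

/-- Continuous and zero off the open rectangle. -/
def Nice (k : ℝ) (H : ℝ × ℝ → ℝ) : Prop :=
  Continuous H ∧ ∀ z : ℝ × ℝ, π / 2 ≤ |k * z.1| ∨ π / 2 ≤ |z.2| → H z = 0

variable {k : ℝ} {H u ux uy : ℝ × ℝ → ℝ}

theorem Nice.mul (h : Nice k H) {G : ℝ × ℝ → ℝ} (hG : Continuous G) :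
    Nice k fun z => H z * G z :=
  ⟨h.1.mul hG, fun z hz => by simp only [h.2 z hz, zero_mul]⟩

theorem Nice.sq (h : Nice k H) : Nice k fun z => H z ^ 2 :=
  ⟨h.1.pow 2, fun z hz => by simp [h.2 z hz]⟩

theorem out_Icc (hk : 0 < k) {x : ℝ} (hx : x ∉ Icc (-(π / 2 / k)) (π / 2 / k)) :
    π / 2 ≤ |k * x| := by
  by_contra H
  rw [not_le, abs_mul, abs_of_pos hk, ← lt_div_iff₀' hk, abs_lt] at H
  exact hx ⟨H.1.le, H.2.le⟩

theorem Nice.compact (h : Nice k H) (hk : 0 < k) : HasCompactSupport H := by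
  refine HasCompactSupport.intro ((isCompact_Icc (a := -(π / 2 / k)) (b := π / 2 / k)).prod
    (isCompact_Icc (a := -(π / 2 / 1)) (b := π / 2 / 1))) fun z hz => h.2 z ?_
  rw [mem_prod, not_and_or] at hz
  rcases hz with hz | hz
  · exact Or.inl (out_Icc hk hz)
  · exact Or.inr (by simpa using out_Icc one_pos hz)

theorem Nice.integrable (h : Nice k H) (hk : 0 < k) : Integrable H (volume.prod volume) :=
  h.1.integrable_of_hasCompactSupport (h.compact hk)

theorem Nice.fubini (h : Nice k H) (hk : 0 < k) : ∫ z, H z = ∫ y, ∫ x, H (x, y) :=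
  integral_prod_symm H (h.integrable hk)

theorem Nice.cont (h : Nice k H) (hk : 0 < k) : Continuous fun y => ∫ x, H (x, y) := by
  rw [← continuousOn_univ]
  refine continuousOn_integral_of_compact_support (f := fun y x => H (x, y))
    (isCompact_Icc (a := -(π / 2 / k)) (b := π / 2 / k))
    (h.1.comp continuous_swap).continuousOn fun y x _ hx => h.2 _ (Or.inl (out_Icc hk hx))

theorem Nice.zero (h : Nice k H) (y : ℝ) (hy : π / 2 ≤ |1 * y|) : ∫ x, H (x, y) = 0 := by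
  rw [one_mul] at hy
  have : ∀ x, H (x, y) = 0 := fun x => h.2 _ (Or.inr hy)
  simp [this]

theorem Nice.slice (h : Nice k H) (y : ℝ) : Continuous fun x => H (x, y) :=
  h.1.comp (by fun_prop)

theorem Nice.int_slice (h : Nice k H) (hk : 0 < k) (y : ℝ) : Integrable fun x => H (x, y) :=
  (h.slice y).integrable_of_hasCompactSupport (HasCompactSupport.intro
    (isCompact_Icc (a := -(π / 2 / k)) (b := π / 2 / k))
    fun _ hx => h.2 _ (Or.inl (out_Icc hk hx)))

theorem Nice.int_sq (h : Nice k H) (hk : 0 < k) : Integrable fun y => (∫ x, H (x, y)) ^ 2 :=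
  integrable_of_zero ((h.cont hk).pow 2) (R := π / 2) fun y hy => by
    rw [h.zero y (by rwa [one_mul])]; simp

theorem Nice.int_one (h : Nice k H) (hk : 0 < k) : Integrable fun y => ∫ x, H (x, y) :=
  (h.integrable hk).integral_prod_right

theorem deriv_slice (hk : 0 < k) (hu : Nice k u) (hy : Nice k uy)
    (hd : ∀ x y, HasDerivAt (fun y => u (x, y)) (uy (x, y)) y) (y : ℝ) :
    HasDerivAt (fun y => ∫ x, u (x, y)) (∫ x, uy (x, y)) y := by
  obtain ⟨M, hM⟩ := hy.1.bounded_above_of_compact_support (hy.compact hk)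
  refine (hasDerivAt_integral_of_dominated_loc_of_deriv_le (F := fun y x => u (x, y))
    (F' := fun y x => uy (x, y)) (s := univ) univ_mem
    (bound := (Icc (-(π / 2 / k)) (π / 2 / k)).indicator fun _ => M)
    (Eventually.of_forall fun y => (hu.slice y).aestronglyMeasurable) (hu.int_slice hk y)
    (hy.slice y).aestronglyMeasurable (Eventually.of_forall fun x y _ => ?_) ?_
    (Eventually.of_forall fun x y _ => hd x y)).2
  · by_cases hx : x ∈ Icc (-(π / 2 / k)) (π / 2 / k)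
    · rw [indicator_of_mem hx]; exact hM _
    · rw [indicator_of_notMem hx, hy.2 _ (Or.inl (out_Icc hk hx)), norm_zero]
  · exact (integrableOn_const (by simp)).integrable_indicator measurableSet_Icc

theorem fub_mode (hk : 0 < k) (hu : Nice k u) {a b : ℝ → ℝ} (ha : Continuous a)
    (hb : Continuous b) :
    ∫ y, (∫ x, u (x, y) * a x) * b y = ∫ z : ℝ × ℝ, u z * (a z.1 * b z.2) := by
  rw [(hu.mul (G := fun z => a z.1 * b z.2) (by fun_prop)).fubini hk]
  refine integral_congr_ae (Eventually.of_forall fun y => ?_)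
  dsimp only
  rw [← integral_mul_const]
  simp only [mul_assoc]

theorem bessel2 (hk : 0 < k) (hu : Nice k u) :
    2 * k / π * ((∫ y, (∫ x, u (x, y) * cos (k * x)) ^ 2) +
      ∫ y, (∫ x, u (x, y) * sin (2 * (k * x))) ^ 2) ≤ ∫ z, u z ^ 2 := by
  have i1 := (hu.mul (G := fun z => cos (k * z.1)) (by fun_prop)).int_sq hk
  have i2 := (hu.mul (G := fun z => sin (2 * (k * z.1))) (by fun_prop)).int_sq hk
  rw [hu.sq.fubini hk, ← integral_add i1 i2, ← integral_const_mul]
  exact integral_mono ((i1.add i2).const_mul _) (hu.sq.int_one hk) fun y =>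
    bessel hk (hu.slice y) fun x hx => hu.2 _ (Or.inl hx)

theorem wirt2 (hk : 0 < k) (hu : Nice k u) (hx : Nice k ux)
    (hd : ∀ x y, HasDerivAt (fun x => u (x, y)) (ux (x, y)) x) :
    k ^ 2 * (9 * (∫ z, u z ^ 2) - 2 * k / π * (8 * (∫ y, (∫ x, u (x, y) * cos (k * x)) ^ 2) +
      5 * ∫ y, (∫ x, u (x, y) * sin (2 * (k * x))) ^ 2)) ≤ ∫ z, ux z ^ 2 := by
  have i0 := hu.sq.int_one hk
  have i1 := (hu.mul (G := fun z => cos (k * z.1)) (by fun_prop)).int_sq hk
  have i2 := (hu.mul (G := fun z => sin (2 * (k * z.1))) (by fun_prop)).int_sq hk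
  have j := ((i1.const_mul 8).add (i2.const_mul 5)).const_mul (2 * k / π)
  simp only [Pi.add_apply] at j
  rw [hu.sq.fubini hk, hx.sq.fubini hk, ← integral_const_mul 8, ← integral_const_mul 5,
    ← integral_add (i1.const_mul 8) (i2.const_mul 5), ← integral_const_mul 9,
    ← integral_const_mul (2 * k / π), ← integral_sub (i0.const_mul 9) j, ← integral_const_mul]
  exact integral_mono (((i0.const_mul 9).sub j).const_mul _) (hx.sq.int_one hk) fun y =>
    wirt hk (fun x => hd x y) (hx.slice y) (fun x h => hu.2 _ (Or.inl h))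
      fun x h => hx.2 _ (Or.inl h)

theorem mode_y (hk : 0 < k) (hu : Nice k u) (hy : Nice k uy)
    (hd : ∀ x y, HasDerivAt (fun y => u (x, y)) (uy (x, y)) y) {a : ℝ → ℝ} (ha : Continuous a) :
    2 / π * ((∫ z : ℝ × ℝ, u z * (a z.1 * cos z.2)) ^ 2 +
        (∫ z : ℝ × ℝ, u z * (a z.1 * sin (2 * z.2))) ^ 2) ≤ ∫ y, (∫ x, u (x, y) * a x) ^ 2 ∧
      9 * (∫ y, (∫ x, u (x, y) * a x) ^ 2) -
        2 / π * (8 * (∫ z : ℝ × ℝ, u z * (a z.1 * cos z.2)) ^ 2 +
          5 * (∫ z : ℝ × ℝ, u z * (a z.1 * sin (2 * z.2))) ^ 2) ≤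
        ∫ y, (∫ x, uy (x, y) * a x) ^ 2 := by
  have h1 := hu.mul (G := fun z => a z.1) (by fun_prop)
  have h2 := hy.mul (G := fun z => a z.1) (by fun_prop)
  have hb := bessel one_pos (h1.cont hk) h1.zero
  have hw := wirt one_pos (deriv_slice hk h1 h2 fun x y => (hd x y).mul_const (a x))
    (h2.cont hk) h1.zero h2.zero
  simp only [one_mul, mul_one, one_pow] at hb hw
  rw [fub_mode hk hu ha continuous_cos,
    fub_mode hk hu ha (b := fun y => sin (2 * y)) (by fun_prop)] at hb hw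
  exact ⟨hb, hw⟩

theorem master2 (hk : 0 < k) (hk2 : 4 / 5 ≤ k ^ 2) (hu : Nice k u) (hx : Nice k ux)
    (hy : Nice k uy) (hdx : ∀ x y, HasDerivAt (fun x => u (x, y)) (ux (x, y)) x)
    (hdy : ∀ x y, HasDerivAt (fun y => u (x, y)) (uy (x, y)) y) :
    7 * (∫ z, u z ^ 2) - 4 * k / π ^ 2 *
      ((6 - k ^ 2) * (∫ z : ℝ × ℝ, u z * (cos (k * z.1) * cos z.2)) ^ 2 +
        (6 - 4 * k ^ 2) * (∫ z : ℝ × ℝ, u z * (sin (2 * (k * z.1)) * cos z.2)) ^ 2 +
        (3 - k ^ 2) * (∫ z : ℝ × ℝ, u z * (cos (k * z.1) * sin (2 * z.2))) ^ 2) ≤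
      (∫ z, ux z ^ 2) + ∫ z, uy z ^ 2 := by
  have h0 := bessel2 hk hu
  have hA := wirt2 hk hu hx hdx
  have hB := bessel2 hk hy
  obtain ⟨b1, w1⟩ := mode_y hk hu hy hdy (a := fun x => cos (k * x)) (by fun_prop)
  obtain ⟨b2, w2⟩ := mode_y hk hu hy hdy (a := fun x => sin (2 * (k * x))) (by fun_prop)
  generalize (∫ z : ℝ × ℝ, u z * (cos (k * z.1) * cos z.2)) = c11 at *
  generalize (∫ z : ℝ × ℝ, u z * (sin (2 * (k * z.1)) * cos z.2)) = c21 at *
  generalize (∫ z : ℝ × ℝ, u z * (cos (k * z.1) * sin (2 * z.2))) = c12 at *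
  generalize (∫ z : ℝ × ℝ, u z * (sin (2 * (k * z.1)) * sin (2 * z.2))) = c22 at *
  generalize (∫ y, (∫ x, u (x, y) * cos (k * x)) ^ 2) = P1 at *
  generalize (∫ y, (∫ x, u (x, y) * sin (2 * (k * x))) ^ 2) = P2 at *
  generalize (∫ y, (∫ x, uy (x, y) * cos (k * x)) ^ 2) = Q1 at *
  generalize (∫ y, (∫ x, uy (x, y) * sin (2 * (k * x))) ^ 2) = Q2 at *
  generalize (∫ z, u z ^ 2) = n at *
  generalize (∫ z, ux z ^ 2) = A at *
  generalize (∫ z, uy z ^ 2) = B at *
  have hp := pi_pos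
  have e : 4 * k / π ^ 2 = 2 * k / π * (2 / π) := by field_simp; ring
  rw [e]
  have hκ : 0 < 2 * k / π := by positivity
  have hι : 0 < 2 / π := by positivity
  generalize 2 * k / π = κ at *
  generalize 2 / π = ι at *
  generalize k ^ 2 = K at *
  have t1 := mul_le_mul_of_nonneg_left b1 hκ.le
  have t2 := mul_le_mul_of_nonneg_left b2 hκ.le
  have t3 := mul_le_mul_of_nonneg_left w1 hκ.le
  have t4 := mul_le_mul_of_nonneg_left w2 hκ.le
  have s22 : 0 ≤ κ * (ι * c22 ^ 2) := by positivity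
  have m1 := mul_le_mul_of_nonneg_left h0 (show 0 ≤ 9 * K - 7 by linarith)
  have m2 := mul_le_mul_of_nonneg_left t1 (show 0 ≤ K + 2 by linarith)
  have m3 := mul_le_mul_of_nonneg_left t2 (show 0 ≤ 4 * K + 2 by linarith)
  have m4 := mul_nonneg (show 0 ≤ 4 * K - 3 by linarith) s22
  linear_combination hA + hB + t3 + t4 + m1 + m2 + m3 + m4

end Pool.Agent.Lib.MP_eb4995_an.Cv
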