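import Mathlib
import Pool.Agent.Lib.MP_eb4995_an.Cv.Plane

/-!
The diagonal combination of the two second modes of a rectangle has a larger `L^q` mass than the
modes, by an amount of order `q - 2`.
-/

namespace Pool.Agent.Lib.MP_eb4995_an.Cv

open MeasureTheory Set Filter Topology Real

/-- The weight that appears after the substitution `s = sin (k x)`. -/
noncomputable def wt (q s : ℝ) : ℝ := max (1 - s ^ 2) 0 ^ ((q - 1) / 2)

/-- The side of the rectangle. -/
def side (k : ℝ) : Set ℝ := {x | |k * x| < π / 2}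

variable {k q η : ℝ}

theorem isOpen_side (k : ℝ) : IsOpen (side k) := isOpen_lt (by fun_prop) continuous_const

theorem side_sub (hk : 0 < k) : side k ⊆ Icc (-(π / 2 / k)) (π / 2 / k) := fun _ hx =>
  by_contra fun H => absurd (out_Icc hk H) (not_le.2 hx)

theorem cos_pos_side {x : ℝ} (hx : x ∈ side k) : 0 < cos (k * x) :=
  cos_pos_of_mem_Ioo (abs_lt.1 hx)

theorem wt_zero (hq : 1 < q) {s : ℝ} (hs : 1 ≤ |s|) : wt q s = 0 := by
  unfold wt
  rw [max_eq_right (by nlinarith [sq_abs s]), zero_rpow (by linarith)]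

theorem continuous_wt (hq : 1 < q) : Continuous (wt q) :=
  Continuous.rpow_const (by fun_prop) fun _ => Or.inr (by linarith)

theorem subst1 (hk : 0 < k) (hq : 1 < q) (f : ℝ → ℝ) :
    ∫ s, wt q s * f s = k * ∫ x in side k, cos (k * x) ^ q * f (sin (k * x)) := by
  have h1 : (fun x => sin (k * x)) '' side k = Ioo (-1) 1 := by
    ext s
    constructor
    · rintro ⟨x, hx, rfl⟩
      have := cos_pos_side hx
      exact abs_lt.1 ((sq_lt_one_iff_abs_lt_one _).1 (by nlinarith [sin_sq_add_cos_sq (k * x)]))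
    · intro hs
      refine ⟨arcsin s / k, ?_, ?_⟩
      · change |k * (arcsin s / k)| < π / 2
        rw [mul_div_cancel₀ _ hk.ne', abs_lt]
        exact ⟨neg_pi_div_two_lt_arcsin.2 hs.1, arcsin_lt_pi_div_two.2 hs.2⟩
      · dsimp only
        rw [mul_div_cancel₀ _ hk.ne', sin_arcsin hs.1.le hs.2.le]
  have h2 := integral_image_eq_integral_abs_deriv_smul (isOpen_side k).measurableSet
    (f := fun x => sin (k * x)) (f' := fun x => cos (k * x) * k)
    (fun x _ => (by simpa using ((hasDerivAt_id x).const_mul k).sin :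
      HasDerivAt (fun x => sin (k * x)) (cos (k * x) * k) x).hasDerivWithinAt)
    (fun x hx y hy h => mul_left_cancel₀ hk.ne' (injOn_sin (Ioo_subset_Icc_self (abs_lt.1 hx))
      (Ioo_subset_Icc_self (abs_lt.1 hy)) h)) fun s => wt q s * f s
  rw [h1, setIntegral_eq_integral_of_forall_compl_eq_zero fun s hs => by
    rw [wt_zero hq (not_lt.1 fun H => hs (abs_lt.1 H)), zero_mul]] at h2
  rw [h2, ← integral_const_mul]
  refine setIntegral_congr_fun (isOpen_side k).measurableSet fun x hx => ?_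
  have hc := cos_pos_side hx
  have e1 : wt q (sin (k * x)) = cos (k * x) ^ (q - 1) := by
    unfold wt
    rw [← cos_sq', max_eq_left (sq_nonneg _), ← rpow_two, ← rpow_mul hc.le]
    congr 1
    ring
  rw [e1, abs_of_pos (by positivity), smul_eq_mul, rpow_sub_one hc.ne']
  field_simp

theorem intOn_rect (hk : 0 < k) {f : ℝ × ℝ → ℝ} (hf : Continuous f) :
    IntegrableOn f (side k ×ˢ side 1) (volume.prod volume) :=
  (hf.continuousOn.integrableOn_compact (isCompact_Icc.prod isCompact_Icc)).mono_set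
    (prod_mono (side_sub hk) (side_sub one_pos))

theorem int_wt (hq : 1 < q) {f : ℝ × ℝ → ℝ} (hf : Continuous f) :
    Integrable fun z : ℝ × ℝ => wt q z.1 * wt q z.2 * f z := by
  have := continuous_wt hq
  refine Continuous.integrable_of_hasCompactSupport (by fun_prop) (HasCompactSupport.intro
    ((isCompact_Icc (a := -1) (b := 1)).prod (isCompact_Icc (a := -1) (b := 1))) fun z hz => ?_)
  rw [mem_prod, not_and_or] at hz
  rcases hz with hz | hz
  · rw [wt_zero hq (s := z.1) (le_of_not_ge fun H => hz (abs_le.1 H)), zero_mul, zero_mul]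
  · rw [wt_zero hq (s := z.2) (le_of_not_ge fun H => hz (abs_le.1 H)), mul_zero, zero_mul]

theorem cont_pow {X : Type} [TopologicalSpace X] (hq : 1 < q) {f : X → ℝ} (hf : Continuous f) :
    Continuous fun x => |f x| ^ q :=
  hf.abs.rpow_const fun _ => Or.inr (by linarith)

/-- The weighted mass. -/
noncomputable def wmass (q : ℝ) (F : ℝ × ℝ → ℝ) : ℝ := ∫ z : ℝ × ℝ, wt q z.1 * wt q z.2 * |F z| ^ q

theorem subst2 (hk : 0 < k) (hq : 1 < q) {F : ℝ × ℝ → ℝ} (hF : Continuous F) :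
    k * ∫ z in side k ×ˢ side 1, |cos (k * z.1) * cos z.2 * F (sin (k * z.1), sin z.2)| ^ q =
      wmass q F := by
  have h1 := setIntegral_prod _ (intOn_rect hk (cont_pow hq
    (f := fun z : ℝ × ℝ => cos (k * z.1) * cos z.2 * F (sin (k * z.1), sin z.2)) (by fun_prop)))
  have h2 := integral_prod _ (show Integrable _ (volume.prod volume) from
    int_wt hq (cont_pow hq hF))
  refine (congrArg (k * ·) h1).trans (Eq.trans ?_ h2.symm)
  simp only [mul_assoc (wt q _), integral_const_mul]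
  rw [subst1 hk hq]
  congr 1
  refine setIntegral_congr_fun (isOpen_side k).measurableSet fun x hx => ?_
  rw [subst1 one_pos hq, one_mul, ← integral_const_mul]
  refine setIntegral_congr_fun (isOpen_side 1).measurableSet fun y hy => ?_
  have h3 := cos_pos_side hx
  have h4 := cos_pos_side hy
  simp only [one_mul] at h4 ⊢
  rw [abs_mul, abs_of_pos (by positivity), mul_rpow (by positivity) (abs_nonneg _),
    mul_rpow h3.le h4.le, mul_assoc]

theorem mp_invol (f : ℝ × ℝ →ₗ[ℝ] ℝ × ℝ) (h : ∀ x, f (f x) = x) : MeasurePreserving f := by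
  have h1 : LinearMap.det f * LinearMap.det f = 1 := by
    rw [← map_mul, show f * f = 1 from LinearMap.ext h, map_one]
  have h2 : |LinearMap.det f| = 1 := by
    rcases mul_self_eq_one_iff.1 h1 with h | h <;> simp [h]
  refine ⟨f.continuous_of_finiteDimensional.measurable, ?_⟩
  rw [Measure.map_linearMap_addHaar_eq_smul_addHaar volume (fun H => by simp [H] at h2), abs_inv,
    h2]
  simp

theorem int_invol (f : ℝ × ℝ →ₗ[ℝ] ℝ × ℝ) (h : ∀ x, f (f x) = x) {g : ℝ × ℝ → ℝ}
    (hg : Continuous g) : ∫ z, g (f z) = ∫ z, g z := by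
  rw [← integral_map (mp_invol f h).measurable.aemeasurable hg.aestronglyMeasurable,
    (mp_invol f h).map_eq]

theorem maj0 {p r A B A' B' : ℝ} (hp : 1 ≤ p) (hr : 0 < r) (a0 : 0 ≤ A') (hle : A' ≤ B')
    (hs : A + B = A' + B') (hm : A' * B' ≤ A * B) :
    A ^ p + B ^ p ≤ A' ^ p + B' ^ p ∧
      max (1 - A') 0 ^ r * max (1 - B') 0 ^ r ≤ max (1 - A) 0 ^ r * max (1 - B) 0 ^ r := by
  have hB : B = A' + B' - A := by linarith
  have h1 : 0 ≤ (A - A') * (B' - A) := by rw [hB] at hm; nlinarith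
  have h2 : A' ≤ A := by
    by_contra H
    nlinarith [not_le.1 H]
  have h3 : A ≤ B' := by
    by_contra H
    nlinarith [not_le.1 H]
  constructor
  · obtain ⟨a, b, ha, hb, hab, e⟩ : A ∈ segment ℝ A' B' := by
      rw [segment_eq_Icc hle]; exact ⟨h2, h3⟩
    have c1 := (convexOn_rpow hp).2 (mem_Ici.2 a0) (mem_Ici.2 (a0.trans hle)) ha hb hab
    have c2 := (convexOn_rpow hp).2 (mem_Ici.2 a0) (mem_Ici.2 (a0.trans hle)) hb ha
      (by linarith)
    simp only [smul_eq_mul] at c1 c2 e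
    have e' : b * A' + a * B' = B := by
      rw [hB, ← e, show b = 1 - a by linarith]; ring
    rw [e] at c1
    rw [e'] at c2
    have : a * A' ^ p + b * B' ^ p + (b * A' ^ p + a * B' ^ p) = A' ^ p + B' ^ p := by
      rw [show b = 1 - a by linarith]; ring
    linarith
  · rcases le_total 1 B' with h | h
    · rw [max_eq_right (sub_nonpos.2 h), zero_rpow hr.ne', mul_zero]
      positivity
    · rw [max_eq_left (by linarith), max_eq_left (by linarith), max_eq_left (by linarith),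
        max_eq_left (by linarith), ← mul_rpow (by linarith) (by linarith),
        ← mul_rpow (by linarith) (by linarith)]
      exact rpow_le_rpow (mul_nonneg (by linarith) (by linarith)) (by nlinarith) hr.le

theorem maj (hq : 2 ≤ q) {s t s' t' : ℝ} (hs : s ^ 2 + t ^ 2 = s' ^ 2 + t' ^ 2)
    (hm : s' ^ 2 * t' ^ 2 ≤ s ^ 2 * t ^ 2) :
    |s| ^ q + |t| ^ q ≤ |s'| ^ q + |t'| ^ q ∧ wt q s' * wt q t' ≤ wt q s * wt q t := by
  have e : ∀ x : ℝ, |x| ^ q = (x ^ 2) ^ (q / 2) := fun x => by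
    rw [← sq_abs, ← rpow_two, ← rpow_mul (abs_nonneg x)]
    congr 1
    ring
  simp only [e, wt]
  rcases le_total (s' ^ 2) (t' ^ 2) with h | h
  · exact maj0 (by linarith) (by linarith) (sq_nonneg _) h hs hm
  · have := maj0 (p := q / 2) (r := (q - 1) / 2) (A := s ^ 2) (B := t ^ 2) (by linarith)
      (by linarith) (sq_nonneg _) h (by linarith) (by linarith)
    exact ⟨by linarith [this.1], by linarith [this.2]⟩

theorem pt_nonneg (hq : 2 ≤ q) {s t s' t' : ℝ} (hs : s ^ 2 + t ^ 2 = s' ^ 2 + t' ^ 2) :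
    0 ≤ (wt q s * wt q t - wt q s' * wt q t') * (|s'| ^ q + |t'| ^ q - |s| ^ q - |t| ^ q) := by
  rcases le_total (s' ^ 2 * t' ^ 2) (s ^ 2 * t ^ 2) with h | h
  · have := maj hq hs h
    exact mul_nonneg (by linarith [this.2]) (by linarith [this.1])
  · have := maj hq hs.symm h
    exact mul_nonneg_of_nonpos_of_nonpos (by linarith [this.2]) (by linarith [this.1])

theorem pow_lower (h0 : 0 < η) {a : ℝ} (ha : 0 ≤ a) : a ^ 2 + η * (a * (a - 1)) ≤ a ^ (2 + η) := by
  rcases ha.eq_or_lt with rfl | ha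
  · rw [zero_rpow (by linarith)]; simp
  rw [rpow_add ha, rpow_two]
  have a2 : 1 + η * log a ≤ a ^ η := by
    rw [rpow_def_of_pos ha]
    linarith [add_one_le_exp (log a * η)]
  have a3 : a - 1 ≤ a * log a := self_sub_one_le_mul_log ha.le
  have b1 := mul_le_mul_of_nonneg_left a2 (sq_nonneg a)
  have b2 := mul_le_mul_of_nonneg_left a3 (mul_nonneg h0.le ha.le)
  nlinarith

theorem pt_box (h0 : 0 < η) (h1 : η ≤ 1) {h s t : ℝ} (hh : h ^ 2 = 1 / 2) (hp : 0 < h)
    (hs : s ∈ Ioo (4 / 5 : ℝ) (17 / 20)) (ht : t ∈ Ioo (4 / 5 : ℝ) (17 / 20)) :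
    η / 200 ≤ (wt (2 + η) s * wt (2 + η) t - wt (2 + η) (h * (s + t)) * wt (2 + η) (h * (s - t))) *
      (|h * (s + t)| ^ (2 + η) + |h * (s - t)| ^ (2 + η) - |s| ^ (2 + η) - |t| ^ (2 + η)) := by
  obtain ⟨s0, s1⟩ := hs
  obtain ⟨t0, t1⟩ := ht
  have h7 : 7 / 10 ≤ h := by nlinarith
  have h8 : h ≤ 4 / 5 := by nlinarith
  have a1 : 28 / 25 ≤ |h * (s + t)| := le_trans (by nlinarith) (le_abs_self _)
  have a2 : |h * (s - t)| ≤ 1 / 25 := abs_le.2 ⟨by nlinarith, by nlinarith⟩
  have w : ∀ x : ℝ, 4 / 5 < x → x < 17 / 20 → 1 / 4 ≤ wt (2 + η) x ∧ |x| ^ (2 + η) ≤ x ^ 2 := by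
    intro x x0 x1
    have b1 : 1 / 4 ≤ 1 - x ^ 2 := by nlinarith
    constructor
    · unfold wt
      rw [max_eq_left (by linarith)]
      refine b1.trans ?_
      have := rpow_le_rpow_of_exponent_ge (x := 1 - x ^ 2) (by linarith) (by nlinarith)
        (show (2 + η - 1) / 2 ≤ 1 by linarith)
      rwa [rpow_one] at this
    · rw [abs_of_pos (by linarith)]
      have := rpow_le_rpow_of_exponent_ge (x := x) (by linarith) (by linarith)
        (show 2 ≤ 2 + η by linarith)
      rwa [rpow_two] at this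
  obtain ⟨w1, w2⟩ := w s s0 s1
  obtain ⟨w3, w4⟩ := w t t0 t1
  have p1 := pow_lower h0 (abs_nonneg (h * (s + t)))
  have p2 := pow_lower h0 (abs_nonneg (h * (s - t)))
  rw [sq_abs] at p1 p2
  have e : (h * (s + t)) ^ 2 + (h * (s - t)) ^ 2 = s ^ 2 + t ^ 2 := by
    rw [mul_pow, mul_pow, hh]; ring
  rw [wt_zero (by linarith) (le_trans (by norm_num) a1), zero_mul, sub_zero]
  have b0 := abs_nonneg (h * (s - t))
  generalize |h * (s + t)| = a at *
  generalize |h * (s - t)| = b at *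
  have c1 : 1 / 8 ≤ a * (a - 1) := by nlinarith
  have c2 : -(1 / 25) ≤ b * (b - 1) := by nlinarith
  have c3 := mul_le_mul_of_nonneg_left c1 h0.le
  have c4 := mul_le_mul_of_nonneg_left c2 h0.le
  have d1 : 1 / 4 * (1 / 4) ≤ wt (2 + η) s * wt (2 + η) t :=
    mul_le_mul w1 w3 (by norm_num) (by linarith)
  have d2 : 2 / 25 * η ≤ a ^ (2 + η) + b ^ (2 + η) - |s| ^ (2 + η) - |t| ^ (2 + η) := by linarith
  exact le_trans (by linarith) (mul_le_mul d1 d2 (by positivity) (by linarith))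

theorem wt_neg (q s : ℝ) : wt q (-s) = wt q s := by simp [wt]

theorem wmass_swap (hq : 1 < q) : wmass q (fun z => z.1) = wmass q fun z => z.2 := by
  unfold wmass
  have := continuous_wt hq
  have c := cont_pow hq (continuous_snd (X := ℝ) (Y := ℝ))
  rw [← int_invol (LinearEquiv.prodComm ℝ ℝ ℝ : ℝ × ℝ →ₗ[ℝ] ℝ × ℝ) (fun _ => rfl)
    (g := fun z => wt q z.1 * wt q z.2 * |z.2| ^ q) (by fun_prop)]
  refine integral_congr_ae (Eventually.of_forall fun z => ?_)
  simp [mul_comm (wt q z.1)]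

theorem wmass_flip (hq : 1 < q) (h : ℝ) :
    wmass q (fun z => h * (z.1 - z.2)) = wmass q fun z => h * (z.1 + z.2) := by
  unfold wmass
  have := continuous_wt hq
  have c := cont_pow hq (f := fun z : ℝ × ℝ => h * (z.1 + z.2)) (by fun_prop)
  rw [← int_invol ((LinearMap.fst ℝ ℝ ℝ).prod (-LinearMap.snd ℝ ℝ ℝ)) (fun _ => by simp)
    (g := fun z => wt q z.1 * wt q z.2 * |h * (z.1 + z.2)| ^ q) (by fun_prop)]
  refine integral_congr_ae (Eventually.of_forall fun z => ?_)
  simp [wt_neg, sub_eq_add_neg]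

theorem wmass_mul (c : ℝ) (F : ℝ × ℝ → ℝ) : wmass q (fun z => c * F z) = |c| ^ q * wmass q F := by
  unfold wmass
  rw [← integral_const_mul]
  refine integral_congr_ae (Eventually.of_forall fun z => ?_)
  dsimp only
  rw [abs_mul, mul_rpow (abs_nonneg _) (abs_nonneg _)]
  ring

theorem gap {h : ℝ} (hh : h ^ 2 = 1 / 2) (hp : 0 < h) : ∃ c : ℝ, 0 < c ∧ ∀ η : ℝ, 0 < η → η ≤ 1 →
    wmass (2 + η) (fun z => z.1) + c * η ≤ wmass (2 + η) fun z => h * (z.1 + z.2) := by
  let B : Set (ℝ × ℝ) := Ioo (4 / 5) (17 / 20) ×ˢ Ioo (4 / 5) (17 / 20)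
  have Bo : IsOpen B := isOpen_Ioo.prod isOpen_Ioo
  have Bf : volume B ≠ ⊤ :=
    ((Metric.isBounded_Ioo _ _).prod (Metric.isBounded_Ioo _ _)).measure_lt_top.ne
  have Bp : 0 < volume.real B := ENNReal.toReal_pos
    (Bo.measure_pos volume ⟨(21 / 25, 21 / 25), by constructor <;> constructor <;> norm_num⟩).ne' Bf
  refine ⟨volume.real B / 800, by positivity, fun η h0 h1 => ?_⟩
  have hq : 1 < 2 + η := by linarith
  let ρ : ℝ × ℝ →ₗ[ℝ] ℝ × ℝ := (h • (LinearMap.fst ℝ ℝ ℝ + LinearMap.snd ℝ ℝ ℝ)).prod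
    (h • (LinearMap.fst ℝ ℝ ℝ - LinearMap.snd ℝ ℝ ℝ))
  have ρ1 : ∀ z, (ρ z).1 = h * (z.1 + z.2) := fun z => rfl
  have ρ2 : ∀ z, (ρ z).2 = h * (z.1 - z.2) := fun z => rfl
  have e1 : ∀ s t : ℝ, h * (h * (s + t) + h * (s - t)) = s := fun s t => by
    linear_combination 2 * s * hh
  have e2 : ∀ s t : ℝ, h * (h * (s + t) - h * (s - t)) = t := fun s t => by
    linear_combination 2 * t * hh
  have ρρ : ∀ z, ρ (ρ z) = z := fun z => Prod.ext (e1 _ _) (e2 _ _)
  have c1 := cont_pow hq (f := fun z : ℝ × ℝ => h * (z.1 + z.2)) (by fun_prop)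
  have c2 := cont_pow hq (f := fun z : ℝ × ℝ => h * (z.1 - z.2)) (by fun_prop)
  have c3 := cont_pow hq (continuous_fst (X := ℝ) (Y := ℝ))
  have c4 := cont_pow hq (continuous_snd (X := ℝ) (Y := ℝ))
  have cw := continuous_wt hq
  let Φ : ℝ × ℝ → ℝ := fun z => wt (2 + η) z.1 * wt (2 + η) z.2 *
    (|h * (z.1 + z.2)| ^ (2 + η) + |h * (z.1 - z.2)| ^ (2 + η) - |z.1| ^ (2 + η) - |z.2| ^ (2 + η))
  have iΦ : Integrable Φ := int_wt hq (((c1.add c2).sub c3).sub c4)
  have iρ : Integrable fun z => Φ (ρ z) := (mp_invol ρ ρρ).integrable_comp_of_integrable iΦ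
  have s1 : ∫ z, Φ (ρ z) = ∫ z, Φ z := int_invol ρ ρρ
    (((cw.comp continuous_fst).mul (cw.comp continuous_snd)).mul (((c1.add c2).sub c3).sub c4))
  have s2 : ∫ z, Φ z = 2 * wmass (2 + η) (fun z => h * (z.1 + z.2)) -
      2 * wmass (2 + η) fun z => z.1 := by
    have j1 := int_wt hq c1
    have j2 := int_wt hq c2
    have j3 := int_wt hq c3
    have j4 := int_wt hq c4
    have j5 := j1.add j2
    have j6 := j5.sub j3
    have f1 := wmass_flip hq h
    have f2 := wmass_swap hq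
    have k1 := integral_add j1 j2
    have k2 := integral_sub j5 j3
    have k3 := integral_sub j6 j4
    simp only [Pi.add_apply, Pi.sub_apply] at k2 k3
    unfold wmass at f1 f2 ⊢
    simp only [Φ, mul_add (wt _ _ * _), mul_sub (wt _ _ * _)]
    linarith
  have s3 : ∫ z, B.indicator (fun _ => η / 200) z ≤ ∫ z, (Φ z + Φ (ρ z)) := by
    refine integral_mono ((integrableOn_const Bf).integrable_indicator Bo.measurableSet)
      (iΦ.add iρ) fun z => ?_
    have e : Φ z + Φ (ρ z) = (wt (2 + η) z.1 * wt (2 + η) z.2 -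
        wt (2 + η) (h * (z.1 + z.2)) * wt (2 + η) (h * (z.1 - z.2))) *
        (|h * (z.1 + z.2)| ^ (2 + η) + |h * (z.1 - z.2)| ^ (2 + η) - |z.1| ^ (2 + η) -
          |z.2| ^ (2 + η)) := by
      simp only [Φ, ρ1, ρ2, e1, e2]
      ring
    dsimp only
    rw [e]
    by_cases hz : z ∈ B
    · rw [indicator_of_mem hz]
      exact pt_box h0 h1 hh hp hz.1 hz.2
    · rw [indicator_of_notMem hz]
      exact pt_nonneg (by linarith) (by rw [mul_pow, mul_pow, hh]; ring)
  rw [integral_indicator_const _ Bo.measurableSet, integral_add iΦ iρ, s1, s2, smul_eq_mul] at s3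
  linarith

end Pool.Agent.Lib.MP_eb4995_an.Cv
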