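import Mathlib
import Pool.Agent.Lib.MP_eb4995_an.Main

/-!
Smooth functions that vanish on the boundary belong to the Sobolev space; support of Sobolev
functions; dependence of the `L^q` mass on `q` near `2`.
-/

set_option linter.unusedSectionVars false

namespace Pool.Agent.Lib.MP_eb4995_an.Cv

open MeasureTheory Set Filter Topology Metric Module
open scoped ContDiff ENNReal NNReal

variable {E : Type} [NormedAddCommGroup E] [InnerProductSpace ℝ E] [CompleteSpace E]
  [MeasurableSpace E] [BorelSpace E] [FiniteDimensional ℝ E]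
  {μ : Measure E} [μ.IsAddHaarMeasure] {Ω : Set E} {q : ℝ}

theorem exists_bd (hb : Bornology.IsBounded Ω) {F : Type} [NormedAddCommGroup F] {f : E → F}
    (hf : Continuous f) : ∃ M, 0 ≤ M ∧ ∀ x ∈ Ω, ‖f x‖ ≤ M := by
  obtain ⟨M, hM⟩ := hb.isCompact_closure.exists_bound_of_continuousOn hf.continuousOn
  exact ⟨max M 0, le_max_right _ _, fun x hx => (hM x (subset_closure hx)).trans (le_max_left _ _)⟩

theorem memLp_ind (hb : Bornology.IsBounded Ω) (hm : MeasurableSet Ω) {F : Type}
    [NormedAddCommGroup F] [SecondCountableTopology F] {f : E → F} (hf : Continuous f) (p : ℝ≥0∞) :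
    MemLp (Ω.indicator f) p μ := by
  obtain ⟨M, hM0, hM⟩ := exists_bd hb hf
  refine (memLp_indicator_const p hm M (Or.inr hb.measure_lt_top.ne)).mono'
    (hf.aestronglyMeasurable.indicator hm) (Eventually.of_forall fun x => ?_)
  by_cases hx : x ∈ Ω
  · simp only [indicator_of_mem hx, hM x hx]
  · simp [indicator_of_notMem hx]

theorem tendsto_L2 (hb : Bornology.IsBounded Ω) (hm : MeasurableSet Ω) {F : Type}
    [NormedAddCommGroup F] [InnerProductSpace ℝ F] {u : ℕ → Lp F 2 μ} {v : Lp F 2 μ}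
    {f : ℕ → E → F} {g : E → F} (hu : ∀ n, u n =ᵐ[μ] f n) (hv : v =ᵐ[μ] g) {M : ℝ}
    (hM : ∀ n, ∀ x ∈ Ω, ‖f n x - g x‖ ≤ M) (h0 : ∀ n, ∀ x ∉ Ω, f n x = g x)
    (hev : ∀ x ∈ Ω, ∀ᶠ n in atTop, f n x = g x) : Tendsto u atTop (𝓝 v) := by
  have e : ∀ n, ∀ᵐ x ∂μ, (u n - v) x = f n x - g x := fun n => by
    filter_upwards [hu n, hv, Lp.coeFn_sub (u n) v] with x e1 e2 e3
    rw [e3, Pi.sub_apply, e1, e2]
  have h1 : Tendsto (fun n => ∫ x, ‖(u n - v) x‖ ^ 2 ∂μ) atTop (𝓝 (∫ _ : E, (0 : ℝ) ∂μ)) := by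
    refine tendsto_integral_of_dominated_convergence (Ω.indicator fun _ => M ^ 2)
      (fun n => (Lp.aestronglyMeasurable (u n - v)).norm.pow 2)
      ((integrableOn_const hb.measure_lt_top.ne).integrable_indicator hm) (fun n => ?_) ?_
    · filter_upwards [e n] with x hx
      rw [hx, Real.norm_of_nonneg (by positivity)]
      by_cases h : x ∈ Ω
      · rw [indicator_of_mem h]
        exact pow_le_pow_left₀ (norm_nonneg _) (hM n x h) 2
      · simp [indicator_of_notMem h, h0 n x h]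
    · filter_upwards [ae_all_iff.2 e] with x hx
      refine tendsto_const_nhds.congr' ?_
      by_cases h : x ∈ Ω
      · filter_upwards [hev x h] with n hn
        rw [hx n, hn]
        simp
      · refine Eventually.of_forall fun n => ?_
        dsimp only
        rw [hx n, h0 n x h]
        simp
  simp only [← norm_sq_eq_integral, integral_zero] at h1
  rw [tendsto_iff_norm_sub_tendsto_zero]
  simpa using h1.sqrt

theorem deriv_st_of_gt {s : ℝ} (hs : 1 < s) : deriv Real.smoothTransition s = 0 := by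
  have : Real.smoothTransition =ᶠ[𝓝 s] fun _ => 1 :=
    (lt_mem_nhds hs).mono fun t ht => Real.smoothTransition.one_of_one_le ht.le
  rw [this.deriv_eq, deriv_const]

theorem deriv_st_of_lt {s : ℝ} (hs : s < 0) : deriv Real.smoothTransition s = 0 := by
  have : Real.smoothTransition =ᶠ[𝓝 s] fun _ => 0 :=
    (gt_mem_nhds hs).mono fun t ht => Real.smoothTransition.zero_of_nonpos ht.le
  rw [this.deriv_eq, deriv_const]

theorem exists_st_bd : ∃ B : ℝ, ∀ s, ‖(s + 1) * deriv Real.smoothTransition s‖ ≤ B := by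
  have hc : Continuous (deriv Real.smoothTransition) :=
    (Real.smoothTransition.contDiff (n := 1)).continuous_deriv le_rfl
  refine Continuous.bounded_above_of_compact_support (by fun_prop)
    (HasCompactSupport.intro (isCompact_Icc (a := 0) (b := 1)) fun s hs => ?_)
  rw [mem_Icc, not_and_or, not_le, not_le] at hs
  rcases hs with h | h
  · rw [deriv_st_of_lt h, mul_zero]
  · rw [deriv_st_of_gt h, mul_zero]

theorem continuous_grad {ψ : E → ℝ} (h : ContDiff ℝ ∞ ψ) : Continuous (gradient ψ) :=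
  (InnerProductSpace.toDual ℝ E).symm.continuous.comp (h.continuous_fderiv (by simp))

theorem mem_of_cut (hb : Bornology.IsBounded Ω) (ho : IsOpen Ω) {φ₀ ξ : E → ℝ}
    (h₀ : ContDiff ℝ ∞ φ₀) (hξ : ContDiff ℝ ∞ ξ) (hpos : ∀ x ∈ Ω, 0 < φ₀ x)
    (hcl : ∀ x ∈ closure Ω, 0 < φ₀ x → x ∈ Ω) :
    ∃ p ∈ W μ Ω, p.1 =ᵐ[μ] Ω.indicator (fun x => φ₀ x * ξ x) ∧
      p.2 =ᵐ[μ] Ω.indicator (gradient fun x => φ₀ x * ξ x) := by
  have hm := ho.measurableSet
  set ψ : E → ℝ := fun x => φ₀ x * ξ x with hψ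
  have hψs : ContDiff ℝ ∞ ψ := h₀.mul hξ
  have hst : ContDiff ℝ ∞ Real.smoothTransition := Real.smoothTransition.contDiff
  let s : ℕ → E → ℝ := fun n x => ((n : ℝ) + 1) * φ₀ x - 1
  have hs : ∀ n, ContDiff ℝ ∞ (s n) := fun n => (contDiff_const.mul h₀).sub contDiff_const
  let g : ℕ → E → ℝ := fun n x => Real.smoothTransition (s n x) * ψ x
  have hg : ∀ n, ContDiff ℝ ∞ (g n) := fun n => (hst.comp (hs n)).mul hψs
  have hloc : ∀ n, ∀ x ∈ Ω, Ω.indicator (g n) =ᶠ[𝓝 x] g n := fun n x hx =>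
    (ho.eventually_mem hx).mono fun y hy => indicator_of_mem hy _
  have ht : ∀ n, IsTest Ω (Ω.indicator (g n)) := by
    intro n
    let K : Set E := closure Ω ∩ {x | 0 ≤ s n x}
    have hKc : IsClosed K := isClosed_closure.inter (isClosed_le continuous_const (hs n).continuous)
    have hK : IsCompact K := hb.isCompact_closure.inter_right
      (isClosed_le continuous_const (hs n).continuous)
    have hKΩ : K ⊆ Ω := fun x hx => hcl x hx.1 (by
      have h1 : 0 ≤ ((n : ℝ) + 1) * φ₀ x - 1 := hx.2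
      by_contra H
      nlinarith [mul_nonneg (show (0 : ℝ) ≤ n + 1 by positivity) (neg_nonneg.2 (not_lt.1 H))])
    have hz : ∀ x ∉ K, Ω.indicator (g n) x = 0 := fun x hx => by
      by_cases h : x ∈ Ω
      · have : s n x ≤ 0 := le_of_not_ge fun H => hx ⟨subset_closure h, H⟩
        simp only [indicator_of_mem h, g, Real.smoothTransition.zero_of_nonpos this, zero_mul]
      · exact indicator_of_notMem h _
    have hsup : Function.support (Ω.indicator (g n)) ⊆ K :=
      fun x hx => by_contra fun H => hx (hz x H)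
    refine ⟨contDiff_iff_contDiffAt.2 fun x => ?_, HasCompactSupport.intro hK hz,
      (closure_minimal hsup hKc).trans hKΩ⟩
    by_cases h : x ∈ Ω
    · exact (hg n).contDiffAt.congr_of_eventuallyEq (hloc n x h)
    · exact (contDiffAt_const (c := (0 : ℝ))).congr_of_eventuallyEq
        ((hKc.isOpen_compl.eventually_mem fun H => h (hKΩ H)).mono fun y hy => hz y hy)
  have hgr : ∀ n, ∀ x ∈ Ω, gradient (Ω.indicator (g n)) x - gradient ψ x =
      (Real.smoothTransition (s n x) - 1) • gradient ψ x +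
        (ξ x * ((s n x + 1) * deriv Real.smoothTransition (s n x))) • gradient φ₀ x := by
    intro n x hx
    have d0 := h₀.differentiable (by simp)
    have e1 : gradient (s n) x = ((n : ℝ) + 1) • gradient φ₀ x := by
      rw [← gradient_const_mul' d0]
      simp only [gradient, s, fderiv_sub_const]
    have e0 := gradient_mul' (φ := fun x => Real.smoothTransition (s n x)) (ψ := ψ)
      ((hst.comp (hs n)).differentiable (by simp)) (hψs.differentiable (by simp)) x
    have e2 := gradient_comp' ((hs n).differentiable (by simp)) (hst.differentiable (by simp)) x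
    rw [(hloc n x hx).gradient_eq]
    change gradient (fun x => Real.smoothTransition (s n x) * ψ x) x - _ = _
    rw [e0, e2, e1]
    simp only [s, hψ]
    module
  have hev : ∀ x ∈ Ω, ∀ᶠ n : ℕ in atTop, 1 < s n x := fun x hx => by
    have h1 : Tendsto (fun n : ℕ => ((n : ℝ) + 1) * φ₀ x) atTop atTop :=
      (tendsto_atTop_add_const_right _ 1 tendsto_natCast_atTop_atTop).atTop_mul_const (hpos x hx)
    filter_upwards [h1.eventually_gt_atTop 2] with n hn
    simp only [s]
    linarith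
  have hS : ∀ t, |Real.smoothTransition t - 1| ≤ 1 := fun t => abs_le.2
    ⟨by linarith [Real.smoothTransition.nonneg t], by linarith [Real.smoothTransition.le_one t]⟩
  choose P hP using fun n => (ht n).exists_rep μ
  have m1 := memLp_ind (μ := μ) hb hm hψs.continuous 2
  have m2 := memLp_ind (μ := μ) hb hm (continuous_grad hψs) 2
  obtain ⟨M₁, -, hM₁⟩ := exists_bd hb hψs.continuous
  obtain ⟨M₂, -, hM₂⟩ := exists_bd hb (continuous_grad hψs)
  obtain ⟨M₃, M₃0, hM₃⟩ := exists_bd hb hξ.continuous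
  obtain ⟨M₄, -, hM₄⟩ := exists_bd hb (continuous_grad h₀)
  obtain ⟨B, hB⟩ := exists_st_bd
  have t1 : Tendsto (fun n => (P n : V μ).1) atTop (𝓝 (m1.toLp _)) := by
    refine tendsto_L2 hb hm (fun n => (hP n).1) m1.coeFn_toLp (M := M₁) (fun n x hx => ?_)
      (fun n x hx => by simp only [indicator_of_notMem hx]) fun x hx => ?_
    · rw [indicator_of_mem hx, indicator_of_mem hx]
      have : g n x - ψ x = (Real.smoothTransition (s n x) - 1) * ψ x := by simp only [g]; ring
      rw [this, norm_mul]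
      exact (mul_le_of_le_one_left (norm_nonneg _) (hS _)).trans (hM₁ x hx)
    · filter_upwards [hev x hx] with n hn
      simp only [indicator_of_mem hx, g, Real.smoothTransition.one_of_one_le hn.le, one_mul]
  have t2 : Tendsto (fun n => (P n : V μ).2) atTop (𝓝 (m2.toLp _)) := by
    refine tendsto_L2 hb hm (fun n => (hP n).2) m2.coeFn_toLp (M := M₂ + M₃ * B * M₄)
      (fun n x hx => ?_) (fun n x hx => ?_) fun x hx => ?_
    · rw [indicator_of_mem hx, hgr n x hx]
      refine (norm_add_le _ _).trans (add_le_add ?_ ?_)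
      · rw [norm_smul]
        exact (mul_le_of_le_one_left (norm_nonneg _) (hS _)).trans (hM₂ x hx)
      · rw [norm_smul, norm_mul]
        have := (norm_nonneg _).trans (hB 0)
        gcongr
        exacts [hM₃ x hx, hB _, hM₄ x hx]
    · rw [indicator_of_notMem hx]
      by_contra H
      exact hx ((ht n).support_gradient H)
    · filter_upwards [hev x hx] with n hn
      rw [indicator_of_mem hx, ← sub_eq_zero, hgr n x hx,
        Real.smoothTransition.one_of_one_le hn.le, deriv_st_of_gt hn]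
      simp
  exact ⟨(m1.toLp _, m2.toLp _), (Submodule.isClosed_topologicalClosure _).mem_of_tendsto
    (t1.prodMk_nhds t2) (Eventually.of_forall fun n => (P n).2), m1.coeFn_toLp, m2.coeFn_toLp⟩

theorem zero_off {p : V μ} (hp : p ∈ W μ Ω) :
    ∀ᵐ x ∂μ, x ∉ Ω → p.1 x = 0 := by
  obtain ⟨x, hx, hlim⟩ := mem_closure_iff_seq_limit.1 (mem_W.1 hp)
  have h1 : Tendsto (fun n => (x n).1) atTop (𝓝 p.1) := (continuous_fst.tendsto p).comp hlim
  obtain ⟨ns, -, h2⟩ := (tendstoInMeasure_of_tendsto_Lp h1).exists_seq_tendsto_ae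
  choose φ hφ using hx
  filter_upwards [h2, ae_all_iff.2 fun n => (hφ n).2.1] with y e1 e2 hy
  refine tendsto_nhds_unique e1 (tendsto_const_nhds.congr fun n => ?_)
  rw [e2, (hφ _).1.eq_zero hy]

theorem rpow_deriv_bd {η t : ℝ} (h0 : 0 < η) (h1 : η ≤ 1) (ht : 0 ≤ t) :
    |(2 + η) * t ^ (1 + η) - 2 * t| ≤ 3 * η * (1 + t ^ 2) := by
  rcases ht.eq_or_lt with rfl | ht
  · rw [Real.zero_rpow (by linarith)]
    simp only [mul_zero, sub_self, abs_zero]
    positivity
  rw [Real.rpow_add ht, Real.rpow_one]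
  have a1 : t ^ η ≤ 1 + η * (t - 1) := by
    simpa using rpow_one_add_le_one_add_mul_self (s := t - 1) (by linarith) h0.le h1
  have a2 : 1 + η * Real.log t ≤ t ^ η := by
    rw [Real.rpow_def_of_pos ht]
    linarith [Real.add_one_le_exp (Real.log t * η)]
  have a3 : t - 1 ≤ t * Real.log t := Real.self_sub_one_le_mul_log ht.le
  have a4 : 0 < t ^ η := Real.rpow_pos_of_pos ht η
  have b1 := mul_le_mul_of_nonneg_left a1 ht.le
  have b2 := mul_le_mul_of_nonneg_left a2 ht.le
  have b3 := mul_le_mul_of_nonneg_left a3 h0.le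
  have b4 : t * t ^ η ≤ 1 + t ^ 2 := by
    nlinarith [mul_nonneg (sub_nonneg.2 h1) (sq_nonneg (t - 1)), mul_nonneg h0.le ht.le,
      mul_nonneg (sub_nonneg.2 h1) ht.le, sq_nonneg (t - 1), mul_nonneg h0.le (sq_nonneg t),
      mul_nonneg (sub_nonneg.2 h1) (sq_nonneg t)]
  have b5 := mul_le_mul_of_nonneg_left b4 h0.le
  have b6 : 0 ≤ η * (t * t ^ η) := by positivity
  have b7 : 0 ≤ η * t := by positivity
  have b8 : 0 ≤ η * t ^ 2 := by positivity
  rw [abs_le]
  constructor <;> nlinarith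

theorem rpow_lip {η a b : ℝ} (h0 : 0 < η) (h1 : η ≤ 1) :
    |(|a| ^ (2 + η) - a ^ 2) - (|b| ^ (2 + η) - b ^ 2)| ≤ 3 * η * (1 + a ^ 2 + b ^ 2) * |a - b| := by
  have key := Convex.norm_image_sub_le_of_norm_hasDerivWithin_le
    (f := fun t : ℝ => t ^ (2 + η) - t ^ 2) (f' := fun t => (2 + η) * t ^ (1 + η) - 2 * t)
    (s := uIcc |b| |a|) (C := 3 * η * (1 + a ^ 2 + b ^ 2)) (x := |b|) (y := |a|)
    (fun t _ => by
      have := (Real.hasDerivAt_rpow_const (x := t) (p := 2 + η) (Or.inr (by linarith))).sub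
        (hasDerivAt_pow 2 t)
      rw [show 2 + η - 1 = 1 + η by ring] at this
      exact (this.congr_deriv (by simp)).hasDerivWithinAt)
    (fun t ht => by
      have t0 : 0 ≤ t := le_trans (le_min (abs_nonneg _) (abs_nonneg _)) ht.1
      refine (rpow_deriv_bd h0 h1 t0).trans ?_
      have : t ^ 2 ≤ a ^ 2 + b ^ 2 := by
        rcases le_max_iff.1 ht.2 with h | h
        · nlinarith [pow_le_pow_left₀ t0 h 2, sq_abs b, sq_nonneg a]
        · nlinarith [pow_le_pow_left₀ t0 h 2, sq_abs a, sq_nonneg b]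
      exact mul_le_mul_of_nonneg_left (by linarith) (by positivity))
    (convex_uIcc _ _) left_mem_uIcc right_mem_uIcc
  simp only [Real.norm_eq_abs, sq_abs] at key
  exact key.trans (mul_le_mul_of_nonneg_left (abs_abs_sub_abs_le_abs_sub a b) (by positivity))

theorem rpow_lip' {η θ a b : ℝ} (h0 : 0 < η) (h1 : η ≤ 1) (hθ : 0 < θ) :
    |(|a| ^ (2 + η) - a ^ 2) - (|b| ^ (2 + η) - b ^ 2)| ≤
      η * (2 * (a - b) ^ 2 / θ + 5 * θ * (1 + a ^ 4 + b ^ 4)) := by
  refine (rpow_lip h0 h1).trans ?_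
  rw [← sq_abs (a - b)]
  generalize |a - b| = d
  have e1 : (1 + a ^ 2 + b ^ 2) ^ 2 ≤ 3 * (1 + a ^ 4 + b ^ 4) := by
    nlinarith [sq_nonneg (a ^ 2 - 1), sq_nonneg (b ^ 2 - 1), sq_nonneg (a ^ 2 - b ^ 2)]
  have e0 : 0 ≤ 1 + a ^ 4 + b ^ 4 := by positivity
  generalize 1 + a ^ 2 + b ^ 2 = g at *
  generalize 1 + a ^ 4 + b ^ 4 = G at *
  have e2 : 3 * g * d ≤ 2 * d ^ 2 / θ + 5 * θ * G := by
    rw [div_add' _ _ _ hθ.ne', le_div_iff₀ hθ]
    nlinarith [sq_nonneg (d - θ * g), sq_nonneg d, mul_le_mul_of_nonneg_left e1 (sq_nonneg θ),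
      mul_nonneg (sq_nonneg θ) e0]
  nlinarith

end Pool.Agent.Lib.MP_eb4995_an.Cv
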