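import Mathlib
import Pool.Agent.Lib.MP_eb4995_an.Cv.Mem

/-!
The `L^q` mass for `q` near `2`, and the lower bound for the energy near a simple mode.
-/

set_option linter.unusedSectionVars false

namespace Pool.Agent.Lib.MP_eb4995_an.Cv

open MeasureTheory Set Filter Topology Metric Module
open scoped ContDiff ENNReal NNReal

variable {E : Type} [NormedAddCommGroup E] [InnerProductSpace ℝ E] [CompleteSpace E]
  [MeasurableSpace E] [BorelSpace E] [FiniteDimensional ℝ E]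
  {μ : Measure E} [μ.IsAddHaarMeasure] {Ω : Set E} {q : ℝ}

/-- The integral of `|u|^q`. -/
noncomputable def mass (q : ℝ) (p : V μ) : ℝ := ∫ x, |p.1 x| ^ q ∂μ

theorem mass_nonneg (p : V μ) : 0 ≤ mass q p := integral_nonneg fun _ => by positivity

theorem mass_smul (t : ℝ) (p : V μ) : mass q (t • p) = |t| ^ q * mass q p := by
  unfold mass
  rw [← integral_const_mul]
  refine integral_congr_ae ((Lp.coeFn_smul t p.1).mono fun x hx => ?_)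
  dsimp only
  rw [Prod.smul_fst, hx, Pi.smul_apply, smul_eq_mul, abs_mul,
    Real.mul_rpow (abs_nonneg _) (abs_nonneg _)]

theorem mass_zero (hq : 0 < q) : mass q (0 : V μ) = 0 := by
  have := mass_smul (q := q) 0 (0 : V μ)
  rwa [abs_zero, Real.zero_rpow hq.ne', zero_mul, zero_smul] at this

theorem lq_of_mass {p : V μ} (h : mass q p = 1) : lqNorm μ q p.1 = 1 := by
  unfold lqNorm
  rw [show ∫ x, |p.1 x| ^ q ∂μ = 1 from h, Real.one_rpow]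

theorem mass_of_lq (hq : 0 < q) {p : V μ} (h : lqNorm μ q p.1 = 1) : mass q p = 1 := by
  unfold mass
  rw [← lqNorm_rpow hq, h, Real.one_rpow]

theorem exists_norm (hq : 0 < q) {m : ℝ} (hm : 0 < m) : ∃ α : ℝ, 0 < α ∧ |α| ^ q * m = 1 := by
  refine ⟨m⁻¹ ^ q⁻¹, by positivity, ?_⟩
  rw [abs_of_pos (by positivity), Real.rpow_inv_rpow (by positivity) hq.ne',
    inv_mul_cancel₀ hm.ne']

theorem sq_int (u : Lp ℝ 2 μ) : ‖u‖ ^ 2 = ∫ x, u x ^ 2 ∂μ := by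
  rw [norm_sq_eq_integral]
  simp only [Real.norm_eq_abs, sq_abs]

theorem int_sq (u : Lp ℝ 2 μ) : Integrable (fun x => u x ^ 2) μ := (Lp.memLp u).integrable_sq

theorem int_mass (hb : Bornology.IsBounded Ω) (hN : finrank ℝ E = 2) (hq : 2 ≤ q) {p : V μ}
    (hp : p ∈ W μ Ω) : Integrable (fun x => |p.1 x| ^ q) μ := by
  obtain ⟨C, -, hC⟩ := sobolev_W (μ := μ) hb hN.ge hq (by rw [hN]; norm_num)
  exact integrable_rpow (by linarith) (hC p hp).1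

theorem mass_pos (hb : Bornology.IsBounded Ω) (hN : finrank ℝ E = 2) (hq : 2 ≤ q) {p : V μ}
    (hp : p ∈ W μ Ω) (h0 : 0 < ‖p.1‖ ^ 2) : 0 < mass q p := by
  refine (mass_nonneg p).lt_of_ne' fun H => h0.ne' ?_
  have h1 := (integral_eq_zero_iff_of_nonneg (fun x => by positivity)
    (int_mass hb hN hq hp)).1 H
  rw [sq_int]
  refine integral_eq_zero_of_ae (h1.mono fun x hx => ?_)
  have h2 : |p.1 x| ^ q = 0 := hx
  rw [Real.rpow_eq_zero (abs_nonneg _) (by linarith), abs_eq_zero] at h2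
  simp [h2]

theorem four_bd (hb : Bornology.IsBounded Ω) (hN : finrank ℝ E = 2) :
    ∃ C : ℝ, 0 ≤ C ∧ ∀ p ∈ W μ Ω, Integrable (fun x => p.1 x ^ 4) μ ∧
      ∫ x, p.1 x ^ 4 ∂μ ≤ C * (‖p.2‖ ^ 2) ^ 2 := by
  obtain ⟨C, hC0, hC⟩ := sobolev_W (μ := μ) hb hN.ge (r := 4) (by norm_num)
    (by rw [hN]; norm_num)
  have e : ∀ a : ℝ, |a| ^ (4 : ℝ) = a ^ 4 := fun a => by
    rw [show (4 : ℝ) = (4 : ℕ) by norm_num, Real.rpow_natCast, (by decide : Even 4).pow_abs]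
  refine ⟨C ^ 4, by positivity, fun p hp => ⟨?_, ?_⟩⟩
  · simpa only [e] using integrable_rpow (by norm_num) (hC p hp).1
  · have h1 := lqNorm_rpow (μ := μ) (q := 4) (by norm_num) p.1
    simp only [e] at h1
    rw [← h1, show (4 : ℝ) = (4 : ℕ) by norm_num, Real.rpow_natCast]
    refine (pow_le_pow_left₀ (lqNorm_nonneg _) (hC p hp).2 4).trans_eq (by ring)

/-- The two estimates on the mass used below. -/
def LipBd (μ : Measure E) (Ω : Set E) (A C : ℝ) : Prop :=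
  ∀ η : ℝ, 0 < η → η ≤ 1 → ∀ p ∈ W μ Ω, ‖p.1‖ ^ 2 ≤ A + mass (2 + η) p ∧
    ∀ p' ∈ W μ Ω, ∀ θ : ℝ, 0 < θ →
      |(mass (2 + η) p - ‖p.1‖ ^ 2) - (mass (2 + η) p' - ‖p'.1‖ ^ 2)| ≤
        η * (2 * ‖p.1 - p'.1‖ ^ 2 / θ + 5 * θ * (A + C * (‖p.2‖ ^ 2) ^ 2 + C * (‖p'.2‖ ^ 2) ^ 2))

theorem LipBd.mono {Ω' : Set E} {A C : ℝ} (h : LipBd μ Ω A C) (hΩ : Ω' ⊆ Ω) : LipBd μ Ω' A C :=
  fun η h0 h1 p hp => ⟨(h η h0 h1 p (W_mono hΩ hp)).1,
    fun p' hp' => (h η h0 h1 p (W_mono hΩ hp)).2 p' (W_mono hΩ hp')⟩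

theorem exists_lip (hb : Bornology.IsBounded Ω) (hm : MeasurableSet Ω) (hN : finrank ℝ E = 2) :
    ∃ A C : ℝ, 0 ≤ A ∧ 0 ≤ C ∧ LipBd μ Ω A C := by
  obtain ⟨C, hC0, hC⟩ := four_bd (μ := μ) hb hN
  have i1 : Integrable (Ω.indicator fun _ => (1 : ℝ)) μ :=
    (integrableOn_const hb.measure_lt_top.ne).integrable_indicator hm
  refine ⟨∫ x, Ω.indicator (fun _ => (1 : ℝ)) x ∂μ, C,
    integral_nonneg fun x => indicator_nonneg (fun _ _ => zero_le_one) x, hC0,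
    fun η h0 h1 p hp => ⟨?_, fun p' hp' θ hθ => ?_⟩⟩
  · have i2 := int_mass hb hN (q := 2 + η) (by linarith) hp
    rw [sq_int, mass, ← integral_add i1 i2]
    refine integral_mono_ae (int_sq _) (i1.add i2) ((zero_off hp).mono fun x hx => ?_)
    dsimp only
    by_cases h : x ∈ Ω
    · rw [indicator_of_mem h, ← sq_abs]
      have a0 := abs_nonneg (p.1 x)
      generalize |p.1 x| = a at *
      rcases le_total a 1 with h2 | h2
      · nlinarith [Real.rpow_nonneg a0 (2 + η)]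
      · have := Real.rpow_le_rpow_of_exponent_le h2 (show (2 : ℝ) ≤ 2 + η by linarith)
        rw [Real.rpow_two] at this
        linarith
    · rw [indicator_of_notMem h, hx h]
      simp [Real.rpow_nonneg]
  · have i2 := int_mass hb hN (q := 2 + η) (by linarith) hp
    have i3 := int_mass hb hN (q := 2 + η) (by linarith) hp'
    have j1 := ((int_sq (p.1 - p'.1)).const_mul 2).div_const θ
    have j2 := ((i1.add (hC p hp).1).add (hC p' hp').1).const_mul (5 * θ)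
    simp only [Pi.add_apply] at j2
    have k1 : Integrable (fun x => |p.1 x| ^ (2 + η) - p.1 x ^ 2) μ := i2.sub (int_sq p.1)
    have k2 : Integrable (fun x => |p'.1 x| ^ (2 + η) - p'.1 x ^ 2) μ := i3.sub (int_sq p'.1)
    have k3 : Integrable (fun x => Ω.indicator (fun _ => (1 : ℝ)) x + p.1 x ^ 4) μ :=
      i1.add (hC p hp).1
    have key := norm_integral_le_of_norm_le (μ := μ)
      (f := fun x => (|p.1 x| ^ (2 + η) - p.1 x ^ 2) - (|p'.1 x| ^ (2 + η) - p'.1 x ^ 2))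
      ((j1.add j2).const_mul η) (by
        filter_upwards [zero_off hp, zero_off hp', Lp.coeFn_sub p.1 p'.1] with x e1 e2 e3
        simp only [Pi.add_apply]
        rw [e3, Pi.sub_apply, Real.norm_eq_abs]
        by_cases h : x ∈ Ω
        · rw [indicator_of_mem h]
          exact rpow_lip' h0 h1 hθ
        · rw [indicator_of_notMem h, e1 h, e2 h]
          simp)
    simp only [Pi.add_apply] at key
    rw [integral_sub k1 k2, integral_sub i2 (int_sq _), integral_sub i3 (int_sq _),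
      integral_const_mul, integral_add j1 j2, integral_div, integral_const_mul,
      integral_const_mul, integral_add k3 (hC p' hp').1,
      integral_add i1 (hC p hp).1, ← sq_int, ← sq_int, ← sq_int, Real.norm_eq_abs] at key
    refine key.trans ?_
    have := (hC p hp).2
    have := (hC p' hp').2
    gcongr

variable {A C η : ℝ}

theorem LipBd.zero (h : LipBd μ Ω A C) (h0 : 0 < η) (h1 : η ≤ 1) {p : V μ} (hp : p ∈ W μ Ω) :
    |mass (2 + η) p - ‖p.1‖ ^ 2| ≤ η * (2 * ‖p.1‖ ^ 2 + 5 * (A + C * (‖p.2‖ ^ 2) ^ 2)) := by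
  have := (h η h0 h1 p hp).2 0 (W μ Ω).zero_mem 1 one_pos
  simpa [mass_zero (show 0 < 2 + η by linarith)] using this

theorem LipBd.near (h : LipBd μ Ω A C) (hC : 0 ≤ C) (h0 : 0 < η) (h1 : η ≤ 1) {p : V μ}
    (hp : p ∈ W μ Ω) (hm : mass (2 + η) p = 1) {M : ℝ} (hM : ‖p.2‖ ^ 2 ≤ M)
    (hs : η * (2 * (A + 1) + 5 * (A + C * M ^ 2)) ≤ 1 / 10) :
    9 / 10 ≤ ‖p.1‖ ^ 2 ∧ ‖p.1‖ ^ 2 ≤ 11 / 10 := by
  have a1 := (h η h0 h1 p hp).1
  have a2 := h.zero h0 h1 hp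
  rw [hm] at a1 a2
  have a3 : η * (2 * ‖p.1‖ ^ 2 + 5 * (A + C * (‖p.2‖ ^ 2) ^ 2)) ≤
      η * (2 * (A + 1) + 5 * (A + C * M ^ 2)) := by gcongr
  have := abs_le.1 (a2.trans (a3.trans hs))
  constructor <;> linarith [this.1, this.2]

theorem LipBd.lower (h : LipBd μ Ω A C) (hA : 0 ≤ A) (hC : 0 ≤ C) (h0 : 0 < η) (h1 : η ≤ 1)
    {e u : V μ} (he : e ∈ W μ Ω) (hu : u ∈ W μ Ω) (me : mass (2 + η) e = 1)
    (mu : mass (2 + η) u = 1) {lam : ℝ} (n0 : 0 < ‖e.1‖ ^ 2)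
    (hD : ‖e.2‖ ^ 2 = lam * ‖e.1‖ ^ 2) (h6 : ‖e.2‖ ^ 2 ≤ 6) (u6 : ‖u.2‖ ^ 2 ≤ 6)
    (hM : 7 * ‖u.1‖ ^ 2 - (7 - lam) * (inner ℝ u.1 e.1 ^ 2 / ‖e.1‖ ^ 2) ≤ ‖u.2‖ ^ 2) :
    ‖e.2‖ ^ 2 - 360 * (A + 72 * C) * η ^ 2 ≤ ‖u.2‖ ^ 2 := by
  set r := inner ℝ u.1 e.1 / ‖e.1‖ ^ 2 with hr
  have hc : inner ℝ u.1 e.1 = r * ‖e.1‖ ^ 2 := (div_mul_cancel₀ _ n0.ne').symm
  have e1 : ‖(r • e).1‖ ^ 2 = r ^ 2 * ‖e.1‖ ^ 2 := by
    rw [Prod.smul_fst, norm_smul, mul_pow, Real.norm_eq_abs, sq_abs]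
  have e2 : ‖(r • e).2‖ ^ 2 = r ^ 2 * ‖e.2‖ ^ 2 := by
    rw [Prod.smul_snd, norm_smul, mul_pow, Real.norm_eq_abs, sq_abs]
  have e3 : ‖u.1 - (r • e).1‖ ^ 2 = ‖u.1‖ ^ 2 - r ^ 2 * ‖e.1‖ ^ 2 := by
    rw [norm_sub_sq_real, e1, Prod.smul_fst, inner_smul_right, hc]
    ring
  have e4 : inner ℝ u.1 e.1 ^ 2 / ‖e.1‖ ^ 2 = r ^ 2 * ‖e.1‖ ^ 2 := by
    rw [hc, div_eq_iff n0.ne']
    ring
  have e5 : 0 ≤ ‖u.1‖ ^ 2 - r ^ 2 * ‖e.1‖ ^ 2 := e3 ▸ sq_nonneg _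
  have k := (h η h0 h1 u hu).2 (r • e) ((W μ Ω).smul_mem r he) (12 * η) (by positivity)
  rw [e1, e2, e3, mass_smul, me, mu, mul_one] at k
  rw [e4] at hM
  have hK : 0 ≤ 360 * (A + 72 * C) * η ^ 2 := by positivity
  have D0 := sq_nonneg ‖e.2‖
  have U0 := sq_nonneg ‖u.2‖
  rcases le_total 1 (r ^ 2) with hr1 | hr1
  · have := mul_le_mul_of_nonneg_right hr1 D0
    rw [hD] at this ⊢
    nlinarith
  · have b1 : |r| ^ (2 + η) ≤ r ^ 2 := by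
      have := Real.rpow_le_rpow_of_exponent_ge' (abs_nonneg r) ((sq_le_one_iff_abs_le_one r).1 hr1)
        (show (0 : ℝ) ≤ 2 by norm_num) (show (2 : ℝ) ≤ 2 + η by linarith)
      rwa [Real.rpow_two, sq_abs] at this
    have b2 : r ^ 2 * ‖e.2‖ ^ 2 ≤ 6 := (mul_le_of_le_one_left D0 hr1).trans h6
    have b3 : A + C * (‖u.2‖ ^ 2) ^ 2 + C * (r ^ 2 * ‖e.2‖ ^ 2) ^ 2 ≤ A + C * 6 ^ 2 + C * 6 ^ 2 := by
      gcongr
    have b4 := (le_abs_self _).trans k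
    have b5 : η * (2 * (‖u.1‖ ^ 2 - r ^ 2 * ‖e.1‖ ^ 2) / (12 * η) +
        5 * (12 * η) * (A + C * (‖u.2‖ ^ 2) ^ 2 + C * (r ^ 2 * ‖e.2‖ ^ 2) ^ 2)) =
        (‖u.1‖ ^ 2 - r ^ 2 * ‖e.1‖ ^ 2) / 6 +
          60 * η ^ 2 * (A + C * (‖u.2‖ ^ 2) ^ 2 + C * (r ^ 2 * ‖e.2‖ ^ 2) ^ 2) := by
      field_simp
      ring
    rw [b5] at b4
    have b6 := mul_le_mul_of_nonneg_left b3 (show 0 ≤ 60 * η ^ 2 by positivity)
    have b7 : 1 - r ^ 2 ≤ 7 / 6 * (‖u.1‖ ^ 2 - r ^ 2 * ‖e.1‖ ^ 2) + 60 * η ^ 2 * (A + 72 * C) := by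
      linarith
    have b8 := mul_le_mul_of_nonneg_right h6 (sub_nonneg.2 hr1)
    have b9 : r ^ 2 * ‖e.2‖ ^ 2 = lam * (r ^ 2 * ‖e.1‖ ^ 2) := by rw [hD]; ring
    nlinarith

theorem genus_le_of {X : Type} [TopologicalSpace X] [Neg X] {F : Set X} {n : ℕ} (hn : 1 ≤ n)
    (l : X → EuclideanSpace ℝ (Fin n)) (hc : ContinuousOn l F) (h0 : ∀ p ∈ F, l p ≠ 0)
    (hodd : ∀ p ∈ F, l (-p) = -l p) : genus F ≤ n := by
  refine iInf_le_of_le n (iInf_le_of_le hn (iInf_le_of_le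
    ⟨fun p => ‖l p‖⁻¹ • l p, ?_, fun p hp => ?_, fun p hp => ?_⟩ le_rfl))
  · exact (hc.norm.inv₀ fun p hp => norm_ne_zero_iff.2 (h0 p hp)).smul hc
  · exact norm_smul_inv_norm (h0 p hp)
  · simp only [hodd p hp, norm_neg, smul_neg]

theorem exists_perp {F : Set (V μ)} (hF : (4 : ℕ∞) ≤ genus F) (a b c : Lp ℝ 2 μ) :
    ∃ p ∈ F, inner ℝ p.1 a = 0 ∧ inner ℝ p.1 b = 0 ∧ inner ℝ p.1 c = 0 := by
  by_contra H
  have h3 := genus_le_of (F := F) (n := 3) (by norm_num)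
    (fun p => !₂[inner ℝ p.1 a, inner ℝ p.1 b, inner ℝ p.1 c]) (Continuous.continuousOn ?_)
    (fun p hp h => H ⟨p, hp, ?_, ?_, ?_⟩) fun p _ => ?_
  · exact absurd (hF.trans h3) (by norm_num)
  · refine (PiLp.continuous_toLp 2 _).comp (continuous_pi fun i => ?_)
    fin_cases i <;> simp <;> fun_prop
  · simpa using congrArg (fun v : EuclideanSpace ℝ (Fin 3) => v 0) h
  · simpa using congrArg (fun v : EuclideanSpace ℝ (Fin 3) => v 1) h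
  · simpa using congrArg (fun v : EuclideanSpace ℝ (Fin 3) => v 2) h
  · ext i
    fin_cases i <;> simp

theorem ratio {α β L L' c K : ℝ} (h0 : 0 < η) (h1 : η ≤ 1) (hα : 0 < α) (hβ : 0 < β)
    (hc : 0 < c) (hL : 0 < L) (hK : L ≤ K) (ha : |α| ^ (2 + η) * L = 1)
    (hb : |β| ^ (2 + η) * L' = 1) (hg : L + c * η ≤ L') :
    β ^ 2 ≤ (1 - c / (2 * (K + c)) * η) * α ^ 2 := by
  rw [abs_of_pos hα] at ha
  rw [abs_of_pos hβ] at hb
  have hr : 0 < β / α := div_pos hβ hα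
  have e1 : (β / α) ^ (2 + η) * L' = L := by
    rw [Real.div_rpow hβ.le hα.le, div_mul_eq_mul_div, hb, ← ha,
      mul_div_cancel_left₀ _ (Real.rpow_pos_of_pos hα _).ne']
  have y0 := Real.rpow_pos_of_pos hr (2 + η)
  have cη : 0 < c * η := by positivity
  have e2 := mul_le_mul_of_nonneg_left hg y0.le
  have y1 : (β / α) ^ (2 + η) ≤ 1 := by
    by_contra H
    nlinarith [not_le.1 H]
  have r1 : β / α ≤ 1 := by
    by_contra H
    exact absurd (Real.one_lt_rpow (not_le.1 H) (by linarith)) (not_lt.2 y1)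
  have y2 : ((β / α) ^ 2) ^ 2 ≤ (β / α) ^ (2 + η) := by
    have := Real.rpow_le_rpow_of_exponent_ge hr r1 (show 2 + η ≤ ((4 : ℕ) : ℝ) by
      push_cast; linarith)
    rwa [Real.rpow_natCast, show (4 : ℕ) = 2 * 2 from rfl, pow_mul] at this
  generalize (β / α) ^ (2 + η) = y at *
  have K0 : 0 < K + c := by linarith
  have y3 : c * η ≤ (1 - y) * (K + c) := by
    have : (1 - y) * (L + c * η) ≤ (1 - y) * (K + c) :=
      mul_le_mul_of_nonneg_left (by nlinarith) (by linarith)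
    nlinarith
  have x1 : c / (2 * (K + c)) * η ≤ (1 - y) / 2 := by
    rw [div_mul_eq_mul_div, div_le_iff₀ (by positivity)]
    linarith
  have x2 : (β / α) ^ 2 ≤ 1 - c / (2 * (K + c)) * η := by
    nlinarith [sq_nonneg ((β / α) ^ 2 - 1)]
  rwa [div_pow, div_le_iff₀ (by positivity)] at x2

end Pool.Agent.Lib.MP_eb4995_an.Cv
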