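import Mathlib
import Pool.Agent.Lib.MP_eb4995_an.Main

/-!
Minimizers among functions that are odd under an involutive isometry are eigenfunctions.
-/

set_option linter.unusedSectionVars false

namespace Pool.Agent.Lib.MP_eb4995_an.Cv

open MeasureTheory Set Filter Topology Metric Module
open scoped ContDiff ENNReal NNReal

variable {E : Type} [NormedAddCommGroup E] [InnerProductSpace ℝ E] [CompleteSpace E]
  [MeasurableSpace E] [BorelSpace E] [FiniteDimensional ℝ E]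
  {μ : Measure E} [μ.IsAddHaarMeasure] {Ω : Set E} {q : ℝ} {σ : E ≃ₗᵢ[ℝ] E}

/-- The pair is odd under `σ`. -/
def Odd (σ : E ≃ₗᵢ[ℝ] E) (p : V μ) : Prop :=
  (∀ᵐ x ∂μ, p.1 (σ x) = -p.1 x) ∧ ∀ᵐ x ∂μ, σ (p.2 (σ x)) = -p.2 x

/-- The action of `σ` on pairs. -/
noncomputable def act (hσ : MeasurePreserving σ μ μ) : V μ →L[ℝ] V μ :=
  (Lp.compMeasurePreservingₗᵢ ℝ σ hσ).toContinuousLinearMap.prodMap
    (((σ.toContinuousLinearEquiv : E →L[ℝ] E).compLpL 2 μ).comp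
      (Lp.compMeasurePreservingₗᵢ ℝ σ hσ).toContinuousLinearMap)

theorem act_fst (hσ : MeasurePreserving σ μ μ) (p : V μ) :
    ∀ᵐ x ∂μ, (act hσ p).1 x = p.1 (σ x) :=
  Lp.coeFn_compMeasurePreserving p.1 hσ

theorem act_snd (hσ : MeasurePreserving σ μ μ) (p : V μ) :
    ∀ᵐ x ∂μ, (act hσ p).2 x = σ (p.2 (σ x)) := by
  filter_upwards [(σ.toContinuousLinearEquiv : E →L[ℝ] E).coeFn_compLpL
    (Lp.compMeasurePreserving σ hσ p.2), Lp.coeFn_compMeasurePreserving p.2 hσ] with x e1 e2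
  refine e1.trans ?_
  rw [e2]
  rfl

theorem odd_iff (hσ : MeasurePreserving σ μ μ) (p : V μ) : Odd σ p ↔ act hσ p = -p := by
  constructor
  · rintro ⟨h1, h2⟩
    refine Prod.ext (Lp.ext ?_) (Lp.ext ?_)
    · filter_upwards [act_fst hσ p, h1, Lp.coeFn_neg p.1] with x e1 e2 e3
      rw [e1, e2, Prod.fst_neg, e3, Pi.neg_apply]
    · filter_upwards [act_snd hσ p, h2, Lp.coeFn_neg p.2] with x e1 e2 e3
      rw [e1, e2, Prod.snd_neg, e3, Pi.neg_apply]
  · intro h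
    constructor
    · filter_upwards [act_fst hσ p, Lp.coeFn_neg p.1] with x e1 e3
      rw [← e1, h, Prod.fst_neg, e3, Pi.neg_apply]
    · filter_upwards [act_snd hσ p, Lp.coeFn_neg p.2] with x e1 e3
      rw [← e1, h, Prod.snd_neg, e3, Pi.neg_apply]

theorem odd_of_ae (hσ : MeasurePreserving σ μ μ) {p : V μ} {f : E → ℝ} {g : E → E}
    (h1 : p.1 =ᵐ[μ] f) (h2 : p.2 =ᵐ[μ] g) (hf : ∀ x, f (σ x) = -f x)
    (hg : ∀ x, σ (g (σ x)) = -g x) : Odd σ p := by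
  constructor
  · filter_upwards [h1, hσ.quasiMeasurePreserving.ae h1] with x e1 e2
    rw [e1, e2, hf]
  · filter_upwards [h2, hσ.quasiMeasurePreserving.ae h2] with x e1 e2
    rw [e1, e2, hg]

theorem Odd.smul (hσ : MeasurePreserving σ μ μ) {p : V μ} (h : Odd σ p) (c : ℝ) :
    Odd σ (c • p) := by
  rw [odd_iff hσ] at h ⊢
  rw [map_smul, h, smul_neg]

theorem Odd.add (hσ : MeasurePreserving σ μ μ) {p p' : V μ} (h : Odd σ p) (h' : Odd σ p') :
    Odd σ (p + p') := by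
  rw [odd_iff hσ] at h h' ⊢
  rw [map_add, h, h', neg_add]

theorem int_comp (hσ : MeasurePreserving σ μ μ) (g : E → ℝ) :
    ∫ x, g (σ x) ∂μ = ∫ x, g x ∂μ :=
  hσ.integral_comp σ.toHomeomorph.measurableEmbedding g

theorem inner_swap (hi : ∀ x, σ (σ x) = x) (a b : E) : inner ℝ a (σ b) = inner ℝ (σ a) b := by
  rw [← σ.inner_map_map a, hi]

theorem gradient_comp_iso (hi : ∀ x, σ (σ x) = x) {φ : E → ℝ} (hφ : Differentiable ℝ φ) (x : E) :
    gradient (fun x => φ (σ x)) x = σ (gradient φ (σ x)) := by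
  refine ext_inner_right ℝ fun v => ?_
  have h1 : HasFDerivAt (fun x => φ (σ x))
      ((fderiv ℝ φ (σ x)).comp (σ.toContinuousLinearEquiv : E →L[ℝ] E)) x :=
    (hφ (σ x)).hasFDerivAt.comp x (σ.toContinuousLinearEquiv : E →L[ℝ] E).hasFDerivAt
  rw [← inner_swap hi]
  simp only [gradient, InnerProductSpace.toDual_symm_apply, h1.fderiv]
  rfl

theorem gradient_odd (hi : ∀ x, σ (σ x) = x) {φ : E → ℝ} (hφ : Differentiable ℝ φ)
    (h : ∀ x, φ (σ x) = -φ x) (x : E) : σ (gradient φ (σ x)) = -gradient φ x := by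
  rw [← gradient_comp_iso hi hφ]
  have : (fun x => φ (σ x)) = fun x => -1 * φ x := funext fun x => by rw [h, neg_one_mul]
  rw [this, gradient_const_mul' hφ, neg_one_smul]

theorem test_comp (hΩ : ∀ x, σ x ∈ Ω → x ∈ Ω) {φ : E → ℝ} (hφ : IsTest Ω φ) :
    IsTest Ω fun x => φ (σ x) := by
  refine ⟨hφ.1.comp σ.contDiff, hφ.2.1.comp_homeomorph σ.toHomeomorph, ?_⟩
  intro x hx
  exact hΩ x (hφ.2.2 (tsupport_comp_subset_preimage φ σ.continuous hx))

theorem inner_zero_of_odd (hσ : MeasurePreserving σ μ μ) {p : V μ} (h : Odd σ p)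
    {e : Lp ℝ 2 μ} {f : E → ℝ} (he : e =ᵐ[μ] f) (hf : ∀ x, f (σ x) = f x) :
    inner ℝ p.1 e = 0 := by
  have h1 : inner ℝ p.1 e = ∫ x, f x * p.1 x ∂μ := by
    rw [L2.inner_def]
    refine integral_congr_ae (he.mono fun x hx => ?_)
    simp only [hx, RCLike.inner_apply, conj_trivial]
  have h2 := int_comp hσ fun x => f x * p.1 x
  have h3 : ∫ x, f (σ x) * p.1 (σ x) ∂μ = -∫ x, f x * p.1 x ∂μ := by
    rw [← integral_neg]
    refine integral_congr_ae (h.1.mono fun x hx => ?_)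
    simp only [hx, hf, mul_neg]
  linarith

theorem integrable_dual {α : Type} [MeasurableSpace α] {ν : Measure α} (hq : 2 ≤ q)
    {u w : α → ℝ} (hu : MemLp u (ENNReal.ofReal q) ν) (hw : MemLp w (ENNReal.ofReal q) ν) :
    Integrable (fun x => |u x| ^ (q - 2) * u x * w x) ν := by
  have hq0 : 0 < q := by linarith
  have m1 := hu.1.aemeasurable
  have m2 := hw.1.aemeasurable
  refine ((integrable_rpow hq0 hu).add (integrable_rpow hq0 hw)).mono'
    (AEMeasurable.aestronglyMeasurable (by fun_prop)) (Eventually.of_forall fun x => ?_)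
  rw [Real.norm_eq_abs, abs_mul, abs_mul, abs_of_nonneg (Real.rpow_nonneg (abs_nonneg _) _),
    Pi.add_apply]
  have ha := abs_nonneg (u x)
  have hb := abs_nonneg (w x)
  generalize |u x| = a at *
  generalize |w x| = b at *
  have key : ∀ m : ℝ, 0 ≤ m → a ≤ m → b ≤ m → a ^ (q - 2) * a * b ≤ m ^ q := by
    intro m hm h1 h2
    have e : m ^ q = m ^ (q - 2) * m * m := by
      have := Real.rpow_add' hm (y := q - 2) (z := 2) (by linarith)
      rw [sub_add_cancel, Real.rpow_two] at this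
      rw [this]; ring
    rw [e]
    have := Real.rpow_le_rpow ha h1 (show 0 ≤ q - 2 by linarith)
    gcongr
  rcases le_total a b with h | h
  · linarith [key b hb h le_rfl, Real.rpow_nonneg ha q]
  · linarith [key a ha le_rfl h, Real.rpow_nonneg hb q]

theorem exists_min_sub {H K L : Type} [NormedAddCommGroup H] [NormedSpace ℝ H]
    [NormedAddCommGroup K] [InnerProductSpace ℝ K] [NormedAddCommGroup L] [NormedSpace ℝ L]
    [CompleteSpace H] [CompleteSpace L] (G : H →L[ℝ] K) (J : H →L[ℝ] L)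
    {C : ℝ} (hC : ∀ p, ‖p‖ ≤ C * ‖G p‖)
    (hcomp : ∀ R, TotallyBounded (J '' {p | ‖G p‖ < R})) (S : Submodule ℝ H)
    (hS : IsClosed (S : Set H)) {p₀ : H} (h₀ : p₀ ∈ S) (n₀ : ‖J p₀‖ = 1) :
    ∃ p ∈ S, ‖J p‖ = 1 ∧ ‖G p‖ ^ 2 ≤ ‖G p₀‖ ^ 2 ∧ ∀ h ∈ S, ∀ d : ℝ,
      HasDerivAt (fun t : ℝ => ‖J p + t • J h‖ ^ 2) d 0 →
        2 * inner ℝ (G p) (G h) = ‖G p‖ ^ 2 * d := by
  have : CompleteSpace S := hS.completeSpace_coe
  obtain ⟨p, hp1, -, hp3⟩ := exists_minimizer (G.comp S.subtypeL) (J.comp S.subtypeL) (C := C)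
    (fun p => hC p) (fun R => (hcomp R).subset (by
      rintro _ ⟨p, hp, rfl⟩
      exact ⟨p, hp, rfl⟩))
    isOpen_univ isClosed_univ Subset.rfl (m' := ‖G p₀‖ ^ 2 + 1) (fun _ _ _ _ => mem_univ _)
    ⟨⟨p₀, h₀⟩, n₀, mem_univ _, lt_add_one _⟩
  exact ⟨p, p.2, hp1, hp3 ⟨p₀, h₀⟩ n₀ (mem_univ _), fun h hh d hd =>
    euler_lagrange (G.comp S.subtypeL) (J.comp S.subtypeL) isOpen_univ hp1 (mem_univ _) hp3
      ⟨h, hh⟩ hd⟩

/-- The odd pairs in the Sobolev space. -/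
def oddSub (hσ : MeasurePreserving σ μ μ) (Ω : Set E) : Submodule ℝ (W μ Ω) where
  carrier := {p | Odd σ (p : V μ)}
  zero_mem' := (odd_iff hσ _).2 (by simp)
  add_mem' := fun h h' => Odd.add hσ h h'
  smul_mem' := fun c _ h => Odd.smul hσ h c

theorem isClosed_oddSub (hσ : MeasurePreserving σ μ μ) (Ω : Set E) :
    IsClosed (oddSub hσ Ω : Set (W μ Ω)) := by
  have : (oddSub hσ Ω : Set (W μ Ω)) = {p : W μ Ω | act hσ (p : V μ) = -(p : V μ)} :=
    Set.ext fun p => odd_iff hσ _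
  rw [this]
  exact isClosed_eq ((act hσ).continuous.comp continuous_subtype_val) continuous_subtype_val.neg

theorem weak_of_odd (hq : 2 < q) (hσ : MeasurePreserving σ μ μ) (hi : ∀ x, σ (σ x) = x)
    (hΩ : ∀ x, σ x ∈ Ω → x ∈ Ω) {P h : V μ} (hodd : Odd σ P)
    (hmem : MemLp P.1 (ENNReal.ofReal q) μ) {φ : E → ℝ} (hφ : IsTest Ω φ)
    (hh : Rep h fun x => φ x + -1 * φ (σ x)) :
    (∫ x, |P.1 x| ^ (q - 2) * P.1 x * h.1 x ∂μ = 2 * ∫ x, |P.1 x| ^ (q - 2) * P.1 x * φ x ∂μ) ∧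
      inner ℝ P.2 h.2 = 2 * ∫ x, inner ℝ (P.2 x) (gradient φ x) ∂μ := by
  have hφ' := test_comp hΩ hφ
  have i1 := integrable_dual hq.le hmem (hφ.memLp _)
  have i2 := integrable_dual hq.le hmem (hφ'.memLp _)
  constructor
  · have e1 : ∫ x, |P.1 x| ^ (q - 2) * P.1 x * h.1 x ∂μ =
        ∫ x, (|P.1 x| ^ (q - 2) * P.1 x * φ x - |P.1 x| ^ (q - 2) * P.1 x * φ (σ x)) ∂μ := by
      refine integral_congr_ae ?_
      filter_upwards [hh.1] with x e3
      rw [e3]; ring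
    have e2 := int_comp hσ fun x => |P.1 x| ^ (q - 2) * P.1 x * φ (σ x)
    have e3 : ∫ x, |P.1 (σ x)| ^ (q - 2) * P.1 (σ x) * φ (σ (σ x)) ∂μ =
        -∫ x, |P.1 x| ^ (q - 2) * P.1 x * φ x ∂μ := by
      rw [← integral_neg]
      refine integral_congr_ae (hodd.1.mono fun x hx => ?_)
      simp only [hx, hi, abs_neg, mul_neg, neg_mul]
    rw [e1, integral_sub i1 i2]
    linarith
  · have j1 : Integrable (fun x => inner ℝ (P.2 x) (gradient φ x)) μ :=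
      (L2.integrable_inner (𝕜 := ℝ) P.2 ((hφ.memLp_gradient 2).toLp _)).congr
        ((hφ.memLp_gradient (μ := μ) 2).coeFn_toLp.mono fun x hx => by simp only [hx])
    have j2 : Integrable (fun x => inner ℝ (P.2 x) (gradient (fun x => φ (σ x)) x)) μ :=
      (L2.integrable_inner (𝕜 := ℝ) P.2 ((hφ'.memLp_gradient 2).toLp _)).congr
        ((hφ'.memLp_gradient (μ := μ) 2).coeFn_toLp.mono fun x hx => by simp only [hx])
    have e1 : inner ℝ P.2 h.2 = ∫ x, (inner ℝ (P.2 x) (gradient φ x) -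
        inner ℝ (P.2 x) (gradient (fun x => φ (σ x)) x)) ∂μ := by
      rw [L2.inner_def]
      refine integral_congr_ae ?_
      filter_upwards [hh.2] with x e1
      rw [e1, gradient_add' hφ.differentiable (hφ'.smul (-1)).differentiable,
        gradient_const_mul' hφ'.differentiable, inner_add_right, inner_smul_right]
      ring
    have e2 := int_comp hσ fun x => inner ℝ (P.2 x) (gradient (fun x => φ (σ x)) x)
    have e3 : ∫ x, inner ℝ (P.2 (σ x)) (gradient (fun x => φ (σ x)) (σ x)) ∂μ =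
        -∫ x, inner ℝ (P.2 x) (gradient φ x) ∂μ := by
      rw [← integral_neg]
      refine integral_congr_ae (hodd.2.mono fun x hx => ?_)
      dsimp only
      rw [gradient_comp_iso hi hφ.differentiable, hi, inner_swap hi, hx, inner_neg_left]
    rw [e1, integral_sub j1 j2]
    linarith

theorem exists_odd_min (hN : 2 ≤ finrank ℝ E) (hq : 2 < q)
    (hq' : ((finrank ℝ E : ℝ) - 2) * q < 2 * finrank ℝ E) (hb : Bornology.IsBounded Ω)
    (ho : IsOpen Ω) (hσ : MeasurePreserving σ μ μ) (hi : ∀ x, σ (σ x) = x)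
    (hΩ : ∀ x, σ x ∈ Ω → x ∈ Ω) {p₀ : V μ} (h₀ : p₀ ∈ W μ Ω) (o₀ : Odd σ p₀)
    (n₀ : lqNorm μ q p₀.1 = 1) :
    ∃ p ∈ W μ Ω, Odd σ p ∧ lqNorm μ q p.1 = 1 ∧ ‖p.2‖ ^ 2 ∈ spec μ Ω q ∧
      ‖p.2‖ ^ 2 ≤ ‖p₀.2‖ ^ 2 := by
  have hq0 : 0 < q := by linarith
  have : Fact (1 ≤ ENNReal.ofReal q) := ⟨by
    rw [← ENNReal.ofReal_one]; exact ENNReal.ofReal_le_ofReal (by linarith)⟩
  obtain ⟨J, hJ⟩ := exists_embedding (μ := μ) hb hN hq.le hq'
  have hnorm : ∀ p, ‖J p‖ = lqNorm μ q (p : V μ).1 := fun p => by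
    rw [norm_eq_lqNorm hq0, lqNorm_congr (hJ p)]
  obtain ⟨Cp, -, hCp⟩ := poincare_W (μ := μ) hb hN
  obtain ⟨p, hodd, hp1, hp2, hp3⟩ := exists_min_sub
    ((ContinuousLinearMap.snd ℝ _ _).comp (W μ Ω).subtypeL) J hCp
    (rellich hb ho.measurableSet hN hq.le hq' J hJ) (oddSub hσ Ω) (isClosed_oddSub hσ Ω)
    (p₀ := ⟨p₀, h₀⟩) o₀ ((hnorm _).trans n₀)
  have h3 : lqNorm μ q (p : V μ).1 = 1 := (hnorm _).symm.trans hp1
  refine ⟨p, p.2, hodd, h3, ⟨(p : V μ), p.2, fun h0 => ?_, fun φ hφ => ?_⟩, hp2⟩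
  · have h4 : (p : V μ).1 = 0 := h0
    rw [h4, lqNorm_congr (Lp.coeFn_zero _ _ _)] at h3
    simp [lqNorm, hq0.ne'] at h3
  · have hψ := hφ.add ((test_comp hΩ hφ).smul (-1))
    obtain ⟨h, hh⟩ := hψ.exists_rep μ
    have hψo : ∀ x, φ (σ x) + -1 * φ (σ (σ x)) = -(φ x + -1 * φ (σ x)) := fun x => by
      rw [hi]; ring
    have hho : Odd σ (h : V μ) :=
      odd_of_ae hσ hh.1 hh.2 hψo (gradient_odd hi hψ.differentiable hψo)
    have h5 := hp3 h hho _ (hasDerivAt_norm_sq_Lp (by linarith) (J p) (J h) hp1)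
    obtain ⟨h6, h7⟩ := weak_of_odd hq hσ hi hΩ hodd ((Lp.memLp (J p)).ae_eq (hJ p)) hφ hh
    have h8 : ∫ x, |J p x| ^ (q - 2) * J p x * J h x ∂μ =
        ∫ x, |(p : V μ).1 x| ^ (q - 2) * (p : V μ).1 x * (h : V μ).1 x ∂μ := by
      refine integral_congr_ae ?_
      filter_upwards [hJ p, hJ h] with x e1 e2
      rw [e1, e2]
    change ∫ x, inner ℝ ((p : V μ).2 x) (gradient φ x) ∂μ = ‖(p : V μ).2‖ ^ 2 *
      lqNorm μ q (p : V μ).1 ^ (2 - q) * ∫ x, |(p : V μ).1 x| ^ (q - 2) * (p : V μ).1 x * φ x ∂μ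
    rw [h3, Real.one_rpow, mul_one]
    change 2 * inner ℝ (p : V μ).2 (h : V μ).2 = ‖(p : V μ).2‖ ^ 2 * _ at h5
    rw [h8, h6, h7] at h5
    linarith

end Pool.Agent.Lib.MP_eb4995_an.Cv
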