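import Mathlib
import Pool.Agent.Lib.MP_eb4995_an.Cv.Sym
import Pool.Agent.Lib.MP_eb4995_an.Cv.Lip
import Pool.Agent.Lib.MP_eb4995_an.Cv.Gap

/-!
The rectangle, its first modes and the spectral inequality in the Sobolev space.
-/

set_option linter.unusedSectionVars false

namespace Pool.Agent.Lib.MP_eb4995_an.Cv

open MeasureTheory Set Filter Topology Real
open scoped ContDiff

section General

variable {E : Type} [NormedAddCommGroup E] [InnerProductSpace ℝ E] [CompleteSpace E]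
  [MeasurableSpace E] [BorelSpace E] [FiniteDimensional ℝ E]
  {μ : Measure E} [μ.IsAddHaarMeasure] {Ω : Set E} {σ : E ≃ₗᵢ[ℝ] E} {ψ : E → ℝ} {p u : V μ}

/-- `p` is the Sobolev pair of the restriction of `ψ` to `Ω`. -/
def Mode (Ω : Set E) (ψ : E → ℝ) (p : V μ) : Prop :=
  p ∈ W μ Ω ∧ p.1 =ᵐ[μ] Ω.indicator ψ ∧ p.2 =ᵐ[μ] Ω.indicator (gradient ψ)

theorem Mode.odd (h : Mode Ω ψ p) (hσ : MeasurePreserving σ μ μ) (hi : ∀ x, σ (σ x) = x)
    (hΩ : ∀ x, σ x ∈ Ω ↔ x ∈ Ω) (hd : Differentiable ℝ ψ) (ho : ∀ x, ψ (σ x) = -ψ x) :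
    Odd σ p := by
  refine odd_of_ae hσ h.2.1 h.2.2 (fun x => ?_) fun x => ?_
  · by_cases hx : x ∈ Ω
    · rw [indicator_of_mem hx, indicator_of_mem ((hΩ x).2 hx), ho]
    · rw [indicator_of_notMem hx, indicator_of_notMem (mt (hΩ x).1 hx), neg_zero]
  · by_cases hx : x ∈ Ω
    · rw [indicator_of_mem hx, indicator_of_mem ((hΩ x).2 hx), gradient_odd hi hd ho]
    · rw [indicator_of_notMem hx, indicator_of_notMem (mt (hΩ x).1 hx), neg_zero, map_zero]

theorem Mode.perp1 (h : Mode Ω ψ p) (hσ : MeasurePreserving σ μ μ)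
    (hΩ : ∀ x, σ x ∈ Ω ↔ x ∈ Ω) (he : ∀ x, ψ (σ x) = ψ x) (hu : Odd σ u) :
    inner ℝ u.1 p.1 = 0 := by
  refine inner_zero_of_odd hσ hu h.2.1 fun x => ?_
  by_cases hx : x ∈ Ω
  · rw [indicator_of_mem hx, indicator_of_mem ((hΩ x).2 hx), he]
  · rw [indicator_of_notMem hx, indicator_of_notMem (mt (hΩ x).1 hx)]

theorem Mode.perp2 (h : Mode Ω ψ p) (hσ : MeasurePreserving σ μ μ) (hi : ∀ x, σ (σ x) = x)
    (hΩ : ∀ x, σ x ∈ Ω ↔ x ∈ Ω) (hd : Differentiable ℝ ψ) (he : ∀ x, ψ (σ x) = ψ x)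
    (hu : Odd σ u) : inner ℝ u.2 p.2 = 0 := by
  have hg : ∀ x, σ (Ω.indicator (gradient ψ) (σ x)) = Ω.indicator (gradient ψ) x := fun x => by
    by_cases hx : x ∈ Ω
    · rw [indicator_of_mem hx, indicator_of_mem ((hΩ x).2 hx), ← gradient_comp_iso hi hd]
      simp only [he]
    · rw [indicator_of_notMem hx, indicator_of_notMem (mt (hΩ x).1 hx), map_zero]
  have h1 : inner ℝ u.2 p.2 = ∫ x, inner ℝ (u.2 x) (Ω.indicator (gradient ψ) x) ∂μ := by
    rw [L2.inner_def]
    exact integral_congr_ae (h.2.2.mono fun x hx => by simp only [hx])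
  have h2 := int_comp hσ fun x => inner ℝ (u.2 x) (Ω.indicator (gradient ψ) x)
  have h3 : ∫ x, inner ℝ (u.2 (σ x)) (Ω.indicator (gradient ψ) (σ x)) ∂μ =
      -∫ x, inner ℝ (u.2 x) (Ω.indicator (gradient ψ) x) ∂μ := by
    rw [← integral_neg]
    refine integral_congr_ae (hu.2.mono fun x hx => ?_)
    dsimp only
    rw [← σ.inner_map_map, hx, hg, inner_neg_left]
  linarith

end General

/-- The plane. -/
abbrev E2 : Type := EuclideanSpace ℝ (Fin 2)

/-- The point with given coordinates. -/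
def pt (z : ℝ × ℝ) : E2 := !₂[z.1, z.2]

/-- The rectangle. -/
def rect (k : ℝ) : Set E2 := {x | x 0 ∈ side k ∧ x 1 ∈ side 1}

variable {k q : ℝ} {φ : E2 → ℝ} {p : V (volume : Measure E2)}

theorem pt_eta (x : E2) : pt (x 0, x 1) = x := by
  ext i
  fin_cases i <;> rfl

theorem pt_eq (x y : ℝ) :
    pt (x, y) = x • EuclideanSpace.single 0 1 + y • EuclideanSpace.single 1 1 := by
  ext i
  fin_cases i <;> simp [pt]

theorem continuous_pt : Continuous pt := by
  have : pt = fun z : ℝ × ℝ =>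
      z.1 • EuclideanSpace.single 0 1 + z.2 • EuclideanSpace.single 1 1 :=
    funext fun z => pt_eq z.1 z.2
  rw [this]
  fun_prop

theorem isOpen_rect (k : ℝ) : IsOpen (rect k) :=
  ((isOpen_side k).preimage (by fun_prop)).inter ((isOpen_side 1).preimage (by fun_prop))

theorem bounded_rect (hk : 0 < k) : Bornology.IsBounded (rect k) :=
  ((isCompact_Icc.prod isCompact_Icc).image continuous_pt).isBounded.subset fun x hx =>
    ⟨(x 0, x 1), ⟨side_sub hk hx.1, side_sub one_pos hx.2⟩, pt_eta x⟩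

theorem rect_mono {k' : ℝ} (h0 : 0 ≤ k') (h : k' ≤ k) : rect k ⊆ rect k' := fun x hx => by
  refine ⟨(lt_of_le_of_lt ?_ (hx.1 : |k * x 0| < π / 2) : |k' * x 0| < π / 2), hx.2⟩
  rw [abs_mul, abs_mul, abs_of_nonneg h0, abs_of_nonneg (h0.trans h)]
  gcongr

theorem int_plane (g : ℝ × ℝ → ℝ) : ∫ x : E2, g (x 0, x 1) = ∫ z, g z :=
  ((volume_preserving_finTwoArrow ℝ).comp
    (EuclideanSpace.volume_preserving_symm_measurableEquiv_toLp (Fin 2))).integral_comp
    ((MeasurableEquiv.toLp 2 (Fin 2 → ℝ)).symm.trans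
      MeasurableEquiv.finTwoArrow).measurableEmbedding g

theorem int_pt (g : E2 → ℝ) : ∫ x, g x = ∫ z, g (pt z) := by
  rw [← int_plane]
  simp only [pt_eta]

theorem int_rect (k : ℝ) (g : ℝ × ℝ → ℝ) :
    ∫ x, (rect k).indicator (fun x => g (x 0, x 1)) x = ∫ z in side k ×ˢ side 1, g z := by
  rw [← integral_indicator ((isOpen_side k).prod (isOpen_side 1)).measurableSet, ← int_plane]
  rfl

theorem grad_coord (φ : E2 → ℝ) (x : E2) (i : Fin 2) :
    fderiv ℝ φ x (EuclideanSpace.single i 1) = gradient φ x i := by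
  rw [← InnerProductSpace.toDual_symm_apply, EuclideanSpace.inner_single_right]
  simp [gradient]

theorem slice0 (h : Differentiable ℝ φ) (x y : ℝ) :
    HasDerivAt (fun x => φ (pt (x, y))) (gradient φ (pt (x, y)) 0) x := by
  have h1 : HasDerivAt (fun x => pt (x, y)) (EuclideanSpace.single 0 1) x := by
    simp only [pt_eq]
    simpa using ((hasDerivAt_id x).smul_const (EuclideanSpace.single (0 : Fin 2) (1 : ℝ))).add_const
      (y • EuclideanSpace.single (1 : Fin 2) (1 : ℝ))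
  rw [← grad_coord]
  exact (h _).hasFDerivAt.comp_hasDerivAt x h1

theorem slice1 (h : Differentiable ℝ φ) (x y : ℝ) :
    HasDerivAt (fun y => φ (pt (x, y))) (gradient φ (pt (x, y)) 1) y := by
  have h1 : HasDerivAt (fun y => pt (x, y)) (EuclideanSpace.single 1 1) y := by
    simp only [pt_eq]
    simpa using ((hasDerivAt_id y).smul_const (EuclideanSpace.single (1 : Fin 2) (1 : ℝ))).const_add
      (x • EuclideanSpace.single (0 : Fin 2) (1 : ℝ))
  rw [← grad_coord]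
  exact (h _).hasFDerivAt.comp_hasDerivAt y h1

theorem norm_sq2 (v : E2) : ‖v‖ ^ 2 = v 0 ^ 2 + v 1 ^ 2 := by
  rw [EuclideanSpace.real_norm_sq_eq, Fin.sum_univ_two]

theorem exists_mode (hk : 0 < k) {ξ : E2 → ℝ} (hξ : ContDiff ℝ ∞ ξ) :
    ∃ p : V (volume : Measure E2), Mode (rect k) (fun x => cos (k * x 0) * cos (x 1) * ξ x) p := by
  have key : ∀ t : ℝ, |t| ≤ π / 2 → cos t ≠ 0 → |t| < π / 2 := fun t h h' =>
    h.lt_of_ne fun H => h' (by rw [← cos_abs, H, cos_pi_div_two])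
  obtain ⟨p, hp⟩ := mem_of_cut (μ := volume) (bounded_rect hk) (isOpen_rect k)
    (φ₀ := fun x => cos (k * x 0) * cos (x 1)) (by fun_prop) hξ
    (fun x hx => mul_pos (cos_pos_side hx.1) (by simpa using cos_pos_side hx.2)) fun x hx h => by
      have hc : IsClosed {x : E2 | |k * x 0| ≤ π / 2 ∧ |1 * x 1| ≤ π / 2} :=
        IsClosed.and (isClosed_le (by fun_prop) continuous_const)
          (isClosed_le (by fun_prop) continuous_const)
      have hsub : rect k ⊆ {x : E2 | |k * x 0| ≤ π / 2 ∧ |1 * x 1| ≤ π / 2} :=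
        fun y hy => ⟨le_of_lt hy.1, le_of_lt hy.2⟩
      have h1 := closure_minimal hsub hc hx
      exact ⟨key _ h1.1 (left_ne_zero_of_mul h.ne'),
        key _ h1.2 (by simpa using right_ne_zero_of_mul h.ne')⟩
  exact ⟨p, hp⟩

theorem side_int (hk : 0 < k) (g : ℝ → ℝ) :
    ∫ x in side k, g (k * x) = k⁻¹ * ∫ x in (-(π / 2))..(π / 2), g x := by
  have h1 : side 1 = Ioo (-(π / 2)) (π / 2) := by
    ext x
    simp [side, abs_lt]
  have h2 := Measure.integral_comp_mul_left ((side 1).indicator g) k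
  rw [integral_indicator (isOpen_side 1).measurableSet, abs_of_pos (inv_pos.2 hk), smul_eq_mul,
    h1] at h2
  rw [intervalIntegral.integral_of_le (by linarith [pi_pos]), integral_Ioc_eq_integral_Ioo, ← h2,
    ← integral_indicator (isOpen_side k).measurableSet]
  refine integral_congr_ae (Eventually.of_forall fun x => ?_)
  by_cases hx : x ∈ side k
  · have : k * x ∈ Ioo (-(π / 2)) (π / 2) := abs_lt.1 hx
    simp only [indicator_of_mem hx, indicator_of_mem this]
  · simp only [indicator_of_notMem hx,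
      indicator_of_notMem (fun H => hx (abs_lt.2 H) : k * x ∉ Ioo (-(π / 2)) (π / 2))]

/-- A one-dimensional mode with eigenvalue `m`. -/
structure One (a : ℝ → ℝ) (m : ℝ) : Prop where
  ex : ∃ a' : ℝ → ℝ, (∀ x, HasDerivAt a (a' x) x) ∧ Continuous a' ∧
    ∫ x in (-(π / 2))..(π / 2), a' x ^ 2 = m * (π / 2)
  sq : ∫ x in (-(π / 2))..(π / 2), a x ^ 2 = π / 2

theorem one_cos : One cos 1 :=
  ⟨⟨fun x => -sin x, hasDerivAt_cos, by fun_prop, by simp⟩, by simp⟩

theorem one_sin : One (fun x => sin (2 * x)) 4 := by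
  have h1 := intervalIntegral.integral_comp_mul_left (a := -(π / 2)) (b := π / 2)
    (fun x => sin x ^ 2) (two_ne_zero (α := ℝ))
  have h2 := intervalIntegral.integral_comp_mul_left (a := -(π / 2)) (b := π / 2)
    (fun x => cos x ^ 2) (two_ne_zero (α := ℝ))
  rw [show 2 * -(π / 2) = -π by ring, show 2 * (π / 2) = π by ring] at h1 h2
  refine ⟨⟨fun x => cos (2 * x) * 2,
    fun x => by simpa using ((hasDerivAt_id x).const_mul 2).sin, by fun_prop, ?_⟩, ?_⟩
  · simp only [mul_pow]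
    rw [intervalIntegral.integral_mul_const, h2]
    simp
    ring
  · rw [h1]
    simp
    ring

theorem One.diff {a b : ℝ → ℝ} {m n : ℝ} (ha : One a m) (hb : One b n) (k : ℝ) :
    Differentiable ℝ fun x : E2 => a (k * x 0) * b (x 1) := by
  obtain ⟨a', a1, -⟩ := ha.ex
  obtain ⟨b', b1, -⟩ := hb.ex
  have da : Differentiable ℝ a := fun x => (a1 x).differentiableAt
  have db : Differentiable ℝ b := fun x => (b1 x).differentiableAt
  fun_prop

theorem Mode.norms (hk : 0 < k) {a b : ℝ → ℝ} {m n : ℝ} (ha : One a m) (hb : One b n)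
    (h : Mode (rect k) (fun x => a (k * x 0) * b (x 1)) p) :
    ‖p.1‖ ^ 2 = π ^ 2 / (4 * k) ∧ ‖p.2‖ ^ 2 = (m * k ^ 2 + n) * (π ^ 2 / (4 * k)) := by
  have hd := ha.diff hb k
  obtain ⟨a', a1, a2, a3⟩ := ha.ex
  obtain ⟨b', b1, b2, b3⟩ := hb.ex
  have ca : Continuous a := continuous_iff_continuousAt.2 fun x => (a1 x).continuousAt
  have cb : Continuous b := continuous_iff_continuousAt.2 fun x => (b1 x).continuousAt
  have i1 := side_int hk fun x => a x ^ 2
  have i2 := side_int hk fun x => a' x ^ 2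
  have i3 := side_int one_pos fun x => b x ^ 2
  have i4 := side_int one_pos fun x => b' x ^ 2
  simp only [one_mul, inv_one, ha.sq, hb.sq, a3, b3] at i1 i2 i3 i4
  have j1 := setIntegral_prod_mul (μ := volume) (ν := volume) (fun x => a (k * x) ^ 2)
    (fun y => b y ^ 2) (side k) (side 1)
  have j2 := setIntegral_prod_mul (μ := volume) (ν := volume) (fun x => a' (k * x) ^ 2)
    (fun y => b y ^ 2) (side k) (side 1)
  have j3 := setIntegral_prod_mul (μ := volume) (ν := volume) (fun x => a (k * x) ^ 2)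
    (fun y => b' y ^ 2) (side k) (side 1)
  rw [i1, i3] at j1
  rw [i2, i3] at j2
  rw [i1, i4] at j3
  constructor
  · have e : ‖p.1‖ ^ 2 = ∫ z in side k ×ˢ side 1, a (k * z.1) ^ 2 * b z.2 ^ 2 := by
      rw [sq_int, ← int_rect]
      refine integral_congr_ae (h.2.1.mono fun x hx => ?_)
      dsimp only
      rw [hx]
      by_cases hx : x ∈ rect k
      · simp only [indicator_of_mem hx, mul_pow]
      · simp [indicator_of_notMem hx]
    rw [e]
    refine j1.trans ?_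
    field_simp
    ring
  · have e : ‖p.2‖ ^ 2 = ∫ z in side k ×ˢ side 1,
        (k ^ 2 * (a' (k * z.1) ^ 2 * b z.2 ^ 2) + a (k * z.1) ^ 2 * b' z.2 ^ 2) := by
      rw [norm_sq_eq_integral, ← int_rect]
      refine integral_congr_ae (h.2.2.mono fun x hx => ?_)
      dsimp only
      rw [hx]
      by_cases hx : x ∈ rect k
      · have s0 := (slice0 hd (x 0) (x 1)).unique
          (((a1 (k * x 0)).comp (x 0) ((hasDerivAt_id (x 0)).const_mul k)).mul_const (b (x 1)))
        have s1 := (slice1 hd (x 0) (x 1)).unique ((b1 (x 1)).const_mul (a (k * x 0)))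
        rw [pt_eta] at s0 s1
        simp only [indicator_of_mem hx]
        rw [norm_sq2, s0, s1]
        ring
      · simp [indicator_of_notMem hx]
    have k1 := intOn_rect hk (f := fun z => k ^ 2 * (a' (k * z.1) ^ 2 * b z.2 ^ 2)) (by fun_prop)
    have k2 := intOn_rect hk (f := fun z => a (k * z.1) ^ 2 * b' z.2 ^ 2) (by fun_prop)
    rw [e]
    refine (integral_add k1 k2).trans ?_
    rw [integral_const_mul, j2, j3]
    field_simp
    ring

theorem mass_rect (hk : 0 < k) (hq : 1 < q) {F : ℝ × ℝ → ℝ} (hF : Continuous F)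
    (h : p.1 =ᵐ[volume] (rect k).indicator
      fun x => cos (k * x 0) * cos (x 1) * F (sin (k * x 0), sin (x 1))) :
    k * mass q p = wmass q F := by
  rw [← subst2 hk hq hF, ← int_rect]
  congr 1
  refine integral_congr_ae (h.mono fun x hx => ?_)
  dsimp only
  rw [hx]
  by_cases hx : x ∈ rect k
  · simp only [indicator_of_mem hx]
  · simp only [indicator_of_notMem hx, abs_zero]
    exact zero_rpow (by linarith)

theorem nice_of {f : E2 → ℝ} (hf : Continuous f) (h0 : ∀ x ∉ rect k, f x = 0) :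
    Nice k fun z => f (pt z) := by
  refine ⟨hf.comp continuous_pt, fun z hz => h0 _ fun H => ?_⟩
  rcases hz with hz | hz
  · exact absurd H.1 (not_lt.2 hz)
  · have h2 : |1 * z.2| < π / 2 := H.2
    rw [one_mul] at h2
    exact absurd h2 (not_lt.2 hz)

theorem inner_rep (hφ : IsTest (rect k) φ) (hp : Rep p φ) {e : Lp ℝ 2 (volume : Measure E2)}
    (g : ℝ × ℝ → ℝ) (he : e =ᵐ[volume] (rect k).indicator fun x => g (x 0, x 1)) :
    inner ℝ p.1 e = ∫ z, φ (pt z) * g z := by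
  rw [L2.inner_def, ← int_plane]
  refine integral_congr_ae ?_
  filter_upwards [hp.1, he] with x e1 e2
  rw [e1, e2, pt_eta]
  by_cases hx : x ∈ rect k
  · simp [indicator_of_mem hx, mul_comm]
  · simp [hφ.eq_zero hx]

theorem master_test (hk : 0 < k) (hk2 : 4 / 5 ≤ k ^ 2) {a b c : Lp ℝ 2 (volume : Measure E2)}
    (ha : a =ᵐ[volume] (rect k).indicator fun x => cos (k * x 0) * cos (x 1))
    (hb : b =ᵐ[volume] (rect k).indicator fun x => sin (2 * (k * x 0)) * cos (x 1))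
    (hc : c =ᵐ[volume] (rect k).indicator fun x => cos (k * x 0) * sin (2 * x 1))
    (hφ : IsTest (rect k) φ) (hp : Rep p φ) :
    7 * ‖p.1‖ ^ 2 - 4 * k / π ^ 2 * ((6 - k ^ 2) * inner ℝ p.1 a ^ 2 +
      (6 - 4 * k ^ 2) * inner ℝ p.1 b ^ 2 + (3 - k ^ 2) * inner ℝ p.1 c ^ 2) ≤ ‖p.2‖ ^ 2 := by
  have g0 : ∀ x ∉ rect k, gradient φ x = 0 := fun x hx =>
    by_contra fun H => hx (hφ.support_gradient H)
  have cg := hφ.continuous_gradient
  have n0 := nice_of (k := k) (f := fun x => gradient φ x 0) (by fun_prop)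
    fun x hx => by simp [g0 x hx]
  have n1 := nice_of (k := k) (f := fun x => gradient φ x 1) (by fun_prop)
    fun x hx => by simp [g0 x hx]
  have key := master2 hk hk2 (nice_of hφ.continuous fun x hx => hφ.eq_zero hx) n0 n1
    (slice0 hφ.differentiable) (slice1 hφ.differentiable)
  have e1 : ‖p.1‖ ^ 2 = ∫ z, φ (pt z) ^ 2 := by
    rw [sq_int, ← int_pt fun x => φ x ^ 2]
    exact integral_congr_ae (hp.1.mono fun x hx => by simp only [hx])
  have e2 : ‖p.2‖ ^ 2 = (∫ z, gradient φ (pt z) 0 ^ 2) + ∫ z, gradient φ (pt z) 1 ^ 2 := by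
    rw [hp.norm_sq, dir, int_pt]
    simp only [norm_sq2]
    exact integral_add (n0.sq.integrable hk) (n1.sq.integrable hk)
  rw [e1, e2, inner_rep hφ hp (fun z => cos (k * z.1) * cos z.2) ha,
    inner_rep hφ hp (fun z => sin (2 * (k * z.1)) * cos z.2) hb,
    inner_rep hφ hp (fun z => cos (k * z.1) * sin (2 * z.2)) hc]
  exact key

theorem closed_ineq {H K : Type} [NormedAddCommGroup H] [InnerProductSpace ℝ H]
    [NormedAddCommGroup K] (a b c : H) (r s t u : ℝ) :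
    IsClosed {p : H × K | 7 * ‖p.1‖ ^ 2 - r * (s * inner ℝ p.1 a ^ 2 + t * inner ℝ p.1 b ^ 2 +
      u * inner ℝ p.1 c ^ 2) ≤ ‖p.2‖ ^ 2} :=
  isClosed_le (by fun_prop) (by fun_prop)

theorem master (hk : 0 < k) (hk2 : 4 / 5 ≤ k ^ 2) {a b c : Lp ℝ 2 (volume : Measure E2)}
    (ha : a =ᵐ[volume] (rect k).indicator fun x => cos (k * x 0) * cos (x 1))
    (hb : b =ᵐ[volume] (rect k).indicator fun x => sin (2 * (k * x 0)) * cos (x 1))
    (hc : c =ᵐ[volume] (rect k).indicator fun x => cos (k * x 0) * sin (2 * x 1))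
    (hp : p ∈ W volume (rect k)) :
    7 * ‖p.1‖ ^ 2 - 4 * k / π ^ 2 * ((6 - k ^ 2) * inner ℝ p.1 a ^ 2 +
      (6 - 4 * k ^ 2) * inner ℝ p.1 b ^ 2 + (3 - k ^ 2) * inner ℝ p.1 c ^ 2) ≤ ‖p.2‖ ^ 2 := by
  refine closure_minimal ?_ (closed_ineq a b c _ _ _ _) (mem_W.1 hp)
  rintro _ ⟨_, hφ, hp⟩
  exact master_test hk hk2 ha hb hc hφ hp

theorem exists_refl {s t : ℝ} (hs : s = 1 ∨ s = -1) (ht : t = 1 ∨ t = -1) :
    ∃ σ : E2 ≃ₗᵢ[ℝ] E2, (∀ x, σ x 0 = s * x 0) ∧ (∀ x, σ x 1 = t * x 1) ∧ (∀ x, σ (σ x) = x) ∧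
      ∀ k x, σ x ∈ rect k ↔ x ∈ rect k := by
  have key : ∀ s : ℝ, s = 1 ∨ s = -1 → ∃ e : ℝ ≃ₗᵢ[ℝ] ℝ, ∀ x, e x = s * x := by
    rintro s (rfl | rfl)
    · exact ⟨LinearIsometryEquiv.refl ℝ ℝ, fun x => by simp⟩
    · exact ⟨LinearIsometryEquiv.neg ℝ, fun x => by simp⟩
  obtain ⟨e0, h0⟩ := key s hs
  obtain ⟨e1, h1⟩ := key t ht
  let σ : E2 ≃ₗᵢ[ℝ] E2 := LinearIsometryEquiv.piLpCongrRight 2 ![e0, e1]
  have a0 : ∀ x, σ x 0 = s * x 0 := fun x => h0 (x 0)
  have a1 : ∀ x, σ x 1 = t * x 1 := fun x => h1 (x 1)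
  refine ⟨σ, a0, a1, fun x => ?_, fun k x => ?_⟩
  · rw [← pt_eta (σ (σ x)), a0, a0, a1, a1]
    rcases hs with rfl | rfl <;> rcases ht with rfl | rfl <;> simp [pt_eta]
  · simp only [rect, side, mem_ofPred_eq, a0, a1]
    rcases hs with rfl | rfl <;> rcases ht with rfl | rfl <;> simp

end Pool.Agent.Lib.MP_eb4995_an.Cv
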