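import Mathlib
import Pool.Agent.Lib.MP_eb4995_an.Cv.Sym
import Pool.Agent.Lib.MP_eb4995_an.Cv.Lip

/-!
Three different eigenvalues between the first and the fourth Lusternik-Schnirelman value.
-/

set_option linter.unusedSectionVars false

namespace Pool.Agent.Lib.MP_eb4995_an.Cv

open MeasureTheory Set Filter Topology Module

variable {E : Type} [NormedAddCommGroup E] [InnerProductSpace ℝ E] [CompleteSpace E]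
  [MeasurableSpace E] [BorelSpace E] [FiniteDimensional ℝ E]
  {μ : Measure E} [μ.IsAddHaarMeasure] {Ω : Set E} {q A C η : ℝ}

theorem pigeon {a b c r s : ℝ} (ha : a ∈ spec μ Ω q) (hb : b ∈ spec μ Ω q) (hc : c ∈ spec μ Ω q)
    (hab : a < b) (hbc : b < c) (h1 : lamLS μ Ω q 1 ≤ r) (hr : r < a)
    (h4 : ∀ k, 4 ≤ k → (s : EReal) ≤ lamLS μ Ω q k) (hs : c < s) :
    ∃ lam ∈ spec μ Ω q, lam ∉ specLS μ Ω q := by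
  by_contra H
  have H' : ∀ lam ∈ spec μ Ω q, r < lam → lam < s →
      (lam : EReal) = lamLS μ Ω q 2 ∨ (lam : EReal) = lamLS μ Ω q 3 := by
    intro lam h hr hs
    obtain ⟨k, k1, hk⟩ : lam ∈ specLS μ Ω q := by_contra fun h' => H ⟨lam, h, h'⟩
    have a1 : k ≠ 1 := by
      rintro rfl
      rw [← hk, EReal.coe_le_coe_iff] at h1
      linarith
    have a2 : ¬4 ≤ k := fun h' => by
      have := h4 k h'
      rw [← hk, EReal.coe_le_coe_iff] at this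
      linarith
    obtain rfl | rfl : k = 2 ∨ k = 3 := by omega
    exacts [Or.inl hk, Or.inr hk]
  have ne : ∀ {x y : ℝ} {z : EReal}, x < y → (x : EReal) = z → (y : EReal) = z → False :=
    fun h e1 e2 => h.ne (EReal.coe_eq_coe_iff.1 (e1.trans e2.symm))
  rcases H' a ha hr (by linarith) with x | x <;>
    rcases H' b hb (by linarith) (by linarith) with y | y <;>
    rcases H' c hc (by linarith) hs with z | z <;>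
    first | exact ne hab x y | exact ne hbc y z | exact ne (hab.trans hbc) x z

theorem four_le (hq : 0 < q) {a b c : Lp ℝ 2 μ} {s : ℝ}
    (h : ∀ p ∈ W μ Ω, inner ℝ p.1 a = 0 → inner ℝ p.1 b = 0 → inner ℝ p.1 c = 0 →
      mass q p = 1 → s ≤ ‖p.2‖ ^ 2) (k : ℕ) (hk : 4 ≤ k) : (s : EReal) ≤ lamLS μ Ω q k := by
  refine le_iInf₂ fun F hF => ?_
  obtain ⟨-, -, h1, -, h2⟩ := hF
  obtain ⟨p, hp, h3, h4, h5⟩ := exists_perp (μ := μ) (F := F)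
    (le_trans (by exact_mod_cast hk) h2) a b c
  refine le_iSup₂_of_le p hp ?_
  rw [dirichlet_eq]
  exact_mod_cast h p (h1 hp).1 h3 h4 h5 (mass_of_lq hq (h1 hp).2)

/-- An involutive symmetry of the domain. -/
def Symm (μ : Measure E) (Ω : Set E) (σ : E ≃ₗᵢ[ℝ] E) : Prop :=
  MeasurePreserving σ μ μ ∧ (∀ x, σ (σ x) = x) ∧ ∀ x, σ x ∈ Ω → x ∈ Ω

theorem odd_min (hN : finrank ℝ E = 2) (hb : Bornology.IsBounded Ω) (ho : IsOpen Ω) (h0 : 0 < η)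
    {σ : E ≃ₗᵢ[ℝ] E} (hσ : Symm μ Ω σ) {e : V μ} (he : e ∈ W μ Ω) (oe : Odd σ e)
    (me : mass (2 + η) e = 1) :
    ∃ p ∈ W μ Ω, Odd σ p ∧ mass (2 + η) p = 1 ∧ ‖p.2‖ ^ 2 ∈ spec μ Ω (2 + η) ∧
      ‖p.2‖ ^ 2 ≤ ‖e.2‖ ^ 2 := by
  obtain ⟨p, h1, h2, h3, h4, h5⟩ := exists_odd_min hN.ge (q := 2 + η) (by linarith)
    (by rw [hN]; norm_num) hb ho hσ.1 hσ.2.1 hσ.2.2 he oe (lq_of_mass me)
  exact ⟨p, h1, h2, mass_of_lq (by linarith) h3, h4, h5⟩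

theorem smul_sq1 (t : ℝ) (e : V μ) : ‖(t • e).1‖ ^ 2 = t ^ 2 * ‖e.1‖ ^ 2 := by
  rw [Prod.smul_fst, norm_smul, mul_pow, Real.norm_eq_abs, sq_abs]

theorem smul_sq2 (t : ℝ) (e : V μ) : ‖(t • e).2‖ ^ 2 = t ^ 2 * ‖e.2‖ ^ 2 := by
  rw [Prod.smul_snd, norm_smul, mul_pow, Real.norm_eq_abs, sq_abs]

theorem class_min (hN : finrank ℝ E = 2) (hb : Bornology.IsBounded Ω) (ho : IsOpen Ω)
    (hL : LipBd μ Ω A C) (hA : 0 ≤ A) (hC : 0 ≤ C) (h0 : 0 < η) (h1 : η ≤ 1)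
    {σ : E ≃ₗᵢ[ℝ] E} (hσ : Symm μ Ω σ) {e : V μ} (he : e ∈ W μ Ω) (oe : Odd σ e) {α N lam : ℝ}
    (hα : 0 < α) (N0 : 0 < N) (me : |α| ^ (2 + η) * mass (2 + η) e = 1) (n : ‖e.1‖ ^ 2 = N)
    (d : ‖e.2‖ ^ 2 = lam * N) (h6 : lam * (α ^ 2 * N) ≤ 6)
    (hM : ∀ u ∈ W μ Ω, Odd σ u →
      7 * ‖u.1‖ ^ 2 - N⁻¹ * ((7 - lam) * inner ℝ u.1 e.1 ^ 2) ≤ ‖u.2‖ ^ 2) :
    ∃ m ∈ spec μ Ω (2 + η), lam * (α ^ 2 * N) - 360 * (A + 72 * C) * η ^ 2 ≤ m ∧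
      m ≤ lam * (α ^ 2 * N) := by
  have e1 : ‖(α • e).1‖ ^ 2 = α ^ 2 * N := by rw [smul_sq1, n]
  have e2 : ‖(α • e).2‖ ^ 2 = lam * (α ^ 2 * N) := by rw [smul_sq2, d]; ring
  rw [← mass_smul] at me
  have he' := (W μ Ω).smul_mem α he
  obtain ⟨p, p1, p2, p3, p4, p5⟩ := odd_min hN hb ho h0 hσ he' (oe.smul hσ.1 α) me
  refine ⟨_, p4, ?_, e2 ▸ p5⟩
  rw [← e2]
  refine hL.lower hA hC h0 h1 he' p1 me p3 (lam := lam) (by rw [e1]; positivity)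
    (by rw [e1, e2]) (e2 ▸ h6) (p5.trans (e2 ▸ h6)) (le_of_eq_of_le ?_ (hM p p1 p2))
  rw [e1, Prod.smul_fst, inner_smul_right]
  field_simp

theorem cs_sq {N : ℝ} (N0 : 0 < N) (u : Lp ℝ 2 μ) {e : Lp ℝ 2 μ} (n : ‖e‖ ^ 2 = N) :
    N⁻¹ * inner ℝ u e ^ 2 ≤ ‖u‖ ^ 2 := by
  rw [inv_mul_le_iff₀ N0, ← n, ← sq_abs, ← mul_pow, mul_comm]
  exact pow_le_pow_left₀ (abs_nonneg _) (abs_real_inner_le_norm u e) 2

theorem three (hN : finrank ℝ E = 2) (hb : Bornology.IsBounded Ω) (ho : IsOpen Ω)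
    (hL : LipBd μ Ω A C) (hA : 0 ≤ A) (hC : 0 ≤ C) (h0 : 0 < η) (h1 : η ≤ 1)
    {e₁ e₂ e₃ : V μ} (w₁ : e₁ ∈ W μ Ω) (w₂ : e₂ ∈ W μ Ω) (w₃ : e₃ ∈ W μ Ω) {N τ h c : ℝ}
    (N0 : 0 < N) (N3 : N ≤ 3) (n₁ : ‖e₁.1‖ ^ 2 = N) (n₂ : ‖e₂.1‖ ^ 2 = N) (n₃ : ‖e₃.1‖ ^ 2 = N)
    (d₁ : ‖e₁.2‖ ^ 2 = (2 - τ) * N) (d₂ : ‖e₂.2‖ ^ 2 = (5 - 4 * τ) * N)
    (d₃ : ‖e₃.2‖ ^ 2 = (5 - τ) * N)
    (hM : ∀ p ∈ W μ Ω, 7 * ‖p.1‖ ^ 2 - N⁻¹ * ((5 + τ) * inner ℝ p.1 e₁.1 ^ 2 +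
      (2 + 4 * τ) * inner ℝ p.1 e₂.1 ^ 2 + (2 + τ) * inner ℝ p.1 e₃.1 ^ 2) ≤ ‖p.2‖ ^ 2)
    {σ₁ σ₂ σ₃ : E ≃ₗᵢ[ℝ] E} (s₁ : Symm μ Ω σ₁) (s₂ : Symm μ Ω σ₂) (s₃ : Symm μ Ω σ₃)
    (o₁ : Odd σ₁ e₂) (o₂ : Odd σ₂ e₃) (o₃ : Odd σ₃ e₂) (o₄ : Odd σ₃ e₃)
    (p₁ : ∀ u : V μ, Odd σ₁ u → inner ℝ u.1 e₁.1 = 0 ∧ inner ℝ u.1 e₃.1 = 0)
    (p₂ : ∀ u : V μ, Odd σ₂ u → inner ℝ u.1 e₁.1 = 0 ∧ inner ℝ u.1 e₂.1 = 0)
    (p₃ : ∀ u : V μ, Odd σ₃ u → inner ℝ u.1 e₁.1 = 0) (p₄ : inner ℝ e₂.2 e₃.2 = 0)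
    (hh : h ^ 2 = 1 / 2) (c0 : 0 < c) (m₁ : mass (2 + η) e₃ = mass (2 + η) e₂)
    (m₂ : mass (2 + η) e₂ + c * η ≤ mass (2 + η) (h • (e₂ + e₃)))
    (τ0 : 0 ≤ τ) (τ1 : τ ≤ 1 / 20)
    (k₁ : η * (2 * (A + 1) + 5 * (A + C * (5 * A + 7) ^ 2)) ≤ 1 / 10)
    (k₂ : 360 * (A + 72 * C) * η ^ 2 < 27 / 10 * τ)
    (k₃ : 33 / 20 * τ + 360 * (A + 72 * C) * η ^ 2 <
      4 * (c / (2 * (9 + 5 * (A + C * 15 ^ 2) + c)) * η)) :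
    ∃ lam ∈ spec μ Ω (2 + η), lam ∉ specLS μ Ω (2 + η) := by
  have hq : 0 < 2 + η := by linarith
  have hq2 : 2 ≤ 2 + η := by linarith
  have near : ∀ p ∈ W μ Ω, mass (2 + η) p = 1 → ‖p.2‖ ^ 2 ≤ 5 * A + 7 →
      9 / 10 ≤ ‖p.1‖ ^ 2 ∧ ‖p.1‖ ^ 2 ≤ 11 / 10 := fun p hp hm hM => hL.near hC h0 h1 hp hm hM k₁
  have normal : ∀ e ∈ W μ Ω, ∀ lam α : ℝ, lam ≤ 5 → ‖e.1‖ ^ 2 = N → ‖e.2‖ ^ 2 = lam * N →
      |α| ^ (2 + η) * mass (2 + η) e = 1 → 9 / 10 ≤ α ^ 2 * N ∧ α ^ 2 * N ≤ 11 / 10 := by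
    intro e he lam α l5 n d m
    rw [← mass_smul] at m
    have he' := (W μ Ω).smul_mem α he
    have a1 := (hL η h0 h1 _ he').1
    have a2 := near _ he' m
    rw [smul_sq1, n] at a1 a2
    rw [smul_sq2, d] at a2
    rw [m] at a1
    have : 0 ≤ α ^ 2 * N := by positivity
    exact a2 (by nlinarith)
  have L1 := mass_pos hb hN hq2 w₁ (n₁ ▸ N0)
  have L2 := mass_pos hb hN hq2 w₂ (n₂ ▸ N0)
  have cη : 0 < c * η := by positivity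
  obtain ⟨γ, γ0, hγ⟩ := exists_norm hq L1
  obtain ⟨α, α0, hα⟩ := exists_norm hq L2
  obtain ⟨β, β0, hβ⟩ := exists_norm hq (show 0 < mass (2 + η) (h • (e₂ + e₃)) by linarith)
  obtain ⟨-, g1⟩ := normal e₁ w₁ _ γ (by linarith) n₁ d₁ hγ
  obtain ⟨a1, a2⟩ := normal e₂ w₂ _ α (by linarith) n₂ d₂ hα
  have l1 := lamLS_one_le (q := 2 + η) ((W μ Ω).smul_mem γ w₁)
    (lq_of_mass ((mass_smul γ e₁).trans hγ))
  have l2 : ‖(γ • e₁).2‖ ^ 2 ≤ 11 / 5 := by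
    rw [smul_sq2, d₁]
    have : 0 ≤ τ * (γ ^ 2 * N) := by positivity
    linarith
  have τn : 0 ≤ τ * (α ^ 2 * N) := by positivity
  obtain ⟨mX, X1, X2, X3⟩ := class_min hN hb ho hL hA hC h0 h1 s₁ w₂ o₁ α0 N0 hα n₂ d₂
    (by linarith) fun u hu ou => by
      have := hM u hu
      rw [(p₁ u ou).1, (p₁ u ou).2] at this
      exact le_of_eq_of_le (by ring) this
  obtain ⟨mY, Y1, Y2, Y3⟩ := class_min hN hb ho hL hA hC h0 h1 s₂ w₃ o₂ α0 N0 (m₁ ▸ hα) n₃ d₃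
    (by linarith) fun u hu ou => by
      have := hM u hu
      rw [(p₂ u ou).1, (p₂ u ou).2] at this
      exact le_of_eq_of_le (by ring) this
  have K : mass (2 + η) e₂ ≤ 9 + 5 * (A + C * 15 ^ 2) := by
    have b1 := (le_abs_self _).trans (hL.zero h0 h1 w₂)
    have b2 : ‖e₂.2‖ ^ 2 ≤ 15 := by rw [d₂]; nlinarith
    have b3 : η * (2 * ‖e₂.1‖ ^ 2 + 5 * (A + C * (‖e₂.2‖ ^ 2) ^ 2)) ≤
        1 * (2 * 3 + 5 * (A + C * 15 ^ 2)) := by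
      gcongr
      exact n₂ ▸ N3
    linarith
  have r := ratio h0 h1 α0 β0 c0 L2 K hα hβ m₂
  have x0 : 0 ≤ c / (2 * (9 + 5 * (A + C * 15 ^ 2) + c)) * η := by positivity
  generalize c / (2 * (9 + 5 * (A + C * 15 ^ 2) + c)) * η = x at r x0 k₃
  obtain ⟨p, O1, O2, O3, O4, O5⟩ := odd_min hN hb ho h0 s₃
    ((W μ Ω).smul_mem β ((W μ Ω).smul_mem h ((W μ Ω).add_mem w₂ w₃)))
    (((o₃.add s₃.1 o₄).smul s₃.1 h).smul s₃.1 β) ((mass_smul _ _).trans hβ)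
  rw [smul_sq2, smul_sq2, Prod.snd_add, norm_add_sq_real, p₄, d₂, d₃, hh] at O5
  have r2 := mul_le_mul_of_nonneg_right r (show 0 ≤ (5 - 5 / 2 * τ) * N by
    exact mul_nonneg (by linarith) N0.le)
  have O6 : ‖p.2‖ ^ 2 ≤ (5 - 5 / 2 * τ) * (α ^ 2 * N) - x * ((5 - 5 / 2 * τ) * (α ^ 2 * N)) := by
    linarith
  have O7 := mul_le_mul_of_nonneg_left (show 4 ≤ (5 - 5 / 2 * τ) * (α ^ 2 * N) by nlinarith) x0
  have τ2 := mul_le_mul_of_nonneg_left a1 τ0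
  have τ3 := mul_le_mul_of_nonneg_left a2 τ0
  have O8 : 11 / 5 < ‖p.2‖ ^ 2 := by
    have b1 := (near p O1 O3 (by linarith)).1
    have b2 := hM p O1
    rw [p₃ p O2] at b2
    have b3 := mul_le_mul_of_nonneg_left (cs_sq N0 p.1 n₂) (show 0 ≤ 2 + 4 * τ by linarith)
    have b4 := mul_le_mul_of_nonneg_left (cs_sq N0 p.1 n₃) (show 0 ≤ 2 + τ by linarith)
    have b5 := mul_le_mul_of_nonneg_right τ1 (sq_nonneg ‖p.1‖)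
    linarith
  refine pigeon O4 X1 Y1 (by linarith) (by linarith) (l1.trans (EReal.coe_le_coe_iff.2 l2)) O8
    (four_le (s := 6) hq (a := e₁.1) (b := e₂.1) (c := e₃.1) fun p hp z1 z2 z3 hm => ?_)
    (by linarith)
  have b2 := hM p hp
  rw [z1, z2, z3] at b2
  by_contra H
  have := (near p hp hm (by linarith [not_le.1 H])).1
  linarith [not_le.1 H]

end Pool.Agent.Lib.MP_eb4995_an.Cv
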