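import Mathlib
import Pool.Agent.Lib.MP_eb4995_an.Cv.Rect
import Pool.Agent.Lib.MP_eb4995_an.Cv.Three

/-!
A rectangle close to a square has, for `q` close to `2`, an eigenvalue that is not a
Lusternik-Schnirelman value.
-/

namespace Pool.Agent.Lib.MP_eb4995_an.Cv

open MeasureTheory Set Filter Topology Real Module

theorem exists_modes {k : ℝ} (hk : 0 < k) : ∃ e₁ e₂ e₃ : V (volume : Measure E2),
    Mode (rect k) (fun x => cos (k * x 0) * cos (x 1)) e₁ ∧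
    Mode (rect k) (fun x => sin (2 * (k * x 0)) * cos (x 1)) e₂ ∧
    Mode (rect k) (fun x => cos (k * x 0) * sin (2 * x 1)) e₃ := by
  obtain ⟨e₁, h₁⟩ := exists_mode hk (ξ := fun _ => 1) contDiff_const
  obtain ⟨e₂, h₂⟩ := exists_mode hk (ξ := fun x => 2 * sin (k * x 0)) (by fun_prop)
  obtain ⟨e₃, h₃⟩ := exists_mode hk (ξ := fun x => 2 * sin (x 1)) (by fun_prop)
  have a₂ : (fun x : E2 => cos (k * x 0) * cos (x 1) * (2 * sin (k * x 0))) =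
      fun x => sin (2 * (k * x 0)) * cos (x 1) := funext fun x => by rw [sin_two_mul]; ring
  have a₃ : (fun x : E2 => cos (k * x 0) * cos (x 1) * (2 * sin (x 1))) =
      fun x => cos (k * x 0) * sin (2 * x 1) := funext fun x => by rw [sin_two_mul]; ring
  rw [a₂] at h₂
  rw [a₃] at h₃
  simp only [mul_one] at h₁
  exact ⟨e₁, e₂, e₃, h₁, h₂, h₃⟩

theorem mass_modes {k q h g : ℝ} (hk : 0 < k) (hk1 : k ≤ 1) (hq : 1 < q) (g0 : 0 ≤ g)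
    {e₂ e₃ : V (volume : Measure E2)}
    (h₂ : Mode (rect k) (fun x => sin (2 * (k * x 0)) * cos (x 1)) e₂)
    (h₃ : Mode (rect k) (fun x => cos (k * x 0) * sin (2 * x 1)) e₃)
    (hg : wmass q (fun z => z.1) + g ≤ wmass q fun z => h * (z.1 + z.2)) :
    mass q e₃ = mass q e₂ ∧ mass q e₂ + g ≤ mass q (h • (e₂ + e₃)) := by
  have m₂ := mass_rect hk hq (p := e₂) (F := fun z => 2 * z.1) (by fun_prop)
    (h₂.2.1.trans (Eventually.of_forall fun x => by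
      congr 1
      exact funext fun x => by rw [sin_two_mul]; ring))
  have m₃ := mass_rect hk hq (p := e₃) (F := fun z => 2 * z.2) (by fun_prop)
    (h₃.2.1.trans (Eventually.of_forall fun x => by
      congr 1
      exact funext fun x => by rw [sin_two_mul]; ring))
  have m₄ := mass_rect hk hq (p := h • (e₂ + e₃)) (F := fun z => 2 * (h * (z.1 + z.2)))
    (by fun_prop) (by
      filter_upwards [h₂.2.1, h₃.2.1, Lp.coeFn_smul h (e₂.1 + e₃.1), Lp.coeFn_add e₂.1 e₃.1]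
        with x a1 a2 a3 a4
      rw [Prod.smul_fst, Prod.fst_add, a3, Pi.smul_apply, a4, Pi.add_apply, a1, a2]
      by_cases hx : x ∈ rect k
      · simp only [indicator_of_mem hx, sin_two_mul, smul_eq_mul]
        ring
      · simp [indicator_of_notMem hx])
  rw [wmass_mul] at m₂ m₃ m₄
  rw [← wmass_swap hq, ← m₂] at m₃
  refine ⟨mul_left_cancel₀ hk.ne' m₃, le_of_mul_le_mul_left ?_ hk⟩
  have t : 1 ≤ |(2 : ℝ)| ^ q := one_le_rpow (by norm_num) (by linarith)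
  have t1 := mul_le_mul_of_nonneg_left hg (zero_le_one.trans t)
  have t2 := mul_le_mul_of_nonneg_right (hk1.trans t) g0
  rw [mul_add, m₂, m₄]
  linarith

theorem rect_core {A C η k τ h c : ℝ} (hL : LipBd volume (rect (1 / 2)) A C) (hA : 0 ≤ A)
    (hC : 0 ≤ C) (h0 : 0 < η) (h1 : η ≤ 1) (hk : 0 < k) (hτ : k ^ 2 = 1 - τ)
    (hh : h ^ 2 = 1 / 2) (c0 : 0 < c)
    (hg : wmass (2 + η) (fun z => z.1) + c * η ≤ wmass (2 + η) fun z => h * (z.1 + z.2))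
    (τ0 : 0 ≤ τ) (τ1 : τ ≤ 1 / 20)
    (k₁ : η * (2 * (A + 1) + 5 * (A + C * (5 * A + 7) ^ 2)) ≤ 1 / 10)
    (k₂ : 360 * (A + 72 * C) * η ^ 2 < 27 / 10 * τ)
    (k₃ : 33 / 20 * τ + 360 * (A + 72 * C) * η ^ 2 <
      4 * (c / (2 * (9 + 5 * (A + C * 15 ^ 2) + c)) * η)) :
    ∃ lam ∈ spec volume (rect k) (2 + η), lam ∉ specLS volume (rect k) (2 + η) := by
  have k9 : 9 / 10 ≤ k := by nlinarith
  have k1 : k ≤ 1 := by nlinarith
  obtain ⟨e₁, e₂, e₃, h₁, h₂, h₃⟩ := exists_modes hk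
  obtain ⟨n₁, d₁⟩ := h₁.norms hk one_cos one_cos
  obtain ⟨n₂, d₂⟩ := h₂.norms hk one_sin one_cos
  obtain ⟨n₃, d₃⟩ := h₃.norms hk one_cos one_sin
  have f₂ := one_sin.diff one_cos k
  have f₃ := one_cos.diff one_sin k
  obtain ⟨m₁, m₂⟩ := mass_modes hk k1 (by linarith) (by positivity) h₂ h₃ hg
  obtain ⟨σ₁, a₁, b₁, i₁, r₁⟩ := exists_refl (s := -1) (t := 1) (Or.inr rfl) (Or.inl rfl)
  obtain ⟨σ₂, a₂, b₂, i₂, r₂⟩ := exists_refl (s := 1) (t := -1) (Or.inl rfl) (Or.inr rfl)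
  obtain ⟨σ₃, a₃, b₃, i₃, r₃⟩ := exists_refl (s := -1) (t := -1) (Or.inr rfl) (Or.inr rfl)
  have q₁ := σ₁.measurePreserving
  have q₂ := σ₂.measurePreserving
  have q₃ := σ₃.measurePreserving
  have o₁ := h₂.odd q₁ i₁ (r₁ k) f₂ fun x => by simp [a₁, b₁]
  have hp := pi_pos
  refine three (by simp) (bounded_rect hk) (isOpen_rect k)
    (hL.mono (rect_mono (by norm_num) (by linarith))) hA hC h0 h1 h₁.1 h₂.1 h₃.1
    (N := π ^ 2 / (4 * k)) (τ := τ) (by positivity) ?_ n₁ n₂ n₃ ?_ ?_ ?_ (fun p hp => ?_)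
    ⟨q₁, i₁, fun x => (r₁ k x).1⟩ ⟨q₂, i₂, fun x => (r₂ k x).1⟩ ⟨q₃, i₃, fun x => (r₃ k x).1⟩
    o₁ (h₃.odd q₂ i₂ (r₂ k) f₃ fun x => by simp [a₂, b₂])
    (h₂.odd q₃ i₃ (r₃ k) f₂ fun x => by simp [a₃, b₃])
    (h₃.odd q₃ i₃ (r₃ k) f₃ fun x => by simp [a₃, b₃])
    (fun u hu => ⟨h₁.perp1 q₁ (r₁ k) (fun x => by simp [a₁, b₁]) hu,
      h₃.perp1 q₁ (r₁ k) (fun x => by simp [a₁, b₁]) hu⟩)
    (fun u hu => ⟨h₁.perp1 q₂ (r₂ k) (fun x => by simp [a₂, b₂]) hu,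
      h₂.perp1 q₂ (r₂ k) (fun x => by simp [a₂, b₂]) hu⟩)
    (fun u hu => h₁.perp1 q₃ (r₃ k) (fun x => by simp [a₃, b₃]) hu)
    (h₃.perp2 q₁ i₁ (r₁ k) f₃ (fun x => by simp [a₁, b₁]) o₁) hh c0 m₁ m₂ τ0 τ1 k₁ k₂ k₃
  · rw [div_le_iff₀ (by positivity)]
    nlinarith [pi_lt_d2]
  · rw [d₁, hτ]; ring
  · rw [d₂, hτ]; ring
  · rw [d₃, hτ]; ring
  · have := master hk (by linarith) h₁.2.1 h₂.2.1 h₃.2.1 hp
    rw [hτ] at this
    rw [inv_div]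
    exact le_of_eq_of_le (by ring) this

theorem rect_eq {k : ℝ} (hk : 0 < k) :
    rect k = {x : E2 | |x 0| < π / 2 / k ∧ |x 1| < π / 2} := by
  ext x
  simp only [rect, side, mem_ofPred_eq, one_mul, abs_mul, abs_of_pos hk, lt_div_iff₀' hk]

theorem exists_rect : ∃ δ : ℝ, 0 < δ ∧ ∀ q : ℝ, 2 < q → q < 2 + δ → ∃ a b : ℝ, 0 < a ∧ 0 < b ∧
    ∃ lam ∈ spec volume {x : E2 | |x 0| < a ∧ |x 1| < b} q,
      lam ∉ specLS volume {x : E2 | |x 0| < a ∧ |x 1| < b} q := by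
  obtain ⟨A, C, hA, hC, hL⟩ := exists_lip (μ := volume) (bounded_rect (k := 1 / 2) (by norm_num))
    (isOpen_rect _).measurableSet (by simp)
  have hh : (√2 / 2) ^ 2 = 1 / 2 := by
    rw [div_pow, sq_sqrt (by norm_num)]; norm_num
  obtain ⟨c, c0, hc⟩ := gap hh (by positivity)
  obtain ⟨K₁, hK₁⟩ : ∃ K, K = 2 * (A + 1) + 5 * (A + C * (5 * A + 7) ^ 2) := ⟨_, rfl⟩
  obtain ⟨K₃, hK₃⟩ : ∃ K, K = 360 * (A + 72 * C) := ⟨_, rfl⟩
  obtain ⟨c₁, hc₁⟩ : ∃ K, K = c / (2 * (9 + 5 * (A + C * 15 ^ 2) + c)) := ⟨_, rfl⟩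
  have p₁ : 0 < K₁ := by rw [hK₁]; positivity
  have p₃ : 0 ≤ K₃ := by rw [hK₃]; positivity
  have p₄ : 0 < c₁ := by rw [hc₁]; positivity
  refine ⟨min (min 1 (1 / 10 / K₁)) (min (c₁ / (K₃ + 1)) (1 / 20 / (K₃ + 1))), by positivity,
    fun q h2 hq => ?_⟩
  obtain ⟨η, rfl⟩ : ∃ η, q = 2 + η := ⟨q - 2, by ring⟩
  have h0 : 0 < η := by linarith
  simp only [add_lt_add_iff_left, lt_min_iff] at hq
  obtain ⟨⟨b1, b2⟩, b3, b4⟩ := hq
  rw [lt_div_iff₀ (by positivity)] at b2 b3 b4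
  have t1 : (K₃ + 1) * η ^ 2 ≤ 1 / 20 := by nlinarith
  have t2 := mul_lt_mul_of_pos_right b3 h0
  have t3 : 0 < η ^ 2 := by positivity
  have t4 : 0 ≤ K₃ * η ^ 2 := by positivity
  have hk : 0 < √(1 - (K₃ + 1) * η ^ 2) := sqrt_pos.2 (by linarith)
  refine ⟨π / 2 / √(1 - (K₃ + 1) * η ^ 2), π / 2, by positivity, by positivity, ?_⟩
  rw [← rect_eq hk]
  refine rect_core hL hA hC h0 b1.le hk (sq_sqrt (by linarith)) hh c0 (hc η h0 b1.le)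
    (by positivity) t1 (hK₁ ▸ b2.le) ?_ ?_
  · rw [← hK₃]; linarith
  · rw [← hK₃, ← hc₁]; nlinarith

end Pool.Agent.Lib.MP_eb4995_an.Cv
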