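import Mathlib
import Pool.Agent.Lib.MP_eb4995_an.Cv.Gap

/-!
The spectral inequality on a box, by induction on the dimension.
-/

namespace Pool.Agent.Lib.MP_eb4995_an.Cv

open MeasureTheory Set Filter Topology Real Function

/-- One more coordinate. -/
def sn {m : ℕ} (x : Fin m → ℝ) (z : ℝ) : Fin (m + 1) → ℝ := Fin.snoc (α := fun _ => ℝ) x z

variable {m : ℕ} {κ : ℕ → ℝ}

theorem sn_cast (x : Fin m → ℝ) (z : ℝ) (i : Fin m) : sn x z i.castSucc = x i :=
  Fin.snoc_castSucc (α := fun _ => ℝ) z x i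

theorem sn_last (x : Fin m → ℝ) (z : ℝ) : sn x z (Fin.last m) = z :=
  Fin.snoc_last (α := fun _ => ℝ) z x

theorem sn_update (x : Fin m → ℝ) (z : ℝ) (i : Fin m) (t : ℝ) :
    sn (update x i t) z = update (sn x z) i.castSucc t :=
  Fin.snoc_update (α := fun _ => ℝ) z x i t

theorem update_sn (x : Fin m → ℝ) (z t : ℝ) : update (sn x z) (Fin.last m) t = sn x t :=
  Fin.update_snoc_last (α := fun _ => ℝ) z x t

theorem continuous_sn : Continuous fun p : ℝ × (Fin m → ℝ) => sn p.2 p.1 :=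
  Continuous.finSnoc (A := fun _ => ℝ) continuous_snd continuous_fst

theorem mp_sn : MeasurePreserving (fun p : ℝ × (Fin m → ℝ) => sn p.2 p.1)
    (volume.prod volume) volume ∧ MeasurableEmbedding fun p : ℝ × (Fin m → ℝ) => sn p.2 p.1 := by
  have e : (fun p : ℝ × (Fin m → ℝ) => sn p.2 p.1) =
      (MeasurableEquiv.piFinSuccAbove (fun _ : Fin (m + 1) => ℝ) (Fin.last m)).symm :=
    funext fun p => (Fin.insertNth_last' p.1 p.2).symm
  rw [e]
  exact ⟨(volume_preserving_piFinSuccAbove (fun _ : Fin (m + 1) => ℝ) (Fin.last m)).symm _,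
    MeasurableEquiv.measurableEmbedding _⟩

/-- Continuous and zero off the open box. -/
def NiceN (κ : ℕ → ℝ) {m : ℕ} (H : (Fin m → ℝ) → ℝ) : Prop :=
  Continuous H ∧ ∀ (x : Fin m → ℝ) (i : Fin m), π / 2 ≤ |κ i * x i| → H x = 0

theorem NiceN.mul {H G : (Fin m → ℝ) → ℝ} (h : NiceN κ H) (hG : Continuous G) :
    NiceN κ fun x => H x * G x :=
  ⟨h.1.mul hG, fun x i hi => by simp only [h.2 x i hi, zero_mul]⟩

theorem NiceN.sq {H : (Fin m → ℝ) → ℝ} (h : NiceN κ H) : NiceN κ fun x => H x ^ 2 :=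
  ⟨h.1.pow 2, fun x i hi => by simp [h.2 x i hi]⟩

theorem NiceN.compact {H : (Fin m → ℝ) → ℝ} (h : NiceN κ H) (hκ : ∀ i, 0 < κ i) :
    HasCompactSupport H := by
  refine HasCompactSupport.intro (isCompact_univ_pi fun i : Fin m =>
    isCompact_Icc (a := -(π / 2 / κ i)) (b := π / 2 / κ i)) fun x hx => ?_
  obtain ⟨i, hi⟩ : ∃ i : Fin m, x i ∉ Icc (-(π / 2 / κ i)) (π / 2 / κ i) := by
    by_contra H
    exact hx fun i _ => by_contra fun h' => H ⟨i, h'⟩
  exact h.2 x i (out_Icc (hκ i) hi)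

theorem NiceN.integrable {H : (Fin m → ℝ) → ℝ} (h : NiceN κ H) (hκ : ∀ i, 0 < κ i) :
    Integrable H :=
  h.1.integrable_of_hasCompactSupport (h.compact hκ)

section Step

variable {H u v : (Fin (m + 1) → ℝ) → ℝ}

theorem NiceN.fubini (h : NiceN κ H) (hκ : ∀ i, 0 < κ i) : ∫ y, H y = ∫ x, ∫ z, H (sn x z) := by
  rw [← mp_sn.1.integral_comp mp_sn.2 H]
  exact integral_prod_symm _ (mp_sn.1.integrable_comp_of_integrable (h.integrable hκ))

theorem NiceN.slice (h : NiceN κ H) (x : Fin m → ℝ) : Continuous fun z => H (sn x z) :=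
  h.1.comp (continuous_sn.comp (by fun_prop : Continuous fun z : ℝ => (z, x)))

theorem NiceN.slice_zero (h : NiceN κ H) (x : Fin m → ℝ) (z : ℝ) (hz : π / 2 ≤ |κ m * z|) :
    H (sn x z) = 0 :=
  h.2 _ (Fin.last m) (by rwa [sn_last])

theorem NiceN.proj (h : NiceN κ H) (hκ : ∀ i, 0 < κ i) : NiceN κ fun x => ∫ z, H (sn x z) := by
  constructor
  · rw [← continuousOn_univ]
    exact continuousOn_integral_of_compact_support (f := fun x z => H (sn x z))
      (isCompact_Icc (a := -(π / 2 / κ m)) (b := π / 2 / κ m))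
      (h.1.comp (continuous_sn.comp continuous_swap)).continuousOn
      fun x z _ hz => h.slice_zero x z (out_Icc (hκ m) hz)
  · intro x i hi
    have : ∀ z, H (sn x z) = 0 := fun z => h.2 _ i.castSucc (by rwa [sn_cast])
    simp [this]

/-- The first Fourier coefficient in the last variable. -/
noncomputable def pj (κ : ℕ → ℝ) (H : (Fin (m + 1) → ℝ) → ℝ) (x : Fin m → ℝ) : ℝ :=
  ∫ z, H (sn x z) * cos (κ m * z)

theorem NiceN.cos (h : NiceN κ H) : NiceN κ fun y => H y * cos (κ m * y (Fin.last m)) :=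
  h.mul (by fun_prop)

theorem NiceN.pj (h : NiceN κ H) (hκ : ∀ i, 0 < κ i) : NiceN κ (pj κ H) := by
  have := h.cos.proj hκ
  simp only [sn_last] at this
  exact this

theorem NiceN.bess (h : NiceN κ H) (hκ : ∀ i, 0 < κ i) :
    2 * κ m / π * ∫ x, Cv.pj κ H x ^ 2 ≤ ∫ y, H y ^ 2 := by
  rw [h.sq.fubini hκ, ← integral_const_mul]
  refine integral_mono (((h.pj hκ).sq.integrable hκ).const_mul _) ((h.sq.proj hκ).integrable hκ)
    fun x => le_trans ?_ (bessel (hκ m) (h.slice x) (h.slice_zero x))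
  have := hκ m
  exact mul_le_mul_of_nonneg_left (le_add_of_nonneg_right (sq_nonneg _)) (by positivity)

theorem NiceN.wirt (hu : NiceN κ u) (hv : NiceN κ v) (hκ : ∀ i, 0 < κ i)
    (hd : ∀ x t, HasDerivAt (fun s => u (sn x s)) (v (sn x t)) t) :
    κ m ^ 2 * (4 * (∫ y, u y ^ 2) - 3 * (2 * κ m / π * ∫ x, Cv.pj κ u x ^ 2)) ≤ ∫ y, v y ^ 2 := by
  have i0 := ((hu.sq.proj hκ).integrable hκ).const_mul 4
  have i1 := (((hu.pj hκ).sq.integrable hκ).const_mul (2 * κ m / π)).const_mul 3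
  rw [hu.sq.fubini hκ, hv.sq.fubini hκ, ← integral_const_mul 4, ← integral_const_mul (_ / _),
    ← integral_const_mul 3, ← integral_sub i0 i1, ← integral_const_mul]
  refine integral_mono ((i0.sub i1).const_mul _) ((hv.sq.proj hκ).integrable hκ) fun x =>
    le_trans (mul_le_mul_of_nonneg_left ?_ (sq_nonneg _))
      (Cv.wirt (hκ m) (hd x) (hv.slice x) (hu.slice_zero x) (hv.slice_zero x))
  have := bessel (hκ m) (hu.slice x) (hu.slice_zero x)
  unfold Cv.pj
  linarith

theorem NiceN.deriv (hu : NiceN κ u) (hv : NiceN κ v) (hκ : ∀ i, 0 < κ i) (i : Fin m)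
    (hd : ∀ x t, HasDerivAt (fun s => u (update x i.castSucc s)) (v (update x i.castSucc t)) t)
    (x : Fin m → ℝ) (t : ℝ) :
    HasDerivAt (fun s => Cv.pj κ u (update x i s)) (Cv.pj κ v (update x i t)) t := by
  obtain ⟨M, hM⟩ := hv.1.bounded_above_of_compact_support (hv.compact hκ)
  have c : ∀ {H : (Fin (m + 1) → ℝ) → ℝ}, NiceN κ H → ∀ y,
      Continuous fun z => H (sn y z) * Real.cos (κ m * z) :=
    fun h y => (h.slice y).mul (by fun_prop)
  refine (hasDerivAt_integral_of_dominated_loc_of_deriv_le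
    (F := fun s z => u (sn (update x i s) z) * Real.cos (κ m * z))
    (F' := fun s z => v (sn (update x i s) z) * Real.cos (κ m * z)) (s := univ) univ_mem
    (bound := (Icc (-(π / 2 / κ m)) (π / 2 / κ m)).indicator fun _ => M)
    (Eventually.of_forall fun s => (c hu _).aestronglyMeasurable) ?_
    (c hv _).aestronglyMeasurable (Eventually.of_forall fun z s _ => ?_) ?_
    (Eventually.of_forall fun z s _ => ?_)).2
  · exact (c hu _).integrable_of_hasCompactSupport (HasCompactSupport.intro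
      (isCompact_Icc (a := -(π / 2 / κ m)) (b := π / 2 / κ m))
      fun z hz => by rw [hu.slice_zero _ z (out_Icc (hκ m) hz), zero_mul])
  · by_cases hz : z ∈ Icc (-(π / 2 / κ m)) (π / 2 / κ m)
    · rw [indicator_of_mem hz, norm_mul]
      exact (mul_le_of_le_one_right (norm_nonneg _) (abs_cos_le_one _)).trans (hM _)
    · rw [indicator_of_notMem hz, hv.slice_zero _ z (out_Icc (hκ m) hz), zero_mul, norm_zero]
  · exact (integrableOn_const (by simp)).integrable_indicator measurableSet_Icc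
  · simp only [sn_update]
    exact (hd _ s).mul_const _

theorem NiceN.int_pj (hu : NiceN κ u) (hκ : ∀ i, 0 < κ i) {f : (Fin m → ℝ) → ℝ}
    {g : (Fin (m + 1) → ℝ) → ℝ} (hg : Continuous g)
    (h : ∀ x z, g (sn x z) = f x * Real.cos (κ m * z)) :
    ∫ y, u y * g y = ∫ x, Cv.pj κ u x * f x := by
  rw [(hu.mul hg).fubini hκ]
  refine integral_congr_ae (Eventually.of_forall fun x => ?_)
  unfold Cv.pj
  dsimp only
  rw [← integral_mul_const]
  refine integral_congr_ae (Eventually.of_forall fun z => ?_)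
  dsimp only
  rw [h]
  ring

end Step

/-- The factors of a mode. -/
noncomputable def fam (a b : ℝ → ℝ) : ℕ → ℝ → ℝ
  | 0 => a
  | 1 => b
  | _ + 2 => cos

/-- A mode of the box. -/
noncomputable def md (κ : ℕ → ℝ) (a b : ℝ → ℝ) {m : ℕ} (x : Fin m → ℝ) : ℝ :=
  ∏ i : Fin m, fam a b i (κ i * x i)

/-- The frequencies of the box. -/
def ka (k : ℝ) : ℕ → ℝ
  | 0 => k
  | 1 => 1
  | i + 2 => 2 ^ (i + 2)

/-- The energy of the additional directions. -/
def shift (n : ℕ) : ℝ := ∑ i ∈ Finset.range n, (2 ^ (i + 2)) ^ 2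

/-- The squared norm of a mode. -/
noncomputable def nrm (κ : ℕ → ℝ) (m : ℕ) : ℝ := ∏ i : Fin m, (κ i)⁻¹ * (π / 2)

theorem ka_pos {k : ℝ} (hk : 0 < k) : ∀ i, 0 < ka k i
  | 0 => hk
  | 1 => one_pos
  | i + 2 => (by positivity : (0 : ℝ) < 2 ^ (i + 2))

theorem shift_le (n : ℕ) : shift n + 7 ≤ 3 * (2 ^ (n + 2)) ^ 2 := by
  induction n with
  | zero => norm_num [shift]
  | succ n ih =>
    unfold shift at ih ⊢
    rw [Finset.sum_range_succ, show n + 1 + 2 = n + 2 + 1 from rfl, pow_succ _ (n + 2)]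
    nlinarith [sq_nonneg ((2 : ℝ) ^ (n + 2))]

theorem continuous_fam {a b : ℝ → ℝ} (ha : Continuous a) (hb : Continuous b) :
    ∀ i, Continuous (fam a b i)
  | 0 => ha
  | 1 => hb
  | _ + 2 => continuous_cos

theorem continuous_md {a b : ℝ → ℝ} (ha : Continuous a) (hb : Continuous b) :
    Continuous fun x : Fin m → ℝ => md κ a b x :=
  continuous_finsetProd _ fun i _ => (continuous_fam ha hb i).comp (by fun_prop)

theorem md_sn (a b : ℝ → ℝ) {n : ℕ} (x : Fin (n + 2) → ℝ) (z : ℝ) :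
    md κ a b (sn x z) = md κ a b x * cos (κ (n + 2) * z) := by
  unfold md
  rw [Fin.prod_univ_castSucc]
  simp only [sn_cast, sn_last, Fin.val_castSucc, Fin.val_last]
  rfl

theorem int_two (H : (Fin 2 → ℝ) → ℝ) : ∫ y, H y = ∫ z : ℝ × ℝ, H ![z.1, z.2] :=
  (((volume_preserving_finTwoArrow ℝ).symm _).integral_comp
    (MeasurableEquiv.measurableEmbedding _) H).symm

theorem NiceN.two {k : ℝ} {H : (Fin 2 → ℝ) → ℝ} (h : NiceN (ka k) H) :
    Nice k fun z => H ![z.1, z.2] := by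
  refine ⟨h.1.comp (by fun_prop), fun z hz => ?_⟩
  rcases hz with hz | hz
  · exact h.2 _ 0 hz
  · exact h.2 _ 1 (by simpa [ka] using hz)

theorem md_two (k : ℝ) (a b : ℝ → ℝ) (x y : ℝ) : md (ka k) a b ![x, y] = a (k * x) * b y := by
  simp [md, ka, fam]

theorem master0 {k : ℝ} (hk : 0 < k) (hk2 : 4 / 5 ≤ k ^ 2) (u : (Fin 2 → ℝ) → ℝ)
    (ux : Fin 2 → (Fin 2 → ℝ) → ℝ) (hu : NiceN (ka k) u) (hx : ∀ i, NiceN (ka k) (ux i))
    (hd : ∀ i x t, HasDerivAt (fun s => u (update x i s)) (ux i (update x i t)) t) :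
    (shift 0 + 7) * (∫ y, u y ^ 2) - (nrm (ka k) 2)⁻¹ *
      ((6 - k ^ 2) * (∫ y, u y * md (ka k) cos cos y) ^ 2 +
        (6 - 4 * k ^ 2) * (∫ y, u y * md (ka k) (fun t => sin (2 * t)) cos y) ^ 2 +
        (3 - k ^ 2) * (∫ y, u y * md (ka k) cos (fun t => sin (2 * t)) y) ^ 2) ≤
      ∑ i, ∫ y, ux i y ^ 2 := by
  have e0 : ∀ x y s : ℝ, update ![x, y] 0 s = ![s, y] := fun x y s => by
    ext i; fin_cases i <;> simp
  have e1 : ∀ x y s : ℝ, update ![x, y] 1 s = ![x, s] := fun x y s => by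
    ext i; fin_cases i <;> simp
  have key := master2 hk hk2 hu.two (hx 0).two (hx 1).two
    (fun x y => by simpa only [e0] using hd 0 ![x, y] x)
    (fun x y => by simpa only [e1] using hd 1 ![x, y] y)
  have e2 : (nrm (ka k) 2)⁻¹ = 4 * k / π ^ 2 := by
    simp only [nrm, Fin.prod_univ_two, ka]
    field_simp
    ring
  rw [Fin.sum_univ_two, e2]
  simp only [int_two, md_two, shift, Finset.sum_range_zero, zero_add]
  exact key

theorem masterN {k : ℝ} (hk : 0 < k) (hk2 : 4 / 5 ≤ k ^ 2) (n : ℕ) :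
    ∀ (u : (Fin (n + 2) → ℝ) → ℝ) (ux : Fin (n + 2) → (Fin (n + 2) → ℝ) → ℝ), NiceN (ka k) u →
      (∀ i, NiceN (ka k) (ux i)) →
      (∀ i x t, HasDerivAt (fun s => u (update x i s)) (ux i (update x i t)) t) →
      (shift n + 7) * (∫ y, u y ^ 2) - (nrm (ka k) (n + 2))⁻¹ *
        ((6 - k ^ 2) * (∫ y, u y * md (ka k) cos cos y) ^ 2 +
          (6 - 4 * k ^ 2) * (∫ y, u y * md (ka k) (fun t => sin (2 * t)) cos y) ^ 2 +
          (3 - k ^ 2) * (∫ y, u y * md (ka k) cos (fun t => sin (2 * t)) y) ^ 2) ≤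
        ∑ i, ∫ y, ux i y ^ 2 := by
  have hκ := ka_pos hk
  induction n with
  | zero => exact master0 hk hk2
  | succ n ih =>
    intro u ux hu hx hd
    have s2 : Continuous fun t => sin (2 * t) := by fun_prop
    have key := ih (pj (ka k) u) (fun i => pj (ka k) (ux i.castSucc)) (hu.pj hκ)
      (fun i => (hx _).pj hκ) fun i => hu.deriv (hx _) hκ i (hd _)
    rw [← hu.int_pj hκ (continuous_md continuous_cos continuous_cos) (md_sn _ _),
      ← hu.int_pj hκ (continuous_md s2 continuous_cos) (md_sn _ _),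
      ← hu.int_pj hκ (continuous_md continuous_cos s2) (md_sn _ _)] at key
    have h1 := hu.bess hκ
    have h2 := hu.wirt (hx (Fin.last _)) hκ fun x t => by
      simpa only [update_sn] using hd (Fin.last _) (sn x 0) t
    have h3 := Finset.sum_le_sum fun (i : Fin (n + 2)) (_ : i ∈ Finset.univ) =>
      (hx i.castSucc).bess hκ
    rw [← Finset.mul_sum] at h3
    have c0 : 0 < 2 * ka k (n + 2) / π := by have := hκ (n + 2); positivity
    have e1 : (nrm (ka k) (n + 2 + 1))⁻¹ = 2 * ka k (n + 2) / π * (nrm (ka k) (n + 2))⁻¹ := by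
      unfold nrm
      rw [Fin.prod_univ_castSucc, mul_inv]
      simp only [Fin.val_castSucc, Fin.val_last]
      rw [mul_comm]
      congr 1
      field_simp
    have e2 : shift (n + 1) = shift n + ka k (n + 2) ^ 2 := Finset.sum_range_succ _ _
    have h4 := mul_le_mul_of_nonneg_left key c0.le
    have h5 := mul_le_mul_of_nonneg_left h1
      (show 0 ≤ 3 * ka k (n + 2) ^ 2 - (shift n + 7) from sub_nonneg.2 (shift_le n))
    rw [Fin.sum_univ_castSucc, e2]
    refine le_trans (le_of_eq (congrArg (fun t => _ - t * _) e1)) ?_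
    linarith

theorem split_int (G : ℝ × ℝ → ℝ) (g : ℕ → ℝ → ℝ) (n : ℕ) :
    ∫ x : Fin (n + 2) → ℝ, G (x 0, x 1) * ∏ i : Fin (n + 2), g i (x i) =
      (∫ z : ℝ × ℝ, G z * (g 0 z.1 * g 1 z.2)) * ∏ i ∈ Finset.range n, ∫ t, g (i + 2) t := by
  induction n with
  | zero =>
    rw [int_two]
    simp
  | succ n ih =>
    have e0 : ∀ (x : Fin (n + 2) → ℝ) z, sn x z 0 = x 0 := fun x z => sn_cast x z 0
    have e1 : ∀ (x : Fin (n + 2) → ℝ) z, sn x z 1 = x 1 := fun x z => by
      rw [← Fin.castSucc_one, sn_cast]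
    rw [Finset.prod_range_succ, ← mul_assoc, ← ih, mul_comm, ← integral_prod_mul,
      ← mp_sn.1.integral_comp mp_sn.2]
    refine integral_congr_ae (Eventually.of_forall fun p => ?_)
    dsimp only
    rw [Fin.prod_univ_castSucc]
    simp only [sn_cast, sn_last, Fin.val_castSucc, Fin.val_last, e0, e1]
    ring

end Pool.Agent.Lib.MP_eb4995_an.Cv
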