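import Mathlib
import Pool.Agent.Lib.MP_eb4995_an.Cv.Rect
import Pool.Agent.Lib.MP_eb4995_an.Cv.NPlane

/-!
The box, its first modes and the spectral inequality in the Sobolev space.
-/

namespace Pool.Agent.Lib.MP_eb4995_an.Cv

open MeasureTheory Set Filter Topology Real Function
open scoped ContDiff

/-- The Euclidean space. -/
abbrev EN (m : ℕ) : Type := EuclideanSpace ℝ (Fin m)

/-- The box. -/
def box (κ : ℕ → ℝ) (m : ℕ) : Set (EN m) := {x | ∀ i : Fin m, x i ∈ side (κ i)}

section Any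

variable {m : ℕ} {κ : ℕ → ℝ} {φ : EN m → ℝ} {p : V (volume : Measure (EN m))}

theorem isOpen_box (κ : ℕ → ℝ) (m : ℕ) : IsOpen (box κ m) := by
  have : box κ m = ⋂ i : Fin m, (fun x : EN m => x i) ⁻¹' side (κ i) := by
    ext x; simp [box]
  rw [this]
  exact isOpen_iInter_of_finite fun i => (isOpen_side _).preimage (by fun_prop)

theorem bounded_box (hκ : ∀ i, 0 < κ i) (m : ℕ) : Bornology.IsBounded (box κ m) :=
  ((isCompact_univ_pi fun i : Fin m => isCompact_Icc (a := -(π / 2 / κ i)) (b := π / 2 / κ i)).image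
    (PiLp.continuous_toLp 2 _)).isBounded.subset fun x hx =>
      ⟨x.ofLp, fun i _ => side_sub (hκ i) (hx i), rfl⟩

theorem int_N (g : EN m → ℝ) : ∫ x, g x = ∫ y : Fin m → ℝ, g (WithLp.toLp 2 y) :=
  ((PiLp.volume_preserving_toLp (Fin m)).integral_comp
    (MeasurableEquiv.toLp 2 (Fin m → ℝ)).measurableEmbedding g).symm

theorem grad_coordN (φ : EN m → ℝ) (x : EN m) (i : Fin m) :
    fderiv ℝ φ x (EuclideanSpace.single i 1) = gradient φ x i := by
  rw [← InnerProductSpace.toDual_symm_apply, EuclideanSpace.inner_single_right]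
  simp [gradient]

theorem sliceN (h : Differentiable ℝ φ) (i : Fin m) (x : Fin m → ℝ) (t : ℝ) :
    HasDerivAt (fun s => φ (WithLp.toLp 2 (update x i s)))
      (gradient φ (WithLp.toLp 2 (update x i t)) i) t := by
  have h1 : HasDerivAt (fun s => (WithLp.toLp 2 (update x i s) : EN m))
      (EuclideanSpace.single i 1) t :=
    ((PiLp.continuousLinearEquiv 2 ℝ fun _ : Fin m => ℝ).symm :
      (Fin m → ℝ) →L[ℝ] EN m).hasFDerivAt.comp_hasDerivAt t (hasDerivAt_update x i t)
  rw [← grad_coordN]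
  exact (h _).hasFDerivAt.comp_hasDerivAt t h1

theorem fam_cos : ∀ i, fam cos cos i = cos
  | 0 => rfl
  | 1 => rfl
  | _ + 2 => rfl

theorem exists_modeN (hκ : ∀ i, 0 < κ i) {ξ : EN m → ℝ} (hξ : ContDiff ℝ ∞ ξ) :
    ∃ p : V (volume : Measure (EN m)),
      Mode (box κ m) (fun x => md κ cos cos x.ofLp * ξ x) p := by
  have key : ∀ t : ℝ, |t| ≤ π / 2 → cos t ≠ 0 → |t| < π / 2 := fun t h h' =>
    h.lt_of_ne fun H => h' (by rw [← cos_abs, H, cos_pi_div_two])
  simp only [md, fam_cos]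
  obtain ⟨p, hp⟩ := mem_of_cut (μ := volume) (bounded_box hκ m) (isOpen_box κ m)
    (φ₀ := fun x => ∏ i : Fin m, cos (κ i * x i)) (by fun_prop) hξ
    (fun x hx => Finset.prod_pos fun i _ => cos_pos_side (hx i)) fun x hx h i => by
      have hc : IsClosed {x : EN m | |κ i * x i| ≤ π / 2} :=
        isClosed_le (by fun_prop) continuous_const
      have hsub : box κ m ⊆ {x : EN m | |κ i * x i| ≤ π / 2} := fun y hy =>
        (le_of_lt (hy i : |κ i * y i| < π / 2) : |κ i * y i| ≤ π / 2)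
      exact key _ (closure_minimal hsub hc hx)
        (Finset.prod_ne_zero_iff.1 h.ne' i (Finset.mem_univ i))
  exact ⟨p, hp⟩

theorem ind_prod (g : Fin m → ℝ → ℝ) (x : EN m) :
    (box κ m).indicator (fun x => ∏ i, g i (x i)) x =
      ∏ i : Fin m, (side (κ i)).indicator (g i) (x i) := by
  by_cases hx : x ∈ box κ m
  · rw [indicator_of_mem hx]
    exact Finset.prod_congr rfl fun i _ => (indicator_of_mem (hx i) _).symm
  · obtain ⟨i, hi⟩ := not_forall.1 hx
    rw [indicator_of_notMem hx, Finset.prod_eq_zero (Finset.mem_univ i) (indicator_of_notMem hi _)]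

theorem int_box (hκ : ∀ i, 0 < κ i) (g : Fin m → ℝ → ℝ) :
    ∫ x, (box κ m).indicator (fun x => ∏ i, g i (κ i * x i)) x =
      ∏ i : Fin m, (κ i)⁻¹ * ∫ t in (-(π / 2))..(π / 2), g i t := by
  simp only [ind_prod fun i t => g i (κ i * t)]
  rw [int_N]
  refine (integral_fintype_prod_volume_eq_prod fun (i : Fin m) t =>
    (side (κ i)).indicator (fun t => g i (κ i * t)) t).trans (Finset.prod_congr rfl fun i _ => ?_)
  rw [integral_indicator (isOpen_side _).measurableSet, side_int (hκ i)]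

theorem diff_prod {a : Fin m → ℝ → ℝ} {l : Fin m → ℝ} (ha : ∀ i, One (a i) (l i)) :
    Differentiable ℝ fun x : EN m => ∏ i, a i (κ i * x i) := by
  have key : ∀ i, Differentiable ℝ fun x : EN m => a i (κ i * x i) := fun i => by
    obtain ⟨a', a1, -⟩ := (ha i).ex
    have da : Differentiable ℝ (a i) := fun x => (a1 x).differentiableAt
    fun_prop
  exact fun x => (HasFDerivAt.finsetProd fun i _ => (key i x).hasFDerivAt).differentiableAt

theorem Mode.normsN (hκ : ∀ i, 0 < κ i) {a : Fin m → ℝ → ℝ} {l : Fin m → ℝ}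
    (ha : ∀ i, One (a i) (l i)) (h : Mode (box κ m) (fun x => ∏ i, a i (κ i * x i)) p) :
    ‖p.1‖ ^ 2 = nrm κ m ∧ ‖p.2‖ ^ 2 = (∑ i : Fin m, l i * κ i ^ 2) * nrm κ m := by
  have hd := diff_prod (κ := κ) ha
  choose a' a1 a2 a3 using fun i => (ha i).ex
  have ca : ∀ i, Continuous (a i) := fun i =>
    continuous_iff_continuousAt.2 fun x => (a1 i x).continuousAt
  constructor
  · have e := int_box hκ fun i t => a i t ^ 2
    simp only [(ha _).sq] at e
    rw [sq_int]
    refine Eq.trans (integral_congr_ae (h.2.1.mono fun x hx => ?_)) e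
    dsimp only
    rw [hx]
    by_cases hx : x ∈ box κ m
    · simp only [indicator_of_mem hx, Finset.prod_pow]
    · simp [indicator_of_notMem hx]
  · let G : Fin m → Fin m → ℝ → ℝ := fun i j t => if j = i then a' i t ^ 2 else a j t ^ 2
    have cG : ∀ i j, Continuous (G i j) := fun i j => by
      by_cases hj : j = i
      · simp only [G, if_pos hj]; exact (a2 i).pow 2
      · simp only [G, if_neg hj]; exact (ca j).pow 2
    have e1 : ∀ i, ∫ x, (box κ m).indicator (fun x => ∏ j, G i j (κ j * x j)) x =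
        l i * nrm κ m := fun i => by
      rw [int_box hκ, nrm, ← Finset.mul_prod_erase _ _ (Finset.mem_univ i),
        ← Finset.mul_prod_erase _ _ (Finset.mem_univ i), ← mul_assoc]
      congr 1
      · simp only [G, if_true, a3]
        ring
      · refine Finset.prod_congr rfl fun j hj => ?_
        simp only [G, if_neg (Finset.ne_of_mem_erase hj), (ha j).sq]
    have e2 : ∀ (x : EN m) i, gradient (fun x : EN m => ∏ i, a i (κ i * x i)) x i ^ 2 =
        κ i ^ 2 * ∏ j, G i j (κ j * x j) := fun x i => by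
      have s0 := sliceN hd i x.ofLp (x i)
      have s1 : (fun s => ∏ j, a j (κ j * update x.ofLp i s j)) =
          fun s => a i (κ i * s) * ∏ j ∈ Finset.univ.erase i, a j (κ j * x j) := by
        funext s
        rw [← Finset.mul_prod_erase _ _ (Finset.mem_univ i), update_self]
        congr 1
        exact Finset.prod_congr rfl fun j hj => by rw [update_of_ne (Finset.ne_of_mem_erase hj)]
      rw [update_eq_self] at s0
      have s2 := (((a1 i (κ i * x i)).comp (x i) ((hasDerivAt_id (x i)).const_mul (κ i))).mul_const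
        (∏ j ∈ Finset.univ.erase i, a j (κ j * x j)))
      have s3 := (s1 ▸ s0 :).unique s2
      have s4 : ∏ j ∈ Finset.univ.erase i, G i j (κ j * x j) =
          (∏ j ∈ Finset.univ.erase i, a j (κ j * x j)) ^ 2 := by
        rw [← Finset.prod_pow]
        exact Finset.prod_congr rfl fun j hj => by
          simp only [G, if_neg (Finset.ne_of_mem_erase hj)]
      rw [s3, ← Finset.mul_prod_erase _ _ (Finset.mem_univ i), s4]
      simp only [G, if_true]
      ring
    have i1 : ∀ i, Integrable ((box κ m).indicator fun x => ∏ j, G i j (κ j * x j)) := fun i =>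
      memLp_one_iff_integrable.1 (memLp_ind (bounded_box hκ m) (isOpen_box κ m).measurableSet
        (continuous_finsetProd _ fun j _ => (cG i j).comp (by fun_prop)) 1)
    have e3 : ‖p.2‖ ^ 2 = ∫ x, ∑ i : Fin m,
        κ i ^ 2 * (box κ m).indicator (fun x => ∏ j, G i j (κ j * x j)) x := by
      rw [norm_sq_eq_integral]
      refine integral_congr_ae (h.2.2.mono fun x hx => ?_)
      dsimp only
      rw [hx]
      by_cases hx : x ∈ box κ m
      · simp only [indicator_of_mem hx, EuclideanSpace.real_norm_sq_eq, e2]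
      · simp [indicator_of_notMem hx]
    rw [e3, integral_finsetSum _ fun i _ => (i1 i).const_mul _, Finset.sum_mul]
    refine Finset.sum_congr rfl fun i _ => ?_
    rw [integral_const_mul, e1]
    ring

theorem nice_ofN {f : EN m → ℝ} (hf : Continuous f) (h0 : ∀ x ∉ box κ m, f x = 0) :
    NiceN κ fun y : Fin m → ℝ => f (WithLp.toLp 2 y) :=
  ⟨hf.comp (PiLp.continuous_toLp 2 _), fun _ i hi => h0 _ fun H => absurd (H i) (not_lt.2 hi)⟩

theorem inner_repN (hφ : IsTest (box κ m) φ) (hp : Rep p φ) {e : Lp ℝ 2 (volume : Measure (EN m))}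
    (g : (Fin m → ℝ) → ℝ) (he : e =ᵐ[volume] (box κ m).indicator fun x => g x.ofLp) :
    inner ℝ p.1 e = ∫ y, φ (WithLp.toLp 2 y) * g y := by
  rw [L2.inner_def]
  refine Eq.trans (integral_congr_ae ?_) (int_N fun x => φ x * g x.ofLp)
  filter_upwards [hp.1, he] with x e1 e2
  rw [e1, e2]
  by_cases hx : x ∈ box κ m
  · simp [indicator_of_mem hx, mul_comm]
  · simp [hφ.eq_zero hx]

end Any

variable {n : ℕ} {k q : ℝ} {p : V (volume : Measure (EN (n + 2)))}

theorem closed_ineqN {H K : Type} [NormedAddCommGroup H] [InnerProductSpace ℝ H]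
    [NormedAddCommGroup K] (a b c : H) (v r s t u : ℝ) :
    IsClosed {p : H × K | v * ‖p.1‖ ^ 2 - r * (s * inner ℝ p.1 a ^ 2 + t * inner ℝ p.1 b ^ 2 +
      u * inner ℝ p.1 c ^ 2) ≤ ‖p.2‖ ^ 2} :=
  isClosed_le (by fun_prop) (by fun_prop)

theorem masterW (hk : 0 < k) (hk2 : 4 / 5 ≤ k ^ 2)
    {a b c : Lp ℝ 2 (volume : Measure (EN (n + 2)))}
    (ha : a =ᵐ[volume] (box (ka k) (n + 2)).indicator fun x => md (ka k) cos cos x.ofLp)
    (hb : b =ᵐ[volume] (box (ka k) (n + 2)).indicator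
      fun x => md (ka k) (fun t => sin (2 * t)) cos x.ofLp)
    (hc : c =ᵐ[volume] (box (ka k) (n + 2)).indicator
      fun x => md (ka k) cos (fun t => sin (2 * t)) x.ofLp)
    (hp : p ∈ W volume (box (ka k) (n + 2))) :
    (shift n + 7) * ‖p.1‖ ^ 2 - (nrm (ka k) (n + 2))⁻¹ * ((6 - k ^ 2) * inner ℝ p.1 a ^ 2 +
      (6 - 4 * k ^ 2) * inner ℝ p.1 b ^ 2 + (3 - k ^ 2) * inner ℝ p.1 c ^ 2) ≤ ‖p.2‖ ^ 2 := by
  refine closure_minimal ?_ (closed_ineqN a b c _ _ _ _ _) (mem_W.1 hp)
  rintro p ⟨φ, hφ, hp⟩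
  have g0 : ∀ x ∉ box (ka k) (n + 2), gradient φ x = 0 := fun x hx =>
    by_contra fun H => hx (hφ.support_gradient H)
  have cg := hφ.continuous_gradient
  have n0 := fun i => nice_ofN (κ := ka k) (f := fun x => gradient φ x i) (by fun_prop)
    fun x hx => by simp [g0 x hx]
  have key := masterN hk hk2 n _ _ (nice_ofN hφ.continuous fun x hx => hφ.eq_zero hx) n0
    (sliceN hφ.differentiable)
  have e1 : ‖p.1‖ ^ 2 = ∫ y, φ (WithLp.toLp 2 y) ^ 2 := by
    rw [sq_int, ← int_N fun x => φ x ^ 2]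
    exact integral_congr_ae (hp.1.mono fun x hx => by simp only [hx])
  have e2 : ‖p.2‖ ^ 2 = ∑ i, ∫ y, gradient φ (WithLp.toLp 2 y) i ^ 2 := by
    rw [hp.norm_sq, dir, int_N]
    simp only [EuclideanSpace.real_norm_sq_eq]
    exact integral_finsetSum _ fun i _ => (n0 i).sq.integrable (ka_pos hk)
  rw [mem_ofPred_eq, e1, e2, inner_repN hφ hp _ ha, inner_repN hφ hp _ hb, inner_repN hφ hp _ hc]
  exact key

/-- The factor of a mode in the additional directions. -/
noncomputable def rest {n : ℕ} (x : Fin (n + 2) → ℝ) : ℝ :=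
  ∏ i : Fin n, cos (2 ^ (i + 2 : ℕ) * x i.succ.succ)

theorem md_split (k : ℝ) (a b : ℝ → ℝ) (x : Fin (n + 2) → ℝ) :
    md (ka k) a b x = a (k * x 0) * b (x 1) * rest x := by
  unfold md
  rw [Fin.prod_univ_succ, Fin.prod_univ_succ, ← mul_assoc]
  simp only [Fin.val_zero, Fin.succ_zero_eq_one, Fin.val_one, Fin.val_succ, fam, ka, one_mul]
  rfl

/-- The eigenvalues of the factors of a mode. -/
def eig (s t : ℝ) : ℕ → ℝ
  | 0 => s
  | 1 => t
  | _ + 2 => 1

theorem one_fam {a b : ℝ → ℝ} {s t : ℝ} (ha : One a s) (hb : One b t) :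
    ∀ i, One (fam a b i) (eig s t i)
  | 0 => ha
  | 1 => hb
  | _ + 2 => one_cos

theorem sum_eig (s t k : ℝ) (n : ℕ) :
    ∑ i : Fin (n + 2), eig s t i * ka k i ^ 2 = shift n + (s * k ^ 2 + t) := by
  rw [Fin.sum_univ_eq_sum_range (fun i => eig s t i * ka k i ^ 2), Finset.sum_range_succ',
    Finset.sum_range_succ']
  simp only [eig, ka, shift, one_mul]
  ring

theorem Mode.norms_md (hk : 0 < k) {a b : ℝ → ℝ} {s t : ℝ} (ha : One a s) (hb : One b t)
    (h : Mode (box (ka k) (n + 2)) (fun x => md (ka k) a b x.ofLp) p) :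
    ‖p.1‖ ^ 2 = nrm (ka k) (n + 2) ∧
      ‖p.2‖ ^ 2 = (shift n + (s * k ^ 2 + t)) * nrm (ka k) (n + 2) := by
  rw [← sum_eig]
  exact Mode.normsN (ka_pos hk) (fun i : Fin (n + 2) => one_fam ha hb i) h

theorem nrm_bd (h9 : 9 / 10 ≤ k) (n : ℕ) : 0 < nrm (ka k) (n + 2) ∧ nrm (ka k) (n + 2) ≤ 3 := by
  have hk : 0 < k := by linarith
  have hp := pi_pos
  refine ⟨Finset.prod_pos fun i _ => by have := ka_pos hk i; positivity, ?_⟩
  unfold nrm
  rw [Fin.prod_univ_succ, Fin.prod_univ_succ, ← mul_assoc]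
  simp only [Fin.val_zero, Fin.succ_zero_eq_one, Fin.val_one, Fin.val_succ, ka]
  refine (mul_le_of_le_one_right (by positivity) (Finset.prod_le_one (fun i _ => by positivity)
    fun i _ => ?_)).trans ?_
  · rw [inv_mul_le_iff₀ (by positivity), pow_add]
    nlinarith [pi_lt_four, one_le_pow₀ (n := (i : ℕ)) (one_le_two (α := ℝ))]
  · rw [mul_assoc, inv_mul_le_iff₀ hk]
    nlinarith [pi_lt_d2]

/-- The mass of the additional factors. -/
noncomputable def tail (q : ℝ) (n : ℕ) : ℝ :=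
  ∏ i ∈ Finset.range n, ∫ t in side (2 ^ (i + 2)), |cos (2 ^ (i + 2) * t)| ^ q

theorem tail_ge (hq : 1 < q) (hq' : q ≤ 3) (n : ℕ) :
    ∏ i ∈ Finset.range n, ((2 : ℝ) ^ (i + 2))⁻¹ ≤ tail q n := by
  refine Finset.prod_le_prod (fun i _ => by positivity) fun i _ => ?_
  have hκ : (0 : ℝ) < 2 ^ (i + 2) := by positivity
  rw [side_int hκ fun t => |cos t| ^ q]
  refine le_mul_of_one_le_right (by positivity) ?_
  have h1 : ∫ t in (-(π / 2))..(π / 2), cos t ^ 3 = 4 / 3 := by
    rw [integral_cos_pow_three]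
    simp
    norm_num
  refine le_trans (by rw [h1]; norm_num) (intervalIntegral.integral_mono
    (f := fun t => cos t ^ 3) (by linarith [pi_pos])
    ((continuous_cos.pow 3).intervalIntegrable _ _)
    ((cont_pow hq continuous_cos).intervalIntegrable _ _) fun t => ?_)
  have h2 := rpow_le_rpow_of_exponent_ge' (abs_nonneg (cos t)) (abs_cos_le_one t)
    (show 0 ≤ q by linarith) (show q ≤ ((3 : ℕ) : ℝ) by exact_mod_cast hq')
  rw [rpow_natCast, ← abs_pow] at h2
  exact (le_abs_self _).trans h2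

theorem mass_box (hk : 0 < k) (hq : 1 < q) {F : ℝ × ℝ → ℝ} (hF : Continuous F)
    (h : p.1 =ᵐ[volume] (box (ka k) (n + 2)).indicator
      fun x => md (ka k) cos cos x.ofLp * F (sin (k * x 0), sin (x 1))) :
    k * mass q p = wmass q F * tail q n := by
  let g : ℕ → ℝ → ℝ := fun i => (side (ka k i)).indicator fun t => |cos (ka k i * t)| ^ q
  have e1 : mass q p = ∫ x : Fin (n + 2) → ℝ,
      |F (sin (k * x 0), sin (x 1))| ^ q * ∏ i : Fin (n + 2), g i (x i) := by
    refine Eq.trans (integral_congr_ae (h.mono fun x hx => ?_)) (int_N fun x =>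
      |F (sin (k * x 0), sin (x 1))| ^ q * ∏ i : Fin (n + 2), g i (x i))
    dsimp only
    rw [hx, ← ind_prod fun i t => |cos (ka k i * t)| ^ q]
    by_cases hx : x ∈ box (ka k) (n + 2)
    · simp only [indicator_of_mem hx, md, fam_cos]
      rw [abs_mul, mul_rpow (abs_nonneg _) (abs_nonneg _), Finset.abs_prod,
        finsetProd_rpow _ _ fun i _ => abs_nonneg _, mul_comm]
    · simp only [indicator_of_notMem hx, abs_zero, mul_zero]
      exact zero_rpow (by linarith)
  rw [e1, split_int (fun z => |F (sin (k * z.1), sin z.2)| ^ q) g n, ← subst2 hk hq hF,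
    ← mul_assoc]
  congr 1
  · congr 1
    rw [← integral_indicator ((isOpen_side k).prod (isOpen_side 1)).measurableSet]
    refine integral_congr_ae (Eventually.of_forall fun z => ?_)
    simp only [g, ka, one_mul]
    by_cases h1 : z.1 ∈ side k
    · by_cases h2 : z.2 ∈ side 1
      · rw [indicator_of_mem h1, indicator_of_mem h2, indicator_of_mem (mem_prod.2 ⟨h1, h2⟩),
          abs_mul, abs_mul, mul_rpow (by positivity) (abs_nonneg _),
          mul_rpow (abs_nonneg _) (abs_nonneg _), mul_comm]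
      · rw [indicator_of_notMem h2, indicator_of_notMem fun H => h2 (mem_prod.1 H).2]
        simp
    · rw [indicator_of_notMem h1, indicator_of_notMem fun H => h1 (mem_prod.1 H).1]
      simp
  · exact Finset.prod_congr rfl fun i _ => integral_indicator (isOpen_side _).measurableSet

theorem exists_reflN (n : ℕ) {s t : ℝ} (hs : s = 1 ∨ s = -1) (ht : t = 1 ∨ t = -1) :
    ∃ σ : EN (n + 2) ≃ₗᵢ[ℝ] EN (n + 2), (∀ x, σ (σ x) = x) ∧
      (∀ κ x, σ x ∈ box κ (n + 2) ↔ x ∈ box κ (n + 2)) ∧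
      ∀ k a b x, md (ka k) a b (σ x).ofLp = a (k * (s * x 0)) * b (t * x 1) * rest x.ofLp := by
  have key : ∀ s : ℝ, s = 1 ∨ s = -1 → ∃ e : ℝ ≃ₗᵢ[ℝ] ℝ, ∀ x, e x = s * x := by
    rintro s (rfl | rfl)
    · exact ⟨LinearIsometryEquiv.refl ℝ ℝ, fun x => by simp⟩
    · exact ⟨LinearIsometryEquiv.neg ℝ, fun x => by simp⟩
  have sg : ∀ i, eig s t i = 1 ∨ eig s t i = -1
    | 0 => hs
    | 1 => ht
    | _ + 2 => Or.inl rfl
  choose e he using fun i : Fin (n + 2) => key _ (sg i)
  let σ : EN (n + 2) ≃ₗᵢ[ℝ] EN (n + 2) := LinearIsometryEquiv.piLpCongrRight 2 e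
  have a : ∀ x (i : Fin (n + 2)), σ x i = eig s t i * x i := fun x i => he i (x i)
  refine ⟨σ, fun x => ?_, fun κ x => forall_congr' fun i => ?_, fun k a' b' x => ?_⟩
  · ext i
    rw [a, a]
    rcases sg i with h | h <;> simp [h]
  · rw [a]
    rcases sg i with h | h <;> simp [h, side]
  · rw [md_split, rest, rest]
    simp only [a, Fin.val_zero, Fin.val_one, Fin.val_succ, eig, one_mul]

theorem box_mono {k' : ℝ} (h0 : 0 ≤ k') (h : k' ≤ k) (m : ℕ) : box (ka k) m ⊆ box (ka k') m := by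
  have key : ∀ i, side (ka k i) ⊆ side (ka k' i)
    | 0 => fun x hx => lt_of_le_of_lt (by
        change |k' * x| ≤ |k * x|
        rw [abs_mul, abs_mul, abs_of_nonneg h0, abs_of_nonneg (h0.trans h)]
        gcongr) (hx : |k * x| < π / 2)
    | 1 => Subset.rfl
    | _ + 2 => Subset.rfl
  exact fun x hx i => key i (hx i)

end Pool.Agent.Lib.MP_eb4995_an.Cv
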