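import Mathlib
import Pool.Agent.Lib.MP_eb4995_an.Cv.Three

/-!
The `L^q` mass for `q` near `2` in every dimension.
-/

set_option linter.unusedSectionVars false

namespace Pool.Agent.Lib.MP_eb4995_an.Cv

open MeasureTheory Set Filter Topology Module

theorem deriv_bdN {γ η t : ℝ} (h0 : 0 < η) (h1 : η ≤ γ / 2) (ht : 0 ≤ t) :
    |(2 + η) * t ^ (1 + η) - 2 * t| ≤ η * (3 + 4 / γ) * (1 + t ^ (1 + γ)) := by
  have γ0 : 0 < γ := by linarith
  rcases ht.eq_or_lt with rfl | ht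
  · rw [Real.zero_rpow (by linarith)]
    simp only [mul_zero, sub_self, abs_zero]
    positivity
  have z0 := Real.rpow_pos_of_pos ht (1 + γ)
  have y0 := Real.rpow_pos_of_pos ht η
  have e : η * (3 + 4 / γ) * (1 + t ^ (1 + γ)) =
      3 * η + η * (4 / γ) + 3 * (η * t ^ (1 + γ)) + η * (4 / γ * t ^ (1 + γ)) := by ring
  have p1 : 0 < η * (4 / γ) := by positivity
  have p2 : 0 < η * t ^ (1 + γ) := by positivity
  have p3 : 0 < η * (4 / γ * t ^ (1 + γ)) := by positivity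
  have p4 : 0 < η * (t * t ^ η) := by positivity
  rw [e, Real.rpow_add ht, Real.rpow_one, abs_le]
  rcases le_total t 1 with h | h
  · have a1 : t ^ η ≤ 1 := Real.rpow_le_one ht.le h h0.le
    have a2 : 1 + η * Real.log t ≤ t ^ η := by
      rw [Real.rpow_def_of_pos ht]
      linarith [Real.add_one_le_exp (Real.log t * η)]
    have a3 : t - 1 ≤ t * Real.log t := Real.self_sub_one_le_mul_log ht.le
    have b1 := mul_le_mul_of_nonneg_left a1 ht.le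
    have b2 := mul_le_mul_of_nonneg_left a2 ht.le
    have b3 := mul_le_mul_of_nonneg_left a3 h0.le
    have b4 := mul_le_mul_of_nonneg_left (show t * t ^ η ≤ 1 by linarith) h0.le
    have b5 : 0 < η * t := by positivity
    constructor <;> linarith
  · have a1 : 1 ≤ t ^ η := Real.one_le_rpow h h0.le
    have a2 : t ^ η - 1 ≤ t ^ η * (η * Real.log t) := by
      rw [← Real.log_rpow ht]
      exact Real.self_sub_one_le_mul_log y0.le
    have a3 : Real.log t ≤ t ^ (γ / 2) / (γ / 2) := Real.log_le_rpow_div ht.le (by linarith)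
    have a4 : t * t ^ η * t ^ (γ / 2) ≤ t ^ (1 + γ) := by
      have := Real.rpow_le_rpow_of_exponent_le h (show 1 + η + γ / 2 ≤ 1 + γ by linarith)
      rwa [Real.rpow_add ht, Real.rpow_add ht, Real.rpow_one] at this
    have a5 : t * t ^ η ≤ t ^ (1 + γ) := by
      have := Real.rpow_le_rpow_of_exponent_le h (show 1 + η ≤ 1 + γ by linarith)
      rwa [Real.rpow_add ht, Real.rpow_one] at this
    have b1 := mul_le_mul_of_nonneg_left a1 ht.le
    have b2 := mul_le_mul_of_nonneg_left a2 ht.le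
    have b3 := mul_le_mul_of_nonneg_left a3 p4.le
    have b4 := mul_le_mul_of_nonneg_left a4 p1.le
    have b5 := mul_le_mul_of_nonneg_left a5 h0.le
    have b6 : η * (t * t ^ η) * (t ^ (γ / 2) / (γ / 2)) =
        η * (4 / γ) * (t * t ^ η * t ^ (γ / 2)) / 2 := by
      field_simp
      ring
    constructor <;> linarith

theorem lipN {γ η θ a b : ℝ} (h0 : 0 < η) (h1 : η ≤ γ / 2) (hθ : 0 < θ) :
    |(|a| ^ (2 + η) - a ^ 2) - (|b| ^ (2 + η) - b ^ 2)| ≤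
      η * ((a - b) ^ 2 / θ +
        θ * (3 + 4 / γ) ^ 2 * (1 + |a| ^ (2 + 2 * γ) + |b| ^ (2 + 2 * γ))) := by
  have γ0 : 0 < γ := by linarith
  have A0 := Real.rpow_nonneg (abs_nonneg a) (1 + γ)
  have B0 := Real.rpow_nonneg (abs_nonneg b) (1 + γ)
  have key := Convex.norm_image_sub_le_of_norm_hasDerivWithin_le
    (f := fun t : ℝ => t ^ (2 + η) - t ^ 2) (f' := fun t => (2 + η) * t ^ (1 + η) - 2 * t)
    (s := uIcc |b| |a|) (C := η * (3 + 4 / γ) * (1 + |a| ^ (1 + γ) + |b| ^ (1 + γ)))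
    (x := |b|) (y := |a|)
    (fun t _ => by
      have := (Real.hasDerivAt_rpow_const (x := t) (p := 2 + η) (Or.inr (by linarith))).sub
        (hasDerivAt_pow 2 t)
      rw [show 2 + η - 1 = 1 + η by ring] at this
      exact (this.congr_deriv (by simp)).hasDerivWithinAt)
    (fun t ht => by
      have t0 : 0 ≤ t := le_trans (le_min (abs_nonneg _) (abs_nonneg _)) ht.1
      refine (deriv_bdN h0 h1 t0).trans ?_
      have : t ^ (1 + γ) ≤ |a| ^ (1 + γ) + |b| ^ (1 + γ) := by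
        rcases le_max_iff.1 ht.2 with h | h
        · linarith [Real.rpow_le_rpow t0 h (show 0 ≤ 1 + γ by linarith)]
        · linarith [Real.rpow_le_rpow t0 h (show 0 ≤ 1 + γ by linarith)]
      exact mul_le_mul_of_nonneg_left (by linarith) (by positivity))
    (convex_uIcc _ _) left_mem_uIcc right_mem_uIcc
  simp only [Real.norm_eq_abs, sq_abs] at key
  refine (key.trans (mul_le_mul_of_nonneg_left (abs_abs_sub_abs_le_abs_sub a b)
    (by positivity))).trans ?_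
  have e : ∀ x : ℝ, |x| ^ (2 + 2 * γ) = (|x| ^ (1 + γ)) ^ 2 := fun x => by
    rw [← Real.rpow_two, ← Real.rpow_mul (abs_nonneg x)]
    congr 1
    ring
  rw [e, e, ← sq_abs (a - b), mul_assoc, mul_assoc]
  refine mul_le_mul_of_nonneg_left ?_ h0.le
  generalize |a - b| = d
  generalize |a| ^ (1 + γ) = A at *
  generalize |b| ^ (1 + γ) = B at *
  generalize 3 + 4 / γ = c
  have e1 : (1 + A + B) ^ 2 ≤ 4 * (1 + A ^ 2 + B ^ 2) := by
    nlinarith [sq_nonneg (A - 1), sq_nonneg (B - 1), sq_nonneg (A - B)]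
  generalize 1 + A + B = g at *
  generalize 1 + A ^ 2 + B ^ 2 = G at *
  rw [div_add' _ _ _ hθ.ne', le_div_iff₀ hθ]
  nlinarith [sq_nonneg (2 * d - θ * c * g), mul_le_mul_of_nonneg_left e1 (sq_nonneg (θ * c))]

variable {E : Type} [NormedAddCommGroup E] [InnerProductSpace ℝ E] [CompleteSpace E]
  [MeasurableSpace E] [BorelSpace E] [FiniteDimensional ℝ E]
  {μ : Measure E} [μ.IsAddHaarMeasure] {Ω : Set E} {q : ℝ}

theorem int_massN (hb : Bornology.IsBounded Ω) (hN : 2 ≤ finrank ℝ E) (hq : 2 ≤ q)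
    (hq' : ((finrank ℝ E : ℝ) - 2) * q < 2 * finrank ℝ E) {p : V μ} (hp : p ∈ W μ Ω) :
    Integrable (fun x => |p.1 x| ^ q) μ := by
  obtain ⟨C, -, hC⟩ := sobolev_W (μ := μ) hb hN hq hq'
  exact integrable_rpow (by linarith) (hC p hp).1

theorem mass_posN (hq : 0 < q) {p : V μ} (hi : Integrable (fun x => |p.1 x| ^ q) μ)
    (h0 : 0 < ‖p.1‖ ^ 2) : 0 < mass q p := by
  refine (mass_nonneg p).lt_of_ne' fun H => h0.ne' ?_
  have h1 := (integral_eq_zero_iff_of_nonneg (fun x => by positivity) hi).1 H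
  rw [sq_int]
  refine integral_eq_zero_of_ae (h1.mono fun x hx => ?_)
  have h2 : |p.1 x| ^ q = 0 := hx
  rw [Real.rpow_eq_zero (abs_nonneg _) hq.ne', abs_eq_zero] at h2
  simp [h2]

/-- The two estimates on the mass used below. -/
def LipN (μ : Measure E) (Ω : Set E) (η A M K : ℝ) : Prop :=
  ∀ p ∈ W μ Ω, ‖p.1‖ ^ 2 ≤ A + mass (2 + η) p ∧
    ∀ p' ∈ W μ Ω, ‖p.2‖ ^ 2 ≤ M → ‖p'.2‖ ^ 2 ≤ M → ∀ θ : ℝ, 0 < θ →
      |(mass (2 + η) p - ‖p.1‖ ^ 2) - (mass (2 + η) p' - ‖p'.1‖ ^ 2)| ≤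
        η * (‖p.1 - p'.1‖ ^ 2 / θ + θ * K)

variable {η A M K : ℝ}

theorem LipN.mono {Ω' : Set E} (h : LipN μ Ω η A M K) (hΩ : Ω' ⊆ Ω) : LipN μ Ω' η A M K :=
  fun p hp => ⟨(h p (W_mono hΩ hp)).1, fun p' hp' => (h p (W_mono hΩ hp)).2 p' (W_mono hΩ hp')⟩

theorem exists_lipN (hb : Bornology.IsBounded Ω) (hm : MeasurableSet Ω) (hN : 2 ≤ finrank ℝ E) :
    ∃ η₀ A : ℝ, 0 < η₀ ∧ 0 ≤ A ∧ ∀ M : ℝ, ∃ K : ℝ, 0 ≤ K ∧ ∀ η, 0 < η → η ≤ η₀ →
      ((finrank ℝ E : ℝ) - 2) * (2 + η) < 2 * finrank ℝ E ∧ LipN μ Ω η A M K := by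
  have N2 : (2 : ℝ) ≤ finrank ℝ E := by exact_mod_cast hN
  obtain ⟨γ, γ0, hγ⟩ : ∃ γ : ℝ, 0 < γ ∧ (finrank ℝ E : ℝ) * γ = 1 :=
    ⟨(finrank ℝ E : ℝ)⁻¹, by positivity, mul_inv_cancel₀ (by positivity)⟩
  have r0 : 0 < 2 + 2 * γ := by linarith
  obtain ⟨C, hC0, hC⟩ := sobolev_W (μ := μ) hb hN (r := 2 + 2 * γ) (by linarith) (by nlinarith)
  have i1 : Integrable (Ω.indicator fun _ => (1 : ℝ)) μ :=
    (integrableOn_const hb.measure_lt_top.ne).integrable_indicator hm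
  have A0 : 0 ≤ ∫ x, Ω.indicator (fun _ => (1 : ℝ)) x ∂μ :=
    integral_nonneg fun x => indicator_nonneg (fun _ _ => zero_le_one) x
  refine ⟨γ / 2, _, by positivity, A0, fun M => ⟨(3 + 4 / γ) ^ 2 *
    (∫ x, Ω.indicator (fun _ => (1 : ℝ)) x ∂μ + (C * √M) ^ (2 + 2 * γ) + (C * √M) ^ (2 + 2 * γ)),
    by positivity, fun η h0 h1 => ?_⟩⟩
  have hq' : ((finrank ℝ E : ℝ) - 2) * (2 + η) < 2 * finrank ℝ E := by
    nlinarith [mul_le_mul_of_nonneg_left h1 (sub_nonneg.2 N2)]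
  have bd : ∀ p ∈ W μ Ω, ‖p.2‖ ^ 2 ≤ M →
      ∫ x, |p.1 x| ^ (2 + 2 * γ) ∂μ ≤ (C * √M) ^ (2 + 2 * γ) := fun p hp hM => by
    rw [← lqNorm_rpow r0]
    exact Real.rpow_le_rpow (lqNorm_nonneg _) ((hC p hp).2.trans
      (mul_le_mul_of_nonneg_left (Real.le_sqrt_of_sq_le hM) hC0.le)) r0.le
  refine ⟨hq', fun p hp => ⟨?_, fun p' hp' hM hM' θ hθ => ?_⟩⟩
  · have i2 := int_massN hb hN (q := 2 + η) (by linarith) hq' hp
    rw [sq_int, mass, ← integral_add i1 i2]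
    refine integral_mono_ae (int_sq _) (i1.add i2) ((zero_off hp).mono fun x hx => ?_)
    dsimp only
    by_cases h : x ∈ Ω
    · rw [indicator_of_mem h, ← sq_abs]
      have a0 := abs_nonneg (p.1 x)
      generalize |p.1 x| = a at *
      rcases le_total a 1 with h2 | h2
      · nlinarith [Real.rpow_nonneg a0 (2 + η)]
      · have := Real.rpow_le_rpow_of_exponent_le h2 (show (2 : ℝ) ≤ 2 + η by linarith)
        rw [Real.rpow_two] at this
        linarith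
    · rw [indicator_of_notMem h, hx h]
      simp [Real.rpow_nonneg]
  · have i2 := int_massN hb hN (q := 2 + η) (by linarith) hq' hp
    have i3 := int_massN hb hN (q := 2 + η) (by linarith) hq' hp'
    have i4 := integrable_rpow r0 (hC p hp).1
    have i5 := integrable_rpow r0 (hC p' hp').1
    have j1 := (int_sq (p.1 - p'.1)).div_const θ
    have j2 := ((i1.add i4).add i5).const_mul (θ * (3 + 4 / γ) ^ 2)
    simp only [Pi.add_apply] at j2
    have k1 : Integrable (fun x => |p.1 x| ^ (2 + η) - p.1 x ^ 2) μ := i2.sub (int_sq p.1)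
    have k2 : Integrable (fun x => |p'.1 x| ^ (2 + η) - p'.1 x ^ 2) μ := i3.sub (int_sq p'.1)
    have k3 : Integrable (fun x => Ω.indicator (fun _ => (1 : ℝ)) x + |p.1 x| ^ (2 + 2 * γ)) μ :=
      i1.add i4
    have key := norm_integral_le_of_norm_le (μ := μ)
      (f := fun x => (|p.1 x| ^ (2 + η) - p.1 x ^ 2) - (|p'.1 x| ^ (2 + η) - p'.1 x ^ 2))
      ((j1.add j2).const_mul η) (by
        filter_upwards [zero_off hp, zero_off hp', Lp.coeFn_sub p.1 p'.1] with x e1 e2 e3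
        simp only [Pi.add_apply]
        rw [e3, Pi.sub_apply, Real.norm_eq_abs]
        by_cases h : x ∈ Ω
        · rw [indicator_of_mem h]
          exact lipN h0 h1 hθ
        · rw [indicator_of_notMem h, e1 h, e2 h, sub_self, abs_zero]
          positivity)
    simp only [Pi.add_apply] at key
    rw [integral_sub k1 k2, integral_sub i2 (int_sq _), integral_sub i3 (int_sq _),
      integral_const_mul, integral_add j1 j2, integral_div, integral_const_mul,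
      integral_add k3 i5, integral_add i1 i4, ← sq_int, ← sq_int, ← sq_int,
      Real.norm_eq_abs, mul_assoc θ] at key
    refine key.trans ?_
    have := bd p hp hM
    have := bd p' hp' hM'
    gcongr

theorem LipN.zero (h : LipN μ Ω η A M K) (h0 : 0 < η) {p : V μ} (hp : p ∈ W μ Ω)
    (hM : ‖p.2‖ ^ 2 ≤ M) : |mass (2 + η) p - ‖p.1‖ ^ 2| ≤ η * (‖p.1‖ ^ 2 + K) := by
  have := (h p hp).2 0 (W μ Ω).zero_mem hM (by simpa using (sq_nonneg _).trans hM) 1 one_pos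
  simpa [mass_zero (show 0 < 2 + η by linarith)] using this

theorem LipN.near (h : LipN μ Ω η A M K) (h0 : 0 < η) {p : V μ} (hp : p ∈ W μ Ω)
    (hm : mass (2 + η) p = 1) (hM : ‖p.2‖ ^ 2 ≤ M) {T lam : ℝ}
    (hs : T * (η * (A + 1 + K)) ≤ 1 / 10) (l0 : 0 ≤ lam) (l1 : lam ≤ T) :
    lam - 1 / 10 ≤ lam * ‖p.1‖ ^ 2 ∧ lam * ‖p.1‖ ^ 2 ≤ lam + 1 / 10 := by
  have a1 := (h p hp).1
  have a2 := h.zero h0 hp hM
  rw [hm] at a1 a2
  have a3 : η * (‖p.1‖ ^ 2 + K) ≤ η * (A + 1 + K) := by gcongr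
  have a4 := mul_le_mul l1 (a2.trans a3) (abs_nonneg _) (l0.trans l1)
  rw [← abs_of_nonneg l0, ← abs_mul] at a4
  have := abs_le.1 (a4.trans hs)
  constructor <;> linarith [this.1, this.2]

theorem LipN.lower (h : LipN μ Ω η A M K) (hK : 0 ≤ K) (h0 : 0 < η)
    {e u : V μ} (he : e ∈ W μ Ω) (hu : u ∈ W μ Ω) (me : mass (2 + η) e = 1)
    (mu : mass (2 + η) u = 1) {lam T : ℝ} (n0 : 0 < ‖e.1‖ ^ 2) (T0 : 0 < T) (TM : T ≤ M)
    (hD : ‖e.2‖ ^ 2 = lam * ‖e.1‖ ^ 2) (h6 : ‖e.2‖ ^ 2 ≤ T) (u6 : ‖u.2‖ ^ 2 ≤ T)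
    (hM : (T + 1) * ‖u.1‖ ^ 2 - (T + 1 - lam) * (inner ℝ u.1 e.1 ^ 2 / ‖e.1‖ ^ 2) ≤ ‖u.2‖ ^ 2) :
    ‖e.2‖ ^ 2 - T ^ 2 * K * η ^ 2 ≤ ‖u.2‖ ^ 2 := by
  set r := inner ℝ u.1 e.1 / ‖e.1‖ ^ 2 with hr
  have hc : inner ℝ u.1 e.1 = r * ‖e.1‖ ^ 2 := (div_mul_cancel₀ _ n0.ne').symm
  have e1 := smul_sq1 r e
  have e2 := smul_sq2 r e
  have e3 : ‖u.1 - (r • e).1‖ ^ 2 = ‖u.1‖ ^ 2 - r ^ 2 * ‖e.1‖ ^ 2 := by
    rw [norm_sub_sq_real, e1, Prod.smul_fst, inner_smul_right, hc]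
    ring
  have e4 : inner ℝ u.1 e.1 ^ 2 / ‖e.1‖ ^ 2 = r ^ 2 * ‖e.1‖ ^ 2 := by
    rw [hc, div_eq_iff n0.ne']
    ring
  have e5 : 0 ≤ ‖u.1‖ ^ 2 - r ^ 2 * ‖e.1‖ ^ 2 := e3 ▸ sq_nonneg _
  rw [e4] at hM
  have hK' : 0 ≤ T ^ 2 * K * η ^ 2 := by positivity
  have D0 := sq_nonneg ‖e.2‖
  have b9 : r ^ 2 * ‖e.2‖ ^ 2 = lam * (r ^ 2 * ‖e.1‖ ^ 2) := by rw [hD]; ring
  have b0 := mul_nonneg T0.le e5
  rcases le_total 1 (r ^ 2) with hr1 | hr1
  · have := mul_le_mul_of_nonneg_right hr1 D0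
    linarith
  · have b1 : |r| ^ (2 + η) ≤ r ^ 2 := by
      have := Real.rpow_le_rpow_of_exponent_ge' (abs_nonneg r) ((sq_le_one_iff_abs_le_one r).1 hr1)
        (show (0 : ℝ) ≤ 2 by norm_num) (show (2 : ℝ) ≤ 2 + η by linarith)
      rwa [Real.rpow_two, sq_abs] at this
    have k := (h u hu).2 (r • e) ((W μ Ω).smul_mem r he) (u6.trans TM)
      (e2 ▸ ((mul_le_of_le_one_left D0 hr1).trans h6).trans TM) (T * η) (by positivity)
    rw [e1, e3, mass_smul, me, mu, mul_one] at k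
    have b4 := mul_le_mul_of_nonneg_left ((le_abs_self _).trans k) T0.le
    have b5 : T * (η * ((‖u.1‖ ^ 2 - r ^ 2 * ‖e.1‖ ^ 2) / (T * η) + T * η * K)) =
        ‖u.1‖ ^ 2 - r ^ 2 * ‖e.1‖ ^ 2 + T ^ 2 * K * η ^ 2 := by
      field_simp
    rw [b5] at b4
    have b7 := mul_le_mul_of_nonneg_left b1 T0.le
    have b8 := mul_le_mul_of_nonneg_right h6 (sub_nonneg.2 hr1)
    linarith

end Pool.Agent.Lib.MP_eb4995_an.Cv
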