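import Mathlib
import Pool.Agent.Lib.MP_eb4995_an.Cv.NLip

/-!
Three different eigenvalues between the first and the fourth Lusternik-Schnirelman value, in
every dimension.
-/

set_option linter.unusedSectionVars false

namespace Pool.Agent.Lib.MP_eb4995_an.Cv

open MeasureTheory Set Filter Topology Module

variable {E : Type} [NormedAddCommGroup E] [InnerProductSpace ℝ E] [CompleteSpace E]
  [MeasurableSpace E] [BorelSpace E] [FiniteDimensional ℝ E]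
  {μ : Measure E} [μ.IsAddHaarMeasure] {Ω : Set E} {η A M K : ℝ}

theorem odd_minN (hN : 2 ≤ finrank ℝ E)
    (hq : ((finrank ℝ E : ℝ) - 2) * (2 + η) < 2 * finrank ℝ E) (hb : Bornology.IsBounded Ω)
    (ho : IsOpen Ω) (h0 : 0 < η) {σ : E ≃ₗᵢ[ℝ] E} (hσ : Symm μ Ω σ) {e : V μ} (he : e ∈ W μ Ω)
    (oe : Odd σ e) (me : mass (2 + η) e = 1) :
    ∃ p ∈ W μ Ω, Odd σ p ∧ mass (2 + η) p = 1 ∧ ‖p.2‖ ^ 2 ∈ spec μ Ω (2 + η) ∧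
      ‖p.2‖ ^ 2 ≤ ‖e.2‖ ^ 2 := by
  obtain ⟨p, h1, h2, h3, h4, h5⟩ := exists_odd_min hN (q := 2 + η) (by linarith) hq hb ho hσ.1
    hσ.2.1 hσ.2.2 he oe (lq_of_mass me)
  exact ⟨p, h1, h2, mass_of_lq (by linarith) h3, h4, h5⟩

theorem class_minN (hN : 2 ≤ finrank ℝ E)
    (hq : ((finrank ℝ E : ℝ) - 2) * (2 + η) < 2 * finrank ℝ E) (hb : Bornology.IsBounded Ω)
    (ho : IsOpen Ω) (hL : LipN μ Ω η A M K) (hK : 0 ≤ K) (h0 : 0 < η)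
    {σ : E ≃ₗᵢ[ℝ] E} (hσ : Symm μ Ω σ) {e : V μ} (he : e ∈ W μ Ω) (oe : Odd σ e)
    {α N lam T : ℝ} (hα : 0 < α) (N0 : 0 < N) (T0 : 0 < T) (TM : T ≤ M)
    (me : |α| ^ (2 + η) * mass (2 + η) e = 1) (n : ‖e.1‖ ^ 2 = N)
    (d : ‖e.2‖ ^ 2 = lam * N) (h6 : lam * (α ^ 2 * N) ≤ T)
    (hM : ∀ u ∈ W μ Ω, Odd σ u →
      (T + 1) * ‖u.1‖ ^ 2 - N⁻¹ * ((T + 1 - lam) * inner ℝ u.1 e.1 ^ 2) ≤ ‖u.2‖ ^ 2) :
    ∃ m ∈ spec μ Ω (2 + η), lam * (α ^ 2 * N) - T ^ 2 * K * η ^ 2 ≤ m ∧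
      m ≤ lam * (α ^ 2 * N) := by
  have e1 : ‖(α • e).1‖ ^ 2 = α ^ 2 * N := by rw [smul_sq1, n]
  have e2 : ‖(α • e).2‖ ^ 2 = lam * (α ^ 2 * N) := by rw [smul_sq2, d]; ring
  rw [← mass_smul] at me
  have he' := (W μ Ω).smul_mem α he
  obtain ⟨p, p1, p2, p3, p4, p5⟩ := odd_minN hN hq hb ho h0 hσ he' (oe.smul hσ.1 α) me
  refine ⟨_, p4, ?_, e2 ▸ p5⟩
  rw [← e2]
  refine hL.lower hK h0 he' p1 me p3 (lam := lam) (by rw [e1]; positivity) T0 TM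
    (by rw [e1, e2]) (e2 ▸ h6) (p5.trans (e2 ▸ h6)) (le_of_eq_of_le ?_ (hM p p1 p2))
  rw [e1, Prod.smul_fst, inner_smul_right]
  field_simp

theorem LipN.normal (hL : LipN μ Ω η A M K) (h0 : 0 < η) {e : V μ} (he : e ∈ W μ Ω)
    {N T lam α : ℝ} (N0 : 0 < N) (l1 : lam ≤ T) (T0 : 0 ≤ T) (hM : T * (A + 3) ≤ M)
    (n : ‖e.1‖ ^ 2 = N) (d : ‖e.2‖ ^ 2 = lam * N) (m : |α| ^ (2 + η) * mass (2 + η) e = 1)
    (hs : T * (η * (A + 1 + K)) ≤ 1 / 10) {l : ℝ} (h1 : 0 ≤ l) (h2 : l ≤ T) :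
    l - 1 / 10 ≤ l * (α ^ 2 * N) ∧ l * (α ^ 2 * N) ≤ l + 1 / 10 := by
  rw [← mass_smul] at m
  have he' := (W μ Ω).smul_mem α he
  have a1 := (hL _ he').1
  rw [smul_sq1, n, m] at a1
  have a0 : 0 ≤ α ^ 2 * N := by positivity
  have a2 := hL.near h0 he' m (by
    rw [smul_sq2, d]
    nlinarith [mul_le_mul l1 a1 a0 T0]) hs h1 h2
  rwa [smul_sq1, n] at a2

theorem threeN (hN : 2 ≤ finrank ℝ E)
    (hq' : ((finrank ℝ E : ℝ) - 2) * (2 + η) < 2 * finrank ℝ E) (hb : Bornology.IsBounded Ω)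
    (ho : IsOpen Ω) (hL : LipN μ Ω η A M K) (hA : 0 ≤ A) (hK : 0 ≤ K) (h0 : 0 < η) (h1 : η ≤ 1)
    {e₁ e₂ e₃ : V μ} (w₁ : e₁ ∈ W μ Ω) (w₂ : e₂ ∈ W μ Ω) (w₃ : e₃ ∈ W μ Ω) {N S τ h c : ℝ}
    (S0 : 0 ≤ S) (hM' : (S + 7) * (A + 3) ≤ M) (N0 : 0 < N) (N3 : N ≤ 3)
    (n₁ : ‖e₁.1‖ ^ 2 = N) (n₂ : ‖e₂.1‖ ^ 2 = N) (n₃ : ‖e₃.1‖ ^ 2 = N)
    (d₁ : ‖e₁.2‖ ^ 2 = (S + 2 - τ) * N) (d₂ : ‖e₂.2‖ ^ 2 = (S + 5 - 4 * τ) * N)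
    (d₃ : ‖e₃.2‖ ^ 2 = (S + 5 - τ) * N)
    (hM : ∀ p ∈ W μ Ω, (S + 7) * ‖p.1‖ ^ 2 - N⁻¹ * ((5 + τ) * inner ℝ p.1 e₁.1 ^ 2 +
      (2 + 4 * τ) * inner ℝ p.1 e₂.1 ^ 2 + (2 + τ) * inner ℝ p.1 e₃.1 ^ 2) ≤ ‖p.2‖ ^ 2)
    {σ₁ σ₂ σ₃ : E ≃ₗᵢ[ℝ] E} (s₁ : Symm μ Ω σ₁) (s₂ : Symm μ Ω σ₂) (s₃ : Symm μ Ω σ₃)
    (o₁ : Odd σ₁ e₂) (o₂ : Odd σ₂ e₃) (o₃ : Odd σ₃ e₂) (o₄ : Odd σ₃ e₃)
    (p₁ : ∀ u : V μ, Odd σ₁ u → inner ℝ u.1 e₁.1 = 0 ∧ inner ℝ u.1 e₃.1 = 0)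
    (p₂ : ∀ u : V μ, Odd σ₂ u → inner ℝ u.1 e₁.1 = 0 ∧ inner ℝ u.1 e₂.1 = 0)
    (p₃ : ∀ u : V μ, Odd σ₃ u → inner ℝ u.1 e₁.1 = 0) (p₄ : inner ℝ e₂.2 e₃.2 = 0)
    (hh : h ^ 2 = 1 / 2) (c0 : 0 < c) (m₁ : mass (2 + η) e₃ = mass (2 + η) e₂)
    (m₂ : mass (2 + η) e₂ + c * η ≤ mass (2 + η) (h • (e₂ + e₃)))
    (τ0 : 0 ≤ τ) (τ1 : τ ≤ 1 / 20) (k₁ : (S + 7) * (η * (A + 1 + K)) ≤ 1 / 10)
    (k₂ : (S + 6) ^ 2 * K * η ^ 2 < 27 / 10 * τ)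
    (k₃ : 33 / 20 * τ + (S + 6) ^ 2 * K * η ^ 2 < 4 * (c / (2 * (6 + K + c)) * η)) :
    ∃ lam ∈ spec μ Ω (2 + η), lam ∉ specLS μ Ω (2 + η) := by
  have hq : 0 < 2 + η := by linarith
  have hq2 : 2 ≤ 2 + η := by linarith
  have M3 : 3 * (S + 7) ≤ M := by nlinarith
  have L1 := mass_posN hq (int_massN hb hN hq2 hq' w₁) (n₁ ▸ N0)
  have L2 := mass_posN hq (int_massN hb hN hq2 hq' w₂) (n₂ ▸ N0)
  have cη : 0 < c * η := by positivity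
  obtain ⟨γ, γ0, hγ⟩ := exists_norm hq L1
  obtain ⟨α, α0, hα⟩ := exists_norm hq L2
  obtain ⟨β, β0, hβ⟩ := exists_norm hq (show 0 < mass (2 + η) (h • (e₂ + e₃)) by linarith)
  obtain ⟨-, g1⟩ := hL.normal h0 w₁ N0 (by linarith) (by linarith) hM' n₁ d₁ hγ k₁
    (l := S + 2 - τ) (by linarith) (by linarith)
  have nα := fun l => hL.normal h0 w₂ N0 (by linarith) (by linarith) hM' n₂ d₂ hα k₁ (l := l)
  obtain ⟨a1, a2⟩ := nα 1 (by linarith) (by linarith)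
  obtain ⟨a3, a4⟩ := nα (S + 5) (by linarith) (by linarith)
  have l1 := lamLS_one_le (q := 2 + η) ((W μ Ω).smul_mem γ w₁)
    (lq_of_mass ((mass_smul γ e₁).trans hγ))
  have l2 : ‖(γ • e₁).2‖ ^ 2 ≤ S + 11 / 5 := by
    rw [smul_sq2, d₁]
    linarith
  have τn : 0 ≤ τ * (α ^ 2 * N) := by positivity
  obtain ⟨mX, X1, X2, X3⟩ := class_minN hN hq' hb ho hL hK h0 s₁ w₂ o₁ (T := S + 6) α0 N0
    (by linarith) (by linarith) hα n₂ d₂ (by linarith) fun u hu ou => by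
      have := hM u hu
      rw [(p₁ u ou).1, (p₁ u ou).2] at this
      exact le_of_eq_of_le (by ring) this
  obtain ⟨mY, Y1, Y2, Y3⟩ := class_minN hN hq' hb ho hL hK h0 s₂ w₃ o₂ (T := S + 6) α0 N0
    (by linarith) (by linarith) (m₁ ▸ hα) n₃ d₃ (by linarith) fun u hu ou => by
      have := hM u hu
      rw [(p₂ u ou).1, (p₂ u ou).2] at this
      exact le_of_eq_of_le (by ring) this
  have K2 : mass (2 + η) e₂ ≤ 6 + K := by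
    have b2 : ‖e₂.2‖ ^ 2 ≤ M := by
      rw [d₂]
      linarith [mul_le_mul (show S + 5 - 4 * τ ≤ S + 7 by linarith) N3 N0.le (by linarith)]
    have b1 := (le_abs_self _).trans (hL.zero h0 w₂ b2)
    rw [n₂] at b1
    linarith [mul_le_mul h1 (show N + K ≤ 3 + K by linarith) (by linarith) zero_le_one]
  have r := ratio h0 h1 α0 β0 c0 L2 K2 hα hβ m₂
  have x0 : 0 ≤ c / (2 * (6 + K + c)) * η := by positivity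
  generalize c / (2 * (6 + K + c)) * η = x at r x0 k₃
  generalize (S + 6) ^ 2 * K * η ^ 2 = y at X2 Y2 k₂ k₃
  obtain ⟨p, O1, O2, O3, O4, O5⟩ := odd_minN hN hq' hb ho h0 s₃
    ((W μ Ω).smul_mem β ((W μ Ω).smul_mem h ((W μ Ω).add_mem w₂ w₃)))
    (((o₃.add s₃.1 o₄).smul s₃.1 h).smul s₃.1 β) ((mass_smul _ _).trans hβ)
  rw [smul_sq2, smul_sq2, Prod.snd_add, norm_add_sq_real, p₄, d₂, d₃, hh] at O5
  have r2 := mul_le_mul_of_nonneg_right r (show 0 ≤ (S + 5 - 5 / 2 * τ) * N from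
    mul_nonneg (by linarith) N0.le)
  have O6 : ‖p.2‖ ^ 2 ≤ (S + 5 - 5 / 2 * τ) * (α ^ 2 * N) -
      x * ((S + 5 - 5 / 2 * τ) * (α ^ 2 * N)) := by linarith
  have τ2 := mul_le_mul_of_nonneg_left a1 τ0
  have τ3 := mul_le_mul_of_nonneg_left a2 τ0
  have O7 := mul_le_mul_of_nonneg_left
    (show 4 ≤ (S + 5 - 5 / 2 * τ) * (α ^ 2 * N) by linarith) x0
  clear r r2 O5
  have O8 : S + 11 / 5 < ‖p.2‖ ^ 2 := by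
    have b1 := (hL.near h0 O1 O3 (by linarith) k₁ (lam := S + 3 - 5 * τ) (by linarith)
      (by linarith)).1
    have b2 := hM p O1
    rw [p₃ p O2] at b2
    have b3 := mul_le_mul_of_nonneg_left (cs_sq N0 p.1 n₂) (show 0 ≤ 2 + 4 * τ by linarith)
    have b4 := mul_le_mul_of_nonneg_left (cs_sq N0 p.1 n₃) (show 0 ≤ 2 + τ by linarith)
    linarith
  refine pigeon O4 X1 Y1 (by linarith) (by linarith) (l1.trans (EReal.coe_le_coe_iff.2 l2)) O8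
    (four_le (s := S + 6) hq (a := e₁.1) (b := e₂.1) (c := e₃.1) fun p hp z1 z2 z3 hm => ?_)
    (by linarith)
  have b2 := hM p hp
  rw [z1, z2, z3] at b2
  by_contra H
  have := (hL.near h0 hp hm (by linarith [not_le.1 H]) k₁ (lam := S + 7) (by linarith) le_rfl).1
  linarith [not_le.1 H]

end Pool.Agent.Lib.MP_eb4995_an.Cv
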