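import Mathlib
import Pool.Agent.Lib.MP_eb4995_an.Cv.NBox
import Pool.Agent.Lib.MP_eb4995_an.Cv.NThree

/-!
In every dimension and for `q` close to `2`, some box has an eigenvalue that is not a
Lusternik-Schnirelman value.
-/

namespace Pool.Agent.Lib.MP_eb4995_an.Cv

open MeasureTheory Set Filter Topology Real Module

variable {n : ℕ}

theorem md_x (k : ℝ) (x : Fin (n + 2) → ℝ) : md (ka k) (fun t => sin (2 * t)) cos x =
    md (ka k) cos cos x * (2 * sin (k * x 0)) := by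
  rw [md_split, md_split, sin_two_mul]; ring

theorem md_y (k : ℝ) (x : Fin (n + 2) → ℝ) : md (ka k) cos (fun t => sin (2 * t)) x =
    md (ka k) cos cos x * (2 * sin (x 1)) := by
  rw [md_split, md_split, sin_two_mul]; ring

theorem exists_modesN {k : ℝ} (hk : 0 < k) : ∃ e₁ e₂ e₃ : V (volume : Measure (EN (n + 2))),
    Mode (box (ka k) (n + 2)) (fun x => md (ka k) cos cos x.ofLp) e₁ ∧
    Mode (box (ka k) (n + 2)) (fun x => md (ka k) (fun t => sin (2 * t)) cos x.ofLp) e₂ ∧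
    Mode (box (ka k) (n + 2)) (fun x => md (ka k) cos (fun t => sin (2 * t)) x.ofLp) e₃ := by
  obtain ⟨e₁, h₁⟩ := exists_modeN (m := n + 2) (ka_pos hk) (ξ := fun _ => 1) contDiff_const
  obtain ⟨e₂, h₂⟩ := exists_modeN (m := n + 2) (ka_pos hk) (ξ := fun x => 2 * sin (k * x 0))
    (by fun_prop)
  obtain ⟨e₃, h₃⟩ := exists_modeN (m := n + 2) (ka_pos hk) (ξ := fun x => 2 * sin (x 1))
    (by fun_prop)
  simp only [mul_one] at h₁
  simp only [md_x, md_y]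
  exact ⟨e₁, e₂, e₃, h₁, h₂, h₃⟩

theorem mass_modesN {k q h g P : ℝ} (hk : 0 < k) (hk1 : k ≤ 1) (hq : 1 < q) (g0 : 0 ≤ g)
    (P0 : 0 ≤ P) (hP : P ≤ tail q n) {e₂ e₃ : V (volume : Measure (EN (n + 2)))}
    (h₂ : Mode (box (ka k) (n + 2)) (fun x => md (ka k) (fun t => sin (2 * t)) cos x.ofLp) e₂)
    (h₃ : Mode (box (ka k) (n + 2)) (fun x => md (ka k) cos (fun t => sin (2 * t)) x.ofLp) e₃)
    (hg : wmass q (fun z => z.1) + g ≤ wmass q fun z => h * (z.1 + z.2)) :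
    mass q e₃ = mass q e₂ ∧ mass q e₂ + P * g ≤ mass q (h • (e₂ + e₃)) := by
  have a₂ := h₂.2.1
  have a₃ := h₃.2.1
  simp only [md_x, md_y] at a₂ a₃
  have m₂ := mass_box hk hq (p := e₂) (F := fun z => 2 * z.1) (by fun_prop) a₂
  have m₃ := mass_box hk hq (p := e₃) (F := fun z => 2 * z.2) (by fun_prop) a₃
  have m₄ := mass_box hk hq (p := h • (e₂ + e₃)) (F := fun z => 2 * (h * (z.1 + z.2)))
    (by fun_prop) (by
      filter_upwards [a₂, a₃, Lp.coeFn_smul h (e₂.1 + e₃.1), Lp.coeFn_add e₂.1 e₃.1]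
        with x a1 a2 a3 a4
      rw [Prod.smul_fst, Prod.fst_add, a3, Pi.smul_apply, a4, Pi.add_apply, a1, a2]
      by_cases hx : x ∈ box (ka k) (n + 2)
      · simp only [indicator_of_mem hx, smul_eq_mul]
        ring
      · simp [indicator_of_notMem hx])
  rw [wmass_mul] at m₂ m₃ m₄
  rw [← wmass_swap hq, ← m₂] at m₃
  refine ⟨mul_left_cancel₀ hk.ne' m₃, le_of_mul_le_mul_left ?_ hk⟩
  have t : 1 ≤ |(2 : ℝ)| ^ q := one_le_rpow (by norm_num) (by linarith)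
  have t1 := mul_le_mul_of_nonneg_right (mul_le_mul_of_nonneg_left hg (zero_le_one.trans t))
    (P0.trans hP)
  have t2 := mul_le_mul_of_nonneg_right (mul_le_mul (hk1.trans t) hP P0 (zero_le_one.trans t)) g0
  rw [mul_add, m₂, m₄]
  linarith

theorem box_core {A M K η k τ h c P : ℝ}
    (hq : ((finrank ℝ (EN (n + 2)) : ℝ) - 2) * (2 + η) < 2 * finrank ℝ (EN (n + 2)))
    (hL : LipN volume (box (ka (1 / 2)) (n + 2)) η A M K) (hA : 0 ≤ A) (hK : 0 ≤ K)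
    (h0 : 0 < η) (h1 : η ≤ 1) (hk : 0 < k) (hτ : k ^ 2 = 1 - τ) (hh : h ^ 2 = 1 / 2) (c0 : 0 < c)
    (hg : wmass (2 + η) (fun z => z.1) + c * η ≤ wmass (2 + η) fun z => h * (z.1 + z.2))
    (P0 : 0 < P) (hP : P ≤ tail (2 + η) n) (hM : (shift n + 7) * (A + 3) ≤ M)
    (τ0 : 0 ≤ τ) (τ1 : τ ≤ 1 / 20) (k₁ : (shift n + 7) * (η * (A + 1 + K)) ≤ 1 / 10)
    (k₂ : (shift n + 6) ^ 2 * K * η ^ 2 < 27 / 10 * τ)
    (k₃ : 33 / 20 * τ + (shift n + 6) ^ 2 * K * η ^ 2 <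
      4 * (P * c / (2 * (6 + K + P * c)) * η)) :
    ∃ lam ∈ spec volume (box (ka k) (n + 2)) (2 + η),
      lam ∉ specLS volume (box (ka k) (n + 2)) (2 + η) := by
  have k9 : 9 / 10 ≤ k := by nlinarith
  have k1 : k ≤ 1 := by nlinarith
  obtain ⟨e₁, e₂, e₃, h₁, h₂, h₃⟩ := exists_modesN (n := n) hk
  obtain ⟨n₁, d₁⟩ := h₁.norms_md hk one_cos one_cos
  obtain ⟨n₂, d₂⟩ := h₂.norms_md hk one_sin one_cos
  obtain ⟨n₃, d₃⟩ := h₃.norms_md hk one_cos one_sin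
  have f₂ : Differentiable ℝ fun x : EN (n + 2) => md (ka k) (fun t => sin (2 * t)) cos x.ofLp :=
    diff_prod fun i : Fin (n + 2) => one_fam one_sin one_cos i
  have f₃ : Differentiable ℝ fun x : EN (n + 2) => md (ka k) cos (fun t => sin (2 * t)) x.ofLp :=
    diff_prod fun i : Fin (n + 2) => one_fam one_cos one_sin i
  obtain ⟨m₁, m₂⟩ := mass_modesN hk k1 (by linarith) (by positivity) P0.le hP h₂ h₃ hg
  rw [← mul_assoc] at m₂
  obtain ⟨σ₁, i₁, r₁, a₁⟩ := exists_reflN n (s := -1) (t := 1) (Or.inr rfl) (Or.inl rfl)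
  obtain ⟨σ₂, i₂, r₂, a₂⟩ := exists_reflN n (s := 1) (t := -1) (Or.inl rfl) (Or.inr rfl)
  obtain ⟨σ₃, i₃, r₃, a₃⟩ := exists_reflN n (s := -1) (t := -1) (Or.inr rfl) (Or.inr rfl)
  have q₁ := σ₁.measurePreserving
  have q₂ := σ₂.measurePreserving
  have q₃ := σ₃.measurePreserving
  have o₁ := h₂.odd q₁ i₁ (r₁ _) f₂ fun x => by rw [a₁, md_split]; simp
  obtain ⟨N0, N3⟩ := nrm_bd k9 n
  refine threeN (by simp) hq (bounded_box (ka_pos hk) _) (isOpen_box _ _)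
    (hL.mono (box_mono (by norm_num) (by linarith) _)) hA hK h0 h1 h₁.1 h₂.1 h₃.1
    (τ := τ) (Finset.sum_nonneg fun i _ => sq_nonneg _) hM N0 N3 n₁ n₂ n₃ ?_ ?_ ?_
    (fun p hp => ?_)
    ⟨q₁, i₁, fun x => (r₁ _ x).1⟩ ⟨q₂, i₂, fun x => (r₂ _ x).1⟩ ⟨q₃, i₃, fun x => (r₃ _ x).1⟩
    o₁ (h₃.odd q₂ i₂ (r₂ _) f₃ fun x => by rw [a₂, md_split]; simp)
    (h₂.odd q₃ i₃ (r₃ _) f₂ fun x => by rw [a₃, md_split]; simp)
    (h₃.odd q₃ i₃ (r₃ _) f₃ fun x => by rw [a₃, md_split]; simp)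
    (fun u hu => ⟨h₁.perp1 q₁ (r₁ _) (fun x => by rw [a₁, md_split]; simp) hu,
      h₃.perp1 q₁ (r₁ _) (fun x => by rw [a₁, md_split]; simp) hu⟩)
    (fun u hu => ⟨h₁.perp1 q₂ (r₂ _) (fun x => by rw [a₂, md_split]; simp) hu,
      h₂.perp1 q₂ (r₂ _) (fun x => by rw [a₂, md_split]; simp) hu⟩)
    (fun u hu => h₁.perp1 q₃ (r₃ _) (fun x => by rw [a₃, md_split]; simp) hu)
    (h₃.perp2 q₁ i₁ (r₁ _) f₃ (fun x => by rw [a₁, md_split]; simp) o₁) hh (by positivity)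
    m₁ m₂ τ0 τ1 k₁ k₂ k₃
  · rw [d₁, hτ, shift]; ring
  · rw [d₂, hτ, shift]; ring
  · rw [d₃, hτ, shift]; ring
  · have := masterW hk (by linarith) h₁.2.1 h₂.2.1 h₃.2.1 hp
    rw [hτ] at this
    exact le_of_eq_of_le (by rw [shift]; ring) this

theorem box_eq {κ : ℕ → ℝ} (hκ : ∀ i, 0 < κ i) (m : ℕ) :
    box κ m = {x : EN m | ∀ i, |x i| < π / 2 / κ i} := by
  ext x
  simp only [box, side, mem_ofPred_eq, abs_mul, abs_of_pos (hκ _), lt_div_iff₀' (hκ _)]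

theorem exists_box (N : ℕ) (hN : 2 ≤ N) : ∃ δ : ℝ, 0 < δ ∧ ∀ q : ℝ, 2 < q → q < 2 + δ →
    ∃ a : Fin N → ℝ, (∀ i, 0 < a i) ∧ ∃ lam ∈ spec volume {x : EN N | ∀ i, |x i| < a i} q,
      lam ∉ specLS volume {x : EN N | ∀ i, |x i| < a i} q := by
  obtain ⟨n, rfl⟩ : ∃ n, N = n + 2 := ⟨N - 2, by omega⟩
  obtain ⟨η₀, A, η0, hA, hL⟩ := exists_lipN (μ := volume)
    (bounded_box (ka_pos (k := 1 / 2) (by norm_num)) (n + 2)) (isOpen_box _ _).measurableSet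
    (by simp)
  obtain ⟨K, hK, hL⟩ := hL ((shift n + 7) * (A + 3))
  have hh : (√2 / 2) ^ 2 = 1 / 2 := by
    rw [div_pow, sq_sqrt (by norm_num)]; norm_num
  obtain ⟨c, c0, hc⟩ := gap hh (by positivity)
  have S0 : 0 ≤ shift n := Finset.sum_nonneg fun i _ => sq_nonneg _
  obtain ⟨P, hP⟩ : ∃ P, P = ∏ i ∈ Finset.range n, ((2 : ℝ) ^ (i + 2))⁻¹ := ⟨_, rfl⟩
  have P0 : 0 < P := by rw [hP]; positivity
  obtain ⟨K₁, hK₁⟩ : ∃ K', K' = (shift n + 7) * (A + 1 + K) := ⟨_, rfl⟩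
  obtain ⟨K₃, hK₃⟩ : ∃ K', K' = (shift n + 6) ^ 2 * K := ⟨_, rfl⟩
  obtain ⟨c₁, hc₁⟩ : ∃ K', K' = P * c / (2 * (6 + K + P * c)) := ⟨_, rfl⟩
  have p₁ : 0 < K₁ := by rw [hK₁]; positivity
  have p₃ : 0 ≤ K₃ := by rw [hK₃]; positivity
  have p₄ : 0 < c₁ := by rw [hc₁]; positivity
  refine ⟨min (min (min 1 η₀) (1 / 10 / K₁)) (min (c₁ / (K₃ + 1)) (1 / 20 / (K₃ + 1))),
    by positivity, fun q h2 hq => ?_⟩
  obtain ⟨η, rfl⟩ : ∃ η, q = 2 + η := ⟨q - 2, by ring⟩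
  have h0 : 0 < η := by linarith
  simp only [add_lt_add_iff_left, lt_min_iff] at hq
  obtain ⟨⟨⟨b1, b0⟩, b2⟩, b3, b4⟩ := hq
  rw [lt_div_iff₀ (by positivity)] at b2 b3 b4
  have t1 : (K₃ + 1) * η ^ 2 ≤ 1 / 20 := by nlinarith
  have t2 := mul_lt_mul_of_pos_right b3 h0
  have t3 : 0 < η ^ 2 := by positivity
  have t4 : 0 ≤ K₃ * η ^ 2 := by positivity
  have hk : 0 < √(1 - (K₃ + 1) * η ^ 2) := sqrt_pos.2 (by linarith)
  refine ⟨fun i => π / 2 / ka √(1 - (K₃ + 1) * η ^ 2) i,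
    fun i => by have := ka_pos hk i; positivity, ?_⟩
  rw [← box_eq (ka_pos hk)]
  refine box_core (hL η h0 b0.le).1 (hL η h0 b0.le).2 hA hK h0 b1.le hk (sq_sqrt (by linarith))
    hh c0 (hc η h0 b1.le) P0 (hP ▸ tail_ge (by linarith) (by linarith) n) le_rfl
    (by positivity) t1 ?_ ?_ ?_
  · rw [hK₁] at b2; linarith
  · rw [← hK₃]; linarith
  · rw [← hK₃, ← hc₁]; nlinarith

end Pool.Agent.Lib.MP_eb4995_an.Cv
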